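import Pool.Agent.RSec.ScalarPart2

/-!
A space with a scalar part is not isomorphic to a Hilbert space, unless it has finite dimension.
-/

set_option autoImplicit false

open Filter Topology Set

namespace Pool.Agent.RSec

universe u

/-- an orthonormal sequence in an infinite dimensional Hilbert space -/
theorem exists_orthonormal_seq {H : Type u} [NormedAddCommGroup H] [InnerProductSpace ℂ H]
    [CompleteSpace H] (hinf : ¬ FiniteDimensional ℂ H) : ∃ v : ℕ → H, Orthonormal ℂ v := by
  obtain ⟨w, b, hb⟩ := exists_hilbertBasis ℂ H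
  have hw : Infinite w := by
    by_contra hfin
    rw [not_infinite_iff_finite] at hfin
    have : Fintype w := Fintype.ofFinite w
    apply hinf
    exact (b.toOrthonormalBasis).toBasis.finiteDimensional_of_finite
  exact ⟨fun n => b (Infinite.natEmbedding w n),
    b.orthonormal.comp _ (Infinite.natEmbedding w).injective⟩

variable {Y : Type u} [NormedAddCommGroup Y] [NormedSpace ℂ Y]

/-- a space with a scalar part is not a Hilbert space -/
theorem ScalarPart.not_isoHilbert (s : ScalarPart Y) (hinf : ¬ FiniteDimensional ℂ Y) :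
    ¬ IsoHilbert Y := by
  rintro ⟨H, _, _, _, ⟨e⟩⟩
  have hinfH : ¬ FiniteDimensional ℂ H := by
    intro hf
    exact hinf (LinearEquiv.finiteDimensional e.toLinearEquiv.symm)
  obtain ⟨v, hv⟩ := exists_orthonormal_seq hinfH
  have hvn : ∀ n, ‖v n‖ = 1 := hv.1
  have hdist : ∀ m n, m ≠ n → 1 ≤ ‖v m - v n‖ := by
    intro m n hmn
    have h1 : ‖v m - v n‖ ^ 2 = 2 := by
      rw [@norm_sub_sq ℂ, hvn, hvn, hv.2 hmn]
      simp
      norm_num
    nlinarith [norm_nonneg (v m - v n)]
  set U : Submodule ℂ H := (Submodule.span ℂ (range fun n : ℕ => v (2 * n))).topologicalClosure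
    with hU
  have hUc : IsClosed (U : Set H) := Submodule.isClosed_topologicalClosure _
  have hUcomp : CompleteSpace U := hUc.completeSpace_coe
  set P : H →L[ℂ] H := U.starProjection with hP
  have hPe : ∀ n, P (v (2 * n)) = v (2 * n) := by
    intro n
    rw [hP, Submodule.starProjection_eq_self_iff]
    exact Submodule.le_topologicalClosure _ (Submodule.subset_span ⟨n, rfl⟩)
  have hPo : ∀ n, P (v (2 * n + 1)) = 0 := by
    intro n
    rw [hP, Submodule.starProjection_apply_eq_zero_iff]
    rw [hU, Submodule.orthogonal_closure]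
    rw [Submodule.mem_orthogonal]
    intro u hu
    induction hu using Submodule.span_induction with
    | mem x hx =>
      obtain ⟨k, rfl⟩ := hx
      exact hv.2 (by omega)
    | zero => exact inner_zero_left _
    | add x y _ _ hx hy => rw [inner_add_left, hx, hy, add_zero]
    | smul c x _ hx => rw [inner_smul_left, hx, mul_zero]
  -- transport
  set T : (H →L[ℂ] H) → (Y →L[ℂ] Y) := fun Q =>
    (e.symm : H →L[ℂ] Y).comp (Q.comp (e : Y →L[ℂ] H)) with hT
  have hsum : T P + T (1 - P) = 1 := by
    ext y
    show e.symm (P (e y)) + e.symm ((1 - P) (e y)) = y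
    rw [← map_add]
    have : P (e y) + (1 - P) (e y) = e y := by
      show P (e y) + (e y - P (e y)) = e y
      abel
    rw [this, e.symm_apply_apply]
  have key : ∀ (Q : H →L[ℂ] H) (k : ℕ → ℕ), Function.Injective k → (∀ n, Q (v (k n)) = 0) →
      s.a (T Q) = 0 := by
    intro Q k hk hQ
    by_contra hne
    have hc : 0 < ‖(e : Y →L[ℂ] H)‖ + 1 := by positivity
    refine s.a_sep (T Q) hne (fun n => e.symm (v (k n))) ‖(e.symm : H →L[ℂ] Y)‖
      (1 / (‖(e : Y →L[ℂ] H)‖ + 1)) (fun n => ?_) (by positivity) (fun m n hmn => ?_) ?_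
    · have h1 := (e.symm : H →L[ℂ] Y).le_opNorm (v (k n))
      rw [hvn, mul_one] at h1
      exact h1
    · have h1 := hdist (k m) (k n) (fun h => hmn (hk h))
      have h2 : v (k m) - v (k n) = e (e.symm (v (k m)) - e.symm (v (k n))) := by
        rw [map_sub, e.apply_symm_apply, e.apply_symm_apply]
      have h3 := (e : Y →L[ℂ] H).le_opNorm (e.symm (v (k m)) - e.symm (v (k n)))
      have h4 : ‖v (k m) - v (k n)‖ ≤ ‖(e : Y →L[ℂ] H)‖ *
          ‖e.symm (v (k m)) - e.symm (v (k n))‖ := by
        rw [h2]
        simpa using h3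
      rw [div_le_iff₀ hc]
      nlinarith [norm_nonneg (e.symm (v (k m)) - e.symm (v (k n)))]
    · have h1 : (fun n => T Q (e.symm (v (k n)))) = fun _ => 0 := by
        funext n
        show e.symm (Q (e (e.symm (v (k n))))) = 0
        rw [e.apply_symm_apply, hQ, map_zero]
      rw [h1]
      exact tendsto_const_nhds
  have h1 : s.a (T P) = 0 := key P (fun n => 2 * n + 1) (fun m n h => by
    simp only at h; omega) hPo
  have h2 : s.a (T (1 - P)) = 0 := key (1 - P) (fun n => 2 * n) (fun m n h => by
    simp only at h; omega) (fun n => by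
      show v (2 * n) - P (v (2 * n)) = 0
      rw [hPe, sub_self])
  have h3 := congrArg s.a hsum
  rw [map_add, h1, h2, s.a_one, add_zero] at h3
  exact zero_ne_one h3

end Pool.Agent.RSec
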