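import Pool.Agent.RSec.Defs

/-!
Schauder decompositions with nilpotent blocks and the associated sectorial operator.
-/

set_option autoImplicit false

open Filter Topology Set

namespace Pool.Agent.RSec

universe u

variable {X : Type u} [NormedAddCommGroup X] [NormedSpace ℂ X]

/-- an increasing sequence of commuting projections `E k → 1` and nilpotent operators `U m` living
in the `m`-th piece of the decomposition -/
structure Sch (X : Type u) [NormedAddCommGroup X] [NormedSpace ℂ X] (K : ℝ) where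
  E : ℕ → X →L[ℂ] X
  U : ℕ → X →L[ℂ] X
  hE : ∀ j k x, E j (E k x) = E (min j k) x
  nE : ∀ k, ‖E k‖ ≤ K
  nU : ∀ m, ‖U m‖ ≤ K
  lim : ∀ x, Tendsto (fun k => E k x) atTop (𝓝 x)
  EU : ∀ k m x, E k (U m x) = if m ≤ k then U m x else 0
  UE : ∀ k m x, U m (E k x) = if m ≤ k then U m x else 0
  UU : ∀ m x, U m (U m x) = 0

namespace Sch

variable {K : ℝ} (S : Sch X K)

/-- `x` lies in the `m`-th piece -/
def Pc (m : ℕ) (x : X) : Prop := ∀ k, S.E k x = if m ≤ k then x else 0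

include S in
theorem K_nonneg : 0 ≤ K := (norm_nonneg _).trans (S.nE 0)

theorem Pc_U (m : ℕ) (x : X) : S.Pc m (S.U m x) := fun k => S.EU k m x

theorem Pc_zero (x : X) : S.Pc 0 (S.E 0 x) := by
  intro k
  rw [S.hE, min_zero, if_pos (Nat.zero_le _)]

theorem Pc_diff (n : ℕ) (x : X) : S.Pc (n + 1) (S.E (n + 1) x - S.E n x) := by
  intro k
  rw [map_sub, S.hE, S.hE]
  split_ifs with h
  · rw [min_eq_right h, min_eq_right (by omega)]
  · rw [min_eq_left (by omega), min_eq_left (by omega), sub_self]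

theorem U_of_ne {m j : ℕ} (h : j ≠ m) {x : X} (hx : S.Pc m x) : S.U j x = 0 := by
  rcases lt_or_gt_of_ne h with h | h
  · have h1 := S.UE j j x
    rw [if_pos le_rfl] at h1
    rw [← h1, hx j, if_neg (by omega), map_zero]
  · have h1 := S.UE m j x
    rw [if_neg (by omega), hx m, if_pos le_rfl] at h1
    exact h1

theorem Pc.add {S : Sch X K} {m : ℕ} {x y : X} (hx : S.Pc m x) (hy : S.Pc m y) :
    S.Pc m (x + y) := by
  intro k
  rw [map_add, hx k, hy k]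
  split_ifs <;> simp

theorem Pc.smul {S : Sch X K} {m : ℕ} {x : X} (hx : S.Pc m x) (c : ℂ) : S.Pc m (c • x) := by
  intro k
  rw [map_smul, hx k]
  split_ifs <;> simp

/-- two bounded operators which agree on all pieces are equal -/
theorem ext_of_Pc {F G : X →L[ℂ] X} (h : ∀ m x, S.Pc m x → F x = G x) : F = G := by
  ext x
  have h1 : ∀ n, F (S.E n x) = G (S.E n x) := by
    intro n
    induction n with
    | zero => exact h 0 _ (S.Pc_zero x)
    | succ n ih =>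
      have h2 := h (n + 1) _ (S.Pc_diff n x)
      rw [map_sub, map_sub, ih] at h2
      exact sub_left_injective h2
  have h2 : Tendsto (fun n => F (S.E n x)) atTop (𝓝 (F x)) :=
    (F.continuous.tendsto x).comp (S.lim x)
  have h3 : Tendsto (fun n => G (S.E n x)) atTop (𝓝 (G x)) :=
    (G.continuous.tendsto x).comp (S.lim x)
  exact tendsto_nhds_unique (h2.congr h1) h3

section series
variable [CompleteSpace X]

omit [CompleteSpace X] in
theorem summable_smul {T : ℕ → X →L[ℂ] X} (hT : ∀ m, ‖T m‖ ≤ K) {α : ℕ → ℂ}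
    (hα : Summable fun m => ‖α m‖) : Summable fun m => ‖α m • T m‖ := by
  refine Summable.of_nonneg_of_le (fun _ => norm_nonneg _) (fun m => ?_) (hα.mul_right K)
  rw [norm_smul]
  exact mul_le_mul_of_nonneg_left (hT m) (norm_nonneg _)

/-- `∑ (a_m - a_{m+1}) E_m + ∑ g_m U_m`, which is `∑ a_m D_m + ∑ g_m U_m` -/
noncomputable def op (a g : ℕ → ℂ) : X →L[ℂ] X :=
  ∑' m, (a m - a (m + 1)) • S.E m + ∑' m, g m • S.U m

omit [CompleteSpace X] in
theorem norm_op_le {a g : ℕ → ℂ} (ha : Summable fun m => ‖a m - a (m + 1)‖)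
    (hg : Summable fun m => ‖g m‖) :
    ‖S.op a g‖ ≤ (∑' m, ‖a m - a (m + 1)‖) * K + (∑' m, ‖g m‖) * K := by
  unfold op
  refine (norm_add_le _ _).trans (add_le_add ?_ ?_)
  · refine (norm_tsum_le_tsum_norm (summable_smul S.nE ha)).trans ?_
    rw [← tsum_mul_right]
    refine (summable_smul S.nE ha).tsum_le_tsum (fun m => ?_) (ha.mul_right K)
    rw [norm_smul]
    exact mul_le_mul_of_nonneg_left (S.nE m) (norm_nonneg _)
  · refine (norm_tsum_le_tsum_norm (summable_smul S.nU hg)).trans ?_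
    rw [← tsum_mul_right]
    refine (summable_smul S.nU hg).tsum_le_tsum (fun m => ?_) (hg.mul_right K)
    rw [norm_smul]
    exact mul_le_mul_of_nonneg_left (S.nU m) (norm_nonneg _)

theorem tail_sum {a : ℕ → ℂ} (ha : Summable fun m => ‖a m - a (m + 1)‖)
    (h0 : Tendsto a atTop (𝓝 0)) (m : ℕ) :
    ∑' j, (if m ≤ j then a j - a (j + 1) else 0) = a m := by
  have hs : Summable fun j => (if m ≤ j then a j - a (j + 1) else 0) := by
    apply Summable.of_norm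
    refine Summable.of_nonneg_of_le (fun _ => norm_nonneg _) (fun j => ?_) ha
    split_ifs
    · exact le_rfl
    · rw [norm_zero]; exact norm_nonneg _
  have h1 := hs.hasSum.tendsto_sum_nat
  have h2 : ∀ n, m ≤ n → ∑ j ∈ Finset.range n, (if m ≤ j then a j - a (j + 1) else 0) =
      a m - a n := by
    intro n hn
    induction n, hn using Nat.le_induction with
    | base =>
      rw [sub_self]
      apply Finset.sum_eq_zero
      intro j hj
      rw [Finset.mem_range] at hj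
      rw [if_neg (by omega)]
    | succ n hn ih =>
      rw [Finset.sum_range_succ, ih, if_pos hn]
      ring
  have h3 : Tendsto (fun n => a m - a n) atTop (𝓝 (a m - 0)) := tendsto_const_nhds.sub h0
  rw [sub_zero] at h3
  have h4 : Tendsto (fun n => ∑ j ∈ Finset.range n, (if m ≤ j then a j - a (j + 1) else 0))
      atTop (𝓝 (a m)) := by
    refine h3.congr' ?_
    filter_upwards [eventually_ge_atTop m] with n hn
    exact (h2 n hn).symm
  exact tendsto_nhds_unique h1 h4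

theorem op_apply {a g : ℕ → ℂ} (ha : Summable fun m => ‖a m - a (m + 1)‖)
    (h0 : Tendsto a atTop (𝓝 0)) (hg : Summable fun m => ‖g m‖) {m : ℕ} {x : X}
    (hx : S.Pc m x) : S.op a g x = a m • x + g m • S.U m x := by
  unfold op
  have h1 : (∑' m, (a m - a (m + 1)) • S.E m : X →L[ℂ] X) x = a m • x := by
    have hs : Summable fun m => (a m - a (m + 1)) • S.E m := (summable_smul S.nE ha).of_norm
    rw [← ContinuousLinearMap.apply_apply (𝕜 := ℂ) x, ContinuousLinearMap.map_tsum _ hs]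
    have h2 : ∀ j, ContinuousLinearMap.apply ℂ X x ((a j - a (j + 1)) • S.E j) =
        (if m ≤ j then a j - a (j + 1) else 0) • x := by
      intro j
      simp only [ContinuousLinearMap.apply_apply, _root_.smul_apply]
      rw [hx j]
      split_ifs <;> simp
    rw [tsum_congr h2]
    have hs' : Summable fun j => (if m ≤ j then a j - a (j + 1) else 0) := by
      apply Summable.of_norm
      refine Summable.of_nonneg_of_le (fun _ => norm_nonneg _) (fun j => ?_) ha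
      split_ifs
      · exact le_rfl
      · rw [norm_zero]; exact norm_nonneg _
    rw [hs'.tsum_smul_const, tail_sum ha h0]
  have h3 : (∑' m, g m • S.U m : X →L[ℂ] X) x = g m • S.U m x := by
    have hs : Summable fun m => g m • S.U m := (summable_smul S.nU hg).of_norm
    rw [← ContinuousLinearMap.apply_apply (𝕜 := ℂ) x, ContinuousLinearMap.map_tsum _ hs]
    rw [tsum_eq_single m]
    · simp
    · intro j hj
      simp only [ContinuousLinearMap.apply_apply, _root_.smul_apply]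
      rw [S.U_of_ne hj hx, smul_zero]
  rw [_root_.add_apply, h1, h3]

theorem hasSum_v {L : ℝ} (hL : 0 < L) :
    HasSum (fun m : ℕ => (L + 2 ^ m)⁻¹ - (L + 2 ^ (m + 1))⁻¹) (L + 1)⁻¹ := by
  have hnn : ∀ m : ℕ, 0 ≤ (L + 2 ^ m)⁻¹ - (L + 2 ^ (m + 1))⁻¹ := by
    intro m
    rw [sub_nonneg]
    apply inv_anti₀ (by positivity)
    have : (2:ℝ) ^ m ≤ 2 ^ (m + 1) := pow_le_pow_right₀ (by norm_num) (by omega)
    linarith
  rw [hasSum_iff_tendsto_nat_of_nonneg hnn]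
  have h1 : ∀ n, ∑ m ∈ Finset.range n, ((L + 2 ^ m)⁻¹ - (L + 2 ^ (m + 1))⁻¹) =
      (L + 1)⁻¹ - (L + 2 ^ n)⁻¹ := by
    intro n
    rw [Finset.sum_range_sub' (fun m : ℕ => (L + 2 ^ m)⁻¹)]
    simp
  simp_rw [h1]
  have h2 : Tendsto (fun n : ℕ => (L + 2 ^ n : ℝ)⁻¹) atTop (𝓝 0) := by
    apply tendsto_inv_atTop_zero.comp
    apply tendsto_atTop_add_const_left
    exact tendsto_pow_atTop_atTop_of_one_lt (by norm_num)
  simpa using tendsto_const_nhds.sub h2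

/-- the coefficients of the resolvent -/
noncomputable def ra (l : ℂ) (m : ℕ) : ℂ := (l - 2 ^ m)⁻¹

noncomputable def rg (l : ℂ) (m : ℕ) : ℂ := 2 ^ m / (l - 2 ^ m) ^ 2

theorem ra_rg_bound {κ : ℝ} (hκ : 0 < κ) {l : ℂ} (hl0 : l ≠ 0)
    (hl : ∀ c : ℝ, 0 ≤ c → κ * (‖l‖ + c) ≤ ‖l - (c : ℂ)‖) (m : ℕ) :
    ‖ra l m - ra l (m + 1)‖ ≤ (κ ^ 2)⁻¹ * ((‖l‖ + 2 ^ m)⁻¹ - (‖l‖ + 2 ^ (m + 1))⁻¹) ∧
      ‖rg l m‖ ≤ 2 * (κ ^ 2)⁻¹ * ((‖l‖ + 2 ^ m)⁻¹ - (‖l‖ + 2 ^ (m + 1))⁻¹) ∧ l - 2 ^ m ≠ 0 := by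
  have hL : 0 < ‖l‖ := norm_pos_iff.mpr hl0
  have h1 : ∀ j : ℕ, κ * (‖l‖ + 2 ^ j) ≤ ‖l - 2 ^ j‖ := by
    intro j
    have := hl (2 ^ j) (by positivity)
    push_cast at this
    exact this
  have hp : (0:ℝ) < 2 ^ m := by positivity
  have h2 : ∀ j : ℕ, 0 < κ * (‖l‖ + 2 ^ j) := fun j => by positivity
  have h3 : ∀ j : ℕ, l - 2 ^ j ≠ 0 := fun j =>
    norm_pos_iff.mp ((h2 j).trans_le (h1 j))
  have hv : (‖l‖ + 2 ^ m)⁻¹ - (‖l‖ + 2 ^ (m + 1))⁻¹ =
      2 ^ m / ((‖l‖ + 2 ^ m) * (‖l‖ + 2 ^ (m + 1))) := by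
    have : (0:ℝ) < ‖l‖ + 2 ^ m := by positivity
    have : (0:ℝ) < ‖l‖ + 2 ^ (m + 1) := by positivity
    field_simp
    ring
  refine ⟨?_, ?_, h3 m⟩
  · have h4 : ra l m - ra l (m + 1) = -(2 ^ m) / ((l - 2 ^ m) * (l - 2 ^ (m + 1))) := by
      unfold ra
      rw [inv_sub_inv (h3 m) (h3 (m + 1))]
      congr 1
      ring
    have h5 : ‖(2:ℂ) ^ m‖ = 2 ^ m := by rw [norm_pow]; norm_num
    rw [h4, norm_div, norm_neg, norm_mul, hv, h5]
    rw [inv_mul_eq_div, div_div, div_le_div_iff₀ (by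
      exact mul_pos ((h2 m).trans_le (h1 m)) ((h2 (m+1)).trans_le (h1 (m+1)))) (by positivity)]
    apply mul_le_mul_of_nonneg_left _ hp.le
    calc (‖l‖ + 2 ^ m) * (‖l‖ + 2 ^ (m + 1)) * κ ^ 2 =
          (κ * (‖l‖ + 2 ^ m)) * (κ * (‖l‖ + 2 ^ (m + 1))) := by ring
      _ ≤ _ := mul_le_mul (h1 m) (h1 (m + 1)) (h2 (m + 1)).le (norm_nonneg _)
  · unfold rg
    have h5 : ‖(2:ℂ) ^ m‖ = 2 ^ m := by rw [norm_pow]; norm_num
    rw [norm_div, h5, norm_pow, hv, mul_assoc, inv_mul_eq_div, div_div, ← mul_div_assoc,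
      div_le_div_iff₀ (by
      exact pow_pos ((h2 m).trans_le (h1 m)) 2) (by positivity)]
    have h6 : (‖l‖ + 2 ^ m) * (‖l‖ + 2 ^ (m + 1)) * κ ^ 2 ≤ 2 * ‖l - 2 ^ m‖ ^ 2 := by
      have h7 : ‖l‖ + 2 ^ (m + 1) ≤ 2 * (‖l‖ + 2 ^ m) := by rw [pow_succ]; linarith
      calc (‖l‖ + 2 ^ m) * (‖l‖ + 2 ^ (m + 1)) * κ ^ 2
          ≤ (‖l‖ + 2 ^ m) * (2 * (‖l‖ + 2 ^ m)) * κ ^ 2 := by
            apply mul_le_mul_of_nonneg_right _ (by positivity)
            exact mul_le_mul_of_nonneg_left h7 (by positivity)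
        _ = 2 * (κ * (‖l‖ + 2 ^ m)) ^ 2 := by ring
        _ ≤ 2 * ‖l - 2 ^ m‖ ^ 2 := by
            apply mul_le_mul_of_nonneg_left _ (by norm_num)
            exact pow_le_pow_left₀ (h2 m).le (h1 m) 2
    calc 2 ^ m * ((‖l‖ + 2 ^ m) * (‖l‖ + 2 ^ (m + 1)) * κ ^ 2) ≤
          2 ^ m * (2 * ‖l - 2 ^ m‖ ^ 2) := mul_le_mul_of_nonneg_left h6 hp.le
      _ = _ := by ring

theorem ra_summable {κ : ℝ} (hκ : 0 < κ) {l : ℂ} (hl0 : l ≠ 0)
    (hl : ∀ c : ℝ, 0 ≤ c → κ * (‖l‖ + c) ≤ ‖l - (c : ℂ)‖) :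
    (Summable fun m => ‖ra l m - ra l (m + 1)‖) ∧
      ∑' m, ‖ra l m - ra l (m + 1)‖ ≤ (κ ^ 2)⁻¹ * ‖l‖⁻¹ := by
  have hL : 0 < ‖l‖ := norm_pos_iff.mpr hl0
  have hv := (hasSum_v hL).mul_left (κ ^ 2)⁻¹
  have hs : Summable fun m => ‖ra l m - ra l (m + 1)‖ :=
    Summable.of_nonneg_of_le (fun _ => norm_nonneg _) (fun m => (ra_rg_bound hκ hl0 hl m).1)
      hv.summable
  refine ⟨hs, ?_⟩
  refine (hs.tsum_le_tsum (fun m => (ra_rg_bound hκ hl0 hl m).1) hv.summable).trans ?_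
  rw [hv.tsum_eq]
  apply mul_le_mul_of_nonneg_left _ (by positivity)
  apply inv_anti₀ hL
  linarith

theorem rg_summable {κ : ℝ} (hκ : 0 < κ) {l : ℂ} (hl0 : l ≠ 0)
    (hl : ∀ c : ℝ, 0 ≤ c → κ * (‖l‖ + c) ≤ ‖l - (c : ℂ)‖) :
    (Summable fun m => ‖rg l m‖) ∧ ∑' m, ‖rg l m‖ ≤ 2 * (κ ^ 2)⁻¹ * ‖l‖⁻¹ := by
  have hL : 0 < ‖l‖ := norm_pos_iff.mpr hl0
  have hv := (hasSum_v hL).mul_left (2 * (κ ^ 2)⁻¹)
  have hs : Summable fun m => ‖rg l m‖ :=
    Summable.of_nonneg_of_le (fun _ => norm_nonneg _) (fun m => (ra_rg_bound hκ hl0 hl m).2.1)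
      hv.summable
  refine ⟨hs, ?_⟩
  refine (hs.tsum_le_tsum (fun m => (ra_rg_bound hκ hl0 hl m).2.1) hv.summable).trans ?_
  rw [hv.tsum_eq]
  apply mul_le_mul_of_nonneg_left _ (by positivity)
  apply inv_anti₀ hL
  linarith

theorem ra_tendsto (l : ℂ) : Tendsto (ra l) atTop (𝓝 0) := by
  unfold ra
  apply tendsto_inv₀_cobounded.comp
  have h1 : Tendsto (fun m : ℕ => (2:ℂ) ^ m) atTop (Bornology.cobounded ℂ) := by
    rw [← tendsto_norm_atTop_iff_cobounded]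
    have : (fun m : ℕ => ‖(2:ℂ) ^ m‖) = fun m : ℕ => (2:ℝ) ^ m := by
      funext m; rw [norm_pow]; norm_num
    rw [this]
    exact tendsto_pow_atTop_atTop_of_one_lt (by norm_num)
  rw [← tendsto_norm_atTop_iff_cobounded] at h1 ⊢
  have h2 : Tendsto (fun m : ℕ => ‖(2:ℂ) ^ m‖ - ‖l‖) atTop atTop :=
    tendsto_atTop_add_const_right _ _ h1
  refine tendsto_atTop_mono (fun m => ?_) h2
  rw [norm_sub_rev]
  exact norm_sub_norm_le _ _

/-- the coefficients of the inverse -/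
noncomputable def ba (m : ℕ) : ℂ := ((2:ℂ) ^ m)⁻¹

theorem ba_summable : (Summable fun m => ‖ba m - ba (m + 1)‖) := by
  have h : ∀ m, ‖ba m - ba (m + 1)‖ = (1 / 2) * (1 / 2 : ℝ) ^ m := by
    intro m
    have : ba m - ba (m + 1) = (1 / 2) * (1 / 2 : ℂ) ^ m := by
      unfold ba
      rw [pow_succ, one_div, inv_pow]
      field_simp
      norm_num
    rw [this, norm_mul, norm_pow]
    norm_num
  simp_rw [h]
  exact (summable_geometric_of_lt_one (by norm_num) (by norm_num)).mul_left _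

theorem bg_summable : (Summable fun m => ‖-ba m‖) := by
  have h : ∀ m, ‖-ba m‖ = (1 / 2 : ℝ) ^ m := by
    intro m
    unfold ba
    rw [norm_neg, norm_inv, norm_pow, one_div, inv_pow]
    norm_num
  simp_rw [h]
  exact summable_geometric_of_lt_one (by norm_num) (by norm_num)

theorem ba_tendsto : Tendsto ba atTop (𝓝 0) := by
  have h : ba = fun m => (1 / 2 : ℂ) ^ m := by
    funext m
    unfold ba
    rw [one_div, inv_pow]
  rw [h]
  apply tendsto_pow_atTop_nhds_zero_of_norm_lt_one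
  norm_num

/-- the inverse of the operator -/
noncomputable def B : X →L[ℂ] X := S.op ba (fun m => -ba m)

/-- the resolvent of the operator -/
noncomputable def Res (l : ℂ) : X →L[ℂ] X := S.op (ra l) (rg l)

theorem B_apply {m : ℕ} {x : X} (hx : S.Pc m x) :
    S.B x = ((2:ℂ) ^ m)⁻¹ • x - ((2:ℂ) ^ m)⁻¹ • S.U m x := by
  unfold B
  rw [S.op_apply ba_summable ba_tendsto bg_summable hx, neg_smul, ← sub_eq_add_neg]
  rfl

theorem Res_apply {κ : ℝ} (hκ : 0 < κ) {l : ℂ} (hl0 : l ≠ 0)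
    (hl : ∀ c : ℝ, 0 ≤ c → κ * (‖l‖ + c) ≤ ‖l - (c : ℂ)‖) {m : ℕ} {x : X}
    (hx : S.Pc m x) : S.Res l x = (l - 2 ^ m)⁻¹ • x + (2 ^ m / (l - 2 ^ m) ^ 2) • S.U m x :=
  S.op_apply (ra_summable hκ hl0 hl).1 (ra_tendsto l) (rg_summable hκ hl0 hl).1 hx

omit [CompleteSpace X] in
theorem norm_Res_le {κ : ℝ} (hκ : 0 < κ) {l : ℂ} (hl0 : l ≠ 0)
    (hl : ∀ c : ℝ, 0 ≤ c → κ * (‖l‖ + c) ≤ ‖l - (c : ℂ)‖) :
    ‖l • S.Res l‖ ≤ 3 * (κ ^ 2)⁻¹ * K := by
  have hL : 0 < ‖l‖ := norm_pos_iff.mpr hl0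
  have h1 := S.norm_op_le (ra_summable hκ hl0 hl).1 (rg_summable hκ hl0 hl).1
  have h2 := (ra_summable hκ hl0 hl).2
  have h3 := (rg_summable hκ hl0 hl).2
  have hK := S.K_nonneg
  rw [norm_smul]
  calc ‖l‖ * ‖S.Res l‖ ≤ ‖l‖ * ((κ ^ 2)⁻¹ * ‖l‖⁻¹ * K + 2 * (κ ^ 2)⁻¹ * ‖l‖⁻¹ * K) := by
        apply mul_le_mul_of_nonneg_left _ hL.le
        refine h1.trans (add_le_add ?_ ?_)
        · exact mul_le_mul_of_nonneg_right h2 hK
        · exact mul_le_mul_of_nonneg_right h3 hK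
    _ = 3 * (κ ^ 2)⁻¹ * K := by field_simp; ring

end series

end Sch

end Pool.Agent.RSec
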