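import Pool.Agent.RSec.RB

/-!
R-boundedness of `l (l - A)⁻¹` for a bounded operator `A` with a pseudo-inverse.
-/

set_option autoImplicit false

open Filter Topology Set

namespace Pool.Agent.RSec

universe u

variable {Y : Type u} [NormedAddCommGroup Y] [NormedSpace ℂ Y]

/-- `R` is the inverse of `l - A` (bounded operators) -/
def BRes (A : Y →L[ℂ] Y) (l : ℂ) (R : Y →L[ℂ] Y) : Prop :=
  (l • (1 : Y →L[ℂ] Y) - A) * R = 1 ∧ R * (l • (1 : Y →L[ℂ] Y) - A) = 1

variable [CompleteSpace Y] {A : Y →L[ℂ] Y}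

/-- geometric series as `HasSum` -/
theorem hasSum_geom {x : Y →L[ℂ] Y} (hx : ‖x‖ < 1) :
    ∃ G : Y →L[ℂ] Y, HasSum (fun k => x ^ k) G ∧ G * (1 - x) = 1 ∧ (1 - x) * G = 1 := by
  refine ⟨∑' k, x ^ k, ?_, ?_, ?_⟩
  · exact (summable_geometric_of_norm_lt_one hx).hasSum
  · exact geom_series_mul_neg x hx
  · exact mul_neg_geom_series x hx

/-- near a point of the resolvent set -/
theorem BRes.local {l₀ l : ℂ} {R₀ R : Y →L[ℂ] Y} (h₀ : BRes A l₀ R₀) (h : BRes A l R)
    (hl : ‖l - l₀‖ * ‖R₀‖ ≤ 1 / 2) :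
    HasSum (fun k => (l * (l₀ - l) ^ k) • R₀ ^ (k + 1)) (l • R) := by
  have hx : ‖(l₀ - l) • R₀‖ < 1 := by
    rw [norm_smul, norm_sub_rev]
    linarith
  obtain ⟨G, hG, hG1, hG2⟩ := hasSum_geom hx
  have e1 : R * (1 - (l₀ - l) • R₀) = R₀ := by
    have e2 : R₀ = R * (l • (1 : Y →L[ℂ] Y) - A) * R₀ := by rw [h.2, one_mul]
    have e3 : (l • (1 : Y →L[ℂ] Y) - A) * R₀ = 1 - (l₀ - l) • R₀ := by
      have e4 := h₀.1
      have e5 : (l • (1 : Y →L[ℂ] Y) - A) = (l₀ • (1 : Y →L[ℂ] Y) - A) - (l₀ - l) • 1 := by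
        rw [sub_smul]
        abel
      rw [e5, sub_mul, e4, smul_mul_assoc, one_mul]
    rw [mul_assoc, e3] at e2
    exact e2.symm
  have e2 : R = R₀ * G := by
    calc R = R * ((1 - (l₀ - l) • R₀) * G) := by rw [hG2, mul_one]
      _ = R₀ * G := by rw [← mul_assoc, e1]
  have h1 : HasSum (fun k => l • (R₀ * ((l₀ - l) • R₀) ^ k)) (l • (R₀ * G)) :=
    (hG.mul_left R₀).const_smul l
  rw [← e2] at h1
  have h2 : (fun k => l • (R₀ * ((l₀ - l) • R₀) ^ k))
      = fun k => (l * (l₀ - l) ^ k) • R₀ ^ (k + 1) := by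
    funext k
    rw [smul_pow, mul_smul_comm, smul_smul, pow_succ']
  rwa [h2] at h1

/-- `l (l - A)⁻¹` for large `l` -/
theorem BRes.large {l : ℂ} {R : Y →L[ℂ] Y} (h : BRes A l R) (hl0 : l ≠ 0)
    (hl : ‖A‖ ≤ ‖l‖ / 2) : HasSum (fun k => (l⁻¹ ^ k) • A ^ k) (l • R) := by
  have hn : 0 < ‖l‖ := norm_pos_iff.mpr hl0
  have hx : ‖l⁻¹ • A‖ < 1 := by
    rw [norm_smul, norm_inv, inv_mul_lt_iff₀ hn]
    linarith
  obtain ⟨G, hG, hG1, hG2⟩ := hasSum_geom hx
  have e1 : (l • R) * (1 - l⁻¹ • A) = 1 := by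
    have h2 := h.2
    calc (l • R) * (1 - l⁻¹ • A) = R * (l • (1 : Y →L[ℂ] Y) - A) := by
          rw [smul_mul_assoc, ← mul_smul_comm, smul_sub, smul_smul, mul_inv_cancel₀ hl0, one_smul]
      _ = 1 := h2
  have e2 : l • R = G := by
    calc l • R = (l • R) * ((1 - l⁻¹ • A) * G) := by rw [hG2, mul_one]
      _ = G := by rw [← mul_assoc, e1, one_mul]
  rw [e2]
  have h2 : (fun k => (l⁻¹ • A) ^ k) = fun k => (l⁻¹ ^ k) • A ^ k := by
    funext k
    rw [smul_pow]
  rwa [h2] at hG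

/-- `l (l - A)⁻¹` for small `l` -/
theorem BRes.small {l : ℂ} {R B Q : Y →L[ℂ] Y} (h : BRes A l R) (hAB : A * B = Q)
    (hAQ : A * Q = A) (hQB : Q * B = B) (hl : ‖l‖ * ‖B‖ ≤ 1 / 2) :
    HasSum (fun k => (if k = 0 then (1 : ℂ) else - l ^ k) •
      (if k = 0 then 1 - Q else B ^ k)) (l • R) := by
  have hx : ‖l • B‖ < 1 := by
    rw [norm_smul]
    linarith
  obtain ⟨G, hG, hG1, hG2⟩ := hasSum_geom hx
  -- the sum is `1 - Q - (G - 1)`
  have h1 : HasSum (fun k => if k = 0 then (0 : Y →L[ℂ] Y) else (l • B) ^ k) (G - 1) := by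
    have h2 := hG.update 0 0
    rw [pow_zero, zero_sub] at h2
    have h3 : Function.update (fun k => (l • B) ^ k) 0 0
        = fun k => if k = 0 then (0 : Y →L[ℂ] Y) else (l • B) ^ k := by
      funext k
      by_cases hk : k = 0 <;> simp [hk]
    rw [h3] at h2
    have h4 : (0 : Y →L[ℂ] Y) - 1 + G = G - 1 := by abel
    first
      | rwa [h4] at h2
      | (have h5 : -1 + G = G - 1 := by abel
         rwa [h5] at h2)
  have h2 : HasSum (fun k => if k = 0 then (1 - Q : Y →L[ℂ] Y) else 0) (1 - Q) :=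
    hasSum_ite_eq 0 (1 - Q)
  have h3 := h2.sub h1
  have e0 : (1 - Q) - (G - 1) = l • R := by
    -- check that the left side times `l - A` from the left is `l`
    have e1 : (l • (1 : Y →L[ℂ] Y) - A) * ((1 - Q) - (G - 1)) = l • 1 := by
      have hAG : A * (G - 1) = l • (Q * G) := by
        have e2 : G - 1 = (l • B) * G := by
          have := hG2
          rw [sub_mul, one_mul] at this
          rw [← this]
          abel
        rw [e2, smul_mul_assoc, mul_smul_comm, ← mul_assoc, hAB]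
      have hQG : Q * G = G - 1 + Q := by
        have e2 : G - 1 = (l • B) * G := by
          have := hG2
          rw [sub_mul, one_mul] at this
          rw [← this]
          abel
        have e3 : Q * (G - 1) = G - 1 := by
          rw [e2, smul_mul_assoc, mul_smul_comm, ← mul_assoc, hQB]
        rw [mul_sub, mul_one] at e3
        rw [← e3]
        abel
      have hA1 : A * (1 - Q) = 0 := by rw [mul_sub, mul_one, hAQ, sub_self]
      rw [sub_mul, mul_sub A, hA1, hAG, hQG, smul_mul_assoc, one_mul, zero_sub, sub_neg_eq_add,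
        ← smul_add]
      congr 1
      abel
    calc (1 - Q) - (G - 1) = R * (l • (1 : Y →L[ℂ] Y) - A) * ((1 - Q) - (G - 1)) := by
          rw [h.2, one_mul]
      _ = l • R := by rw [mul_assoc, e1, mul_smul_comm, mul_one]
  rw [e0] at h3
  have h4 : (fun k => (if k = 0 then (1 - Q : Y →L[ℂ] Y) else 0) -
      (if k = 0 then (0 : Y →L[ℂ] Y) else (l • B) ^ k))
      = fun k => (if k = 0 then (1 : ℂ) else - l ^ k) • (if k = 0 then 1 - Q else B ^ k) := by
    funext k
    by_cases hk : k = 0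
    · simp [hk]
    · simp [hk, smul_pow]
  rwa [h4] at h3

theorem rb_of_bounded {B Q : Y →L[ℂ] Y} (hAB : A * B = Q)
    (hAQ : A * Q = A) (hQB : Q * B = B) {F : Set ℂ} (hF : IsClosed F)
    (hres : ∀ l ∈ F, l ≠ 0 → ∃ R, BRes A l R) :
    RBounded {T | ∃ l ∈ F, l ≠ 0 ∧ ∃ R, BRes A l R ∧ T = l • R} := by
  -- small
  set δ : ℝ := 1 / (2 * (‖B‖ + 1)) with hδ
  have hB0 : 0 < ‖B‖ + 1 := by positivity
  have hδ0 : 0 < δ := by positivity
  set M : ℝ := 2 * (‖A‖ + 1) with hM
  have hM0 : 0 < M := by positivity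
  have hsmall : RBounded {T | ∃ l ∈ F, l ≠ 0 ∧ ‖l‖ ≤ δ ∧ ∃ R, BRes A l R ∧ T = l • R} := by
    refine RBounded.of_series (T := fun k => if k = 0 then 1 - Q else B ^ k)
      (b := fun k => δ ^ k) (fun k => by positivity) ?_ ?_
    · have h1 : Summable fun k : ℕ => (1 / 2 : ℝ) ^ k := summable_geometric_two
      have h2 : Summable fun k : ℕ => (‖1 - Q‖ + 1) * (1 / 2 : ℝ) ^ k := h1.mul_left _
      refine Summable.of_nonneg_of_le (fun k => by positivity) (fun k => ?_) h2
      by_cases hk : k = 0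
      · simp [hk]
      · simp only [hk, if_false]
        have h3 : ‖B ^ k‖ ≤ ‖B‖ ^ k := norm_pow_le' B (Nat.pos_of_ne_zero hk)
        calc δ ^ k * ‖B ^ k‖ ≤ δ ^ k * ‖B‖ ^ k := by gcongr
          _ = (δ * ‖B‖) ^ k := by rw [mul_pow]
          _ ≤ (1 / 2) ^ k := by
              apply pow_le_pow_left₀ (by positivity)
              rw [hδ, div_mul_eq_mul_div, one_mul, div_le_div_iff₀ (by positivity) (by norm_num)]
              linarith [norm_nonneg B]
          _ ≤ (‖1 - Q‖ + 1) * (1 / 2) ^ k := by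
              have : (0 : ℝ) < (1 / 2) ^ k := by positivity
              nlinarith [norm_nonneg (1 - Q)]
    · rintro U ⟨l, hlF, hl0, hlδ, R, hR, rfl⟩
      refine ⟨fun k => if k = 0 then (1 : ℂ) else - l ^ k, fun k => ?_, ?_⟩
      · by_cases hk : k = 0
        · simp [hk]
        · simp only [hk, if_false, norm_neg, norm_pow]
          exact pow_le_pow_left₀ (norm_nonneg _) hlδ k
      · apply hR.small hAB hAQ hQB
        calc ‖l‖ * ‖B‖ ≤ δ * (‖B‖ + 1) := by
              apply mul_le_mul hlδ (by linarith) (norm_nonneg _) hδ0.le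
          _ = 1 / 2 := by
              rw [hδ]
              field_simp
  have hlarge : RBounded {T | ∃ l ∈ F, l ≠ 0 ∧ M ≤ ‖l‖ ∧ ∃ R, BRes A l R ∧ T = l • R} := by
    refine RBounded.of_series (T := fun k => A ^ k)
      (b := fun k => M⁻¹ ^ k) (fun k => by positivity) ?_ ?_
    · have h1 : Summable fun k : ℕ => (1 / 2 : ℝ) ^ k := summable_geometric_two
      have h2 : Summable fun k : ℕ => (‖(1 : Y →L[ℂ] Y)‖ + 1) * (1 / 2 : ℝ) ^ k := h1.mul_left _
      refine Summable.of_nonneg_of_le (fun k => by positivity) (fun k => ?_) h2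
      by_cases hk : k = 0
      · simp [hk]
      · have h3 : ‖A ^ k‖ ≤ ‖A‖ ^ k := norm_pow_le' A (Nat.pos_of_ne_zero hk)
        calc M⁻¹ ^ k * ‖A ^ k‖ ≤ M⁻¹ ^ k * ‖A‖ ^ k := by gcongr
          _ = (M⁻¹ * ‖A‖) ^ k := by rw [mul_pow]
          _ ≤ (1 / 2) ^ k := by
              apply pow_le_pow_left₀ (by positivity)
              rw [inv_mul_le_iff₀ hM0, hM]
              linarith [norm_nonneg A]
          _ ≤ (‖(1 : Y →L[ℂ] Y)‖ + 1) * (1 / 2) ^ k := by
              have : (0 : ℝ) < (1 / 2) ^ k := by positivity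
              nlinarith [norm_nonneg (1 : Y →L[ℂ] Y)]
    · rintro U ⟨l, hlF, hl0, hlM, R, hR, rfl⟩
      refine ⟨fun k => l⁻¹ ^ k, fun k => ?_, ?_⟩
      · rw [norm_pow, norm_inv]
        exact pow_le_pow_left₀ (by positivity) (inv_anti₀ hM0 hlM) k
      · apply hR.large hl0
        rw [le_div_iff₀ (by norm_num)]
        linarith
  -- the middle
  have hmid : RBounded {T | ∃ l ∈ (F ∩ Metric.closedBall 0 M) \ Metric.ball 0 δ,
      l ≠ 0 ∧ ∃ R, BRes A l R ∧ T = l • R} := by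
    have hK : IsCompact ((F ∩ Metric.closedBall 0 M) \ Metric.ball (0 : ℂ) δ) :=
      ((isCompact_closedBall 0 M).inter_left hF).diff Metric.isOpen_ball
    refine hK.induction_on (p := fun S => RBounded {T | ∃ l ∈ S, l ≠ 0 ∧ ∃ R, BRes A l R ∧
      T = l • R}) ?_ ?_ ?_ ?_
    · refine RBounded.empty.mono ?_
      rintro T ⟨l, hl, _⟩
      exact absurd hl (Set.notMem_empty _)
    · intro S S' hSS' hS'
      refine hS'.mono ?_
      rintro T ⟨l, hl, hh⟩
      exact ⟨l, hSS' hl, hh⟩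
    · intro S S' hS hS'
      refine (hS.union hS').mono ?_
      rintro T ⟨l, hl, hh⟩
      rcases hl with hl | hl
      · exact Or.inl ⟨l, hl, hh⟩
      · exact Or.inr ⟨l, hl, hh⟩
    · rintro l₀ ⟨⟨hl₀F, _⟩, hl₀⟩
      have hl₀0 : l₀ ≠ 0 := by
        rintro rfl
        exact hl₀ (Metric.mem_ball_self hδ0)
      obtain ⟨R₀, hR₀⟩ := hres l₀ hl₀F hl₀0
      set r : ℝ := 1 / (2 * (‖R₀‖ + 1)) with hr
      have hR0 : 0 < ‖R₀‖ + 1 := by positivity
      have hr0 : 0 < r := by positivity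
      refine ⟨Metric.ball l₀ r, mem_nhdsWithin_of_mem_nhds (Metric.ball_mem_nhds _ hr0), ?_⟩
      refine RBounded.of_series (T := fun k => R₀ ^ (k + 1))
        (b := fun k => (‖l₀‖ + r) * r ^ k) (fun k => by positivity) ?_ ?_
      · have h1 : Summable fun k : ℕ => (1 / 2 : ℝ) ^ k := summable_geometric_two
        have h2 : Summable fun k : ℕ => ((‖l₀‖ + r) * ‖R₀‖) * (1 / 2 : ℝ) ^ k := h1.mul_left _
        refine Summable.of_nonneg_of_le (fun k => by positivity) (fun k => ?_) h2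
        have h3 : ‖R₀ ^ (k + 1)‖ ≤ ‖R₀‖ ^ (k + 1) := norm_pow_le' R₀ (Nat.succ_pos k)
        calc (‖l₀‖ + r) * r ^ k * ‖R₀ ^ (k + 1)‖ ≤ (‖l₀‖ + r) * r ^ k * ‖R₀‖ ^ (k + 1) := by
              gcongr
          _ = ((‖l₀‖ + r) * ‖R₀‖) * (r * ‖R₀‖) ^ k := by
              rw [mul_pow, pow_succ]
              ring
          _ ≤ ((‖l₀‖ + r) * ‖R₀‖) * (1 / 2) ^ k := by
              apply mul_le_mul_of_nonneg_left _ (by positivity)
              apply pow_le_pow_left₀ (by positivity)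
              rw [hr, div_mul_eq_mul_div, one_mul, div_le_div_iff₀ (by positivity) (by norm_num)]
              linarith [norm_nonneg R₀]
      · rintro U ⟨l, hl, hl0, R, hR, rfl⟩
        have hl' : ‖l - l₀‖ ≤ r := by
          rw [← dist_eq_norm]
          exact (Metric.mem_ball.mp hl).le
        refine ⟨fun k => l * (l₀ - l) ^ k, fun k => ?_, ?_⟩
        · rw [norm_mul, norm_pow, norm_sub_rev]
          have h4 : ‖l‖ ≤ ‖l₀‖ + r := by
            have := norm_add_le (l₀) (l - l₀)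
            rw [add_sub_cancel] at this
            linarith
          gcongr
        · apply hR₀.local hR
          calc ‖l - l₀‖ * ‖R₀‖ ≤ r * (‖R₀‖ + 1) := by
                apply mul_le_mul hl' (by linarith) (norm_nonneg _) hr0.le
            _ = 1 / 2 := by
                rw [hr]
                field_simp
  refine ((hsmall.union hlarge).union hmid).mono ?_
  rintro T ⟨l, hlF, hl0, R, hR, rfl⟩
  by_cases h1 : ‖l‖ ≤ δ
  · exact Or.inl (Or.inl ⟨l, hlF, hl0, h1, R, hR, rfl⟩)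
  · by_cases h2 : M ≤ ‖l‖
    · exact Or.inl (Or.inr ⟨l, hlF, hl0, h2, R, hR, rfl⟩)
    · refine Or.inr ⟨l, ⟨⟨hlF, ?_⟩, ?_⟩, hl0, R, hR, rfl⟩
      · rw [Metric.mem_closedBall, dist_zero_right]
        linarith
      · rw [Metric.mem_ball, dist_zero_right]
        exact fun h => h1 h.le

end Pool.Agent.RSec
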