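import Mathlib

/-!
Sectorial and R-sectorial operators on a complex Banach space, property (H).
-/

set_option autoImplicit false

open Set

namespace Pool.Agent.RSec

universe u

section defs

variable {X : Type u} [NormedAddCommGroup X] [NormedSpace ℂ X]

/-- the open sector `Σ_s = {z ≠ 0 : |arg z| < s}` -/
def sector (s : ℝ) : Set ℂ := {z | z ≠ 0 ∧ |z.arg| < s}

/-- `R` is the resolvent `R(l, A) = (l - A)⁻¹` of the (unbounded) operator `A` -/
def IsResolvent (A : X →ₗ.[ℂ] X) (l : ℂ) (R : X →L[ℂ] X) : Prop :=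
  (∀ x : X, ∃ h : R x ∈ A.domain, l • R x - A ⟨R x, h⟩ = x) ∧
    ∀ x : A.domain, R (l • (x : X) - A x) = x

/-- the spectrum of `A` lies in the closed sector of half angle `s` and `l R(l, A)` is bounded
outside every larger closed sector -/
def SectorialWith (A : X →ₗ.[ℂ] X) (s : ℝ) : Prop :=
  (∀ l, l ∉ closure (sector s) → ∃ R, IsResolvent A l R) ∧
    ∀ s', s < s' → s' < Real.pi → ∃ C : ℝ, ∀ l, l ∉ closure (sector s') →
      ∀ R, IsResolvent A l R → ‖l • R‖ ≤ C

/-- `A` is a negative generator of a bounded analytic semigroup: closed, densely defined and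
sectorial of an angle `< π / 2` -/
def IsNegGen (A : X →ₗ.[ℂ] X) : Prop :=
  A.IsClosed ∧ Dense (A.domain : Set X) ∧ ∃ s, 0 < s ∧ s < Real.pi / 2 ∧ SectorialWith A s

/-- the sign `±1` given by a bit -/
def sg (b : Bool) : ℝ := if b then 1 else -1

/-- `‖∑ r_k x_k‖²` in `L_2([0,1]; X)`: the mean of `‖∑ ± x_k‖²` over all choices of signs -/
noncomputable def radSq {n : ℕ} (x : Fin n → X) : ℝ :=
  (∑ e : Fin n → Bool, ‖∑ k, sg (e k) • x k‖ ^ 2) / 2 ^ n

/-- `‖∑ r_k x_k‖` in `L_2([0,1]; X)` -/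
noncomputable def radNorm {n : ℕ} (x : Fin n → X) : ℝ := Real.sqrt (radSq x)

/-- R-boundedness of a set of bounded operators -/
def RBounded (T : Set (X →L[ℂ] X)) : Prop :=
  ∃ C : ℝ, ∀ (n : ℕ) (t : Fin n → (X →L[ℂ] X)), (∀ k, t k ∈ T) → ∀ x : Fin n → X,
    radNorm (fun k => t k (x k)) ≤ C * radNorm x

/-- R-sectoriality: `{l R(l, A) : l ∉ closure Σ_s}` is R-bounded for some `s ∈ (0, π)` -/
def RSectorial (A : X →ₗ.[ℂ] X) : Prop :=
  ∃ s, 0 < s ∧ s < Real.pi ∧
    RBounded {T | ∃ l, l ∉ closure (sector s) ∧ ∃ R, IsResolvent A l R ∧ T = l • R}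

end defs

/-- property (H): every negative generator of an analytic semigroup is R-sectorial -/
def PropertyH (X : Type u) [NormedAddCommGroup X] [NormedSpace ℂ X] : Prop :=
  ∀ A : X →ₗ.[ℂ] X, IsNegGen A → RSectorial A

/-- `X` is isomorphic to a Hilbert space -/
def IsoHilbert (X : Type u) [NormedAddCommGroup X] [NormedSpace ℂ X] : Prop :=
  ∃ (H : Type u) (_ : NormedAddCommGroup H) (_ : InnerProductSpace ℂ H) (_ : CompleteSpace H),
    Nonempty (X ≃L[ℂ] H)

section basic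

variable {X : Type u} [NormedAddCommGroup X] [NormedSpace ℂ X]

theorem IsResolvent.unique {A : X →ₗ.[ℂ] X} {l : ℂ} {R R' : X →L[ℂ] X} (h : IsResolvent A l R)
    (h' : IsResolvent A l R') : R = R' := by
  ext x
  obtain ⟨h1, h2⟩ := h'.1 x
  have h3 := h.2 ⟨R' x, h1⟩
  simp only at h3
  rw [h2] at h3
  exact h3

theorem zero_mem_closure_sector {s : ℝ} (hs : 0 < s) : (0 : ℂ) ∈ closure (sector s) := by
  rw [Metric.mem_closure_iff]
  intro ε hε
  refine ⟨((ε / 2 : ℝ) : ℂ), ⟨?_, ?_⟩, ?_⟩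
  · exact_mod_cast (half_pos hε).ne'
  · rw [Complex.arg_ofReal_of_nonneg (half_pos hε).le, abs_zero]
    exact hs
  · rw [dist_zero_left, Complex.norm_real, Real.norm_eq_abs, abs_of_pos (half_pos hε)]
    linarith

/-- outside the closed sector the real part is small -/
theorem re_le_of_notMem {s : ℝ} (hs : 0 < s) {l : ℂ}
    (hl : l ∉ closure (sector s)) : l ≠ 0 ∧ l.re ≤ ‖l‖ * Real.cos s := by
  have h0 : l ≠ 0 := by
    rintro rfl
    exact hl (zero_mem_closure_sector hs)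
  refine ⟨h0, ?_⟩
  by_contra hcon
  push Not at hcon
  apply hl
  apply subset_closure
  refine ⟨h0, ?_⟩
  have hn : 0 < ‖l‖ := norm_pos_iff.mpr h0
  have h1 : Real.cos s < Real.cos |l.arg| := by
    rw [Real.cos_abs, Complex.cos_arg h0, lt_div_iff₀ hn, mul_comm]
    exact hcon
  by_contra h2
  push Not at h2
  have h3 := Real.cos_le_cos_of_nonneg_of_le_pi hs.le (Complex.abs_arg_le_pi l) h2
  linarith

/-- a closed set containing the sector -/
theorem mem_closure_sector_re {s : ℝ} (hs' : s ≤ Real.pi) {l : ℂ}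
    (hl : l ∈ closure (sector s)) : ‖l‖ * Real.cos s ≤ l.re := by
  have hc : IsClosed {z : ℂ | ‖z‖ * Real.cos s ≤ z.re} :=
    isClosed_le (continuous_norm.mul continuous_const) Complex.continuous_re
  have hsub : sector s ⊆ {z : ℂ | ‖z‖ * Real.cos s ≤ z.re} := by
    rintro z ⟨hz0, hz⟩
    have hn : 0 < ‖z‖ := norm_pos_iff.mpr hz0
    have h1 : Real.cos s ≤ Real.cos |z.arg| :=
      Real.cos_le_cos_of_nonneg_of_le_pi (abs_nonneg _) hs' hz.le
    rw [Real.cos_abs, Complex.cos_arg hz0, le_div_iff₀ hn] at h1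
    show ‖z‖ * Real.cos s ≤ z.re
    linarith
  exact closure_minimal hsub hc hl

/-- negative numbers lie outside every closed sector -/
theorem neg_notMem {s : ℝ} (hs : 0 < s) (hs' : s < Real.pi) {c : ℝ} (hc : 0 < c) :
    (-(c : ℂ)) ∉ closure (sector s) := by
  intro h
  have h1 := mem_closure_sector_re hs'.le h
  rw [norm_neg, Complex.norm_real, Real.norm_eq_abs, abs_of_pos hc] at h1
  simp only [Complex.neg_re, Complex.ofReal_re] at h1
  have h2 : -1 < Real.cos s := by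
    rw [← Real.cos_pi]
    exact Real.cos_lt_cos_of_nonneg_of_le_pi hs.le le_rfl hs'
  nlinarith

/-- distance to the positive half line -/
theorem dist_half_line {s : ℝ} (hs : 0 < s) (hs' : s < Real.pi) :
    ∃ κ : ℝ, 0 < κ ∧ ∀ l, l ∉ closure (sector s) → ∀ c : ℝ, 0 ≤ c →
      κ * (‖l‖ + c) ≤ ‖l - (c : ℂ)‖ := by
  set t : ℝ := max (Real.cos s) 0 with ht
  have ht1 : t < 1 := by
    rw [ht, max_lt_iff]
    refine ⟨?_, one_pos⟩
    rw [← Real.cos_zero]
    exact Real.cos_lt_cos_of_nonneg_of_le_pi le_rfl hs'.le hs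
  have ht0 : 0 ≤ t := le_max_right _ _
  refine ⟨Real.sqrt ((1 - t) / 2), Real.sqrt_pos.mpr (by linarith), ?_⟩
  intro l hl c hc
  obtain ⟨_, h1⟩ := re_le_of_notMem hs hl
  have h2 : l.re ≤ ‖l‖ * t :=
    h1.trans (mul_le_mul_of_nonneg_left (le_max_left _ _) (norm_nonneg _))
  apply le_of_sq_le_sq _ (norm_nonneg _)
  rw [mul_pow, Real.sq_sqrt (by linarith)]
  have h3 : ‖l - (c : ℂ)‖ ^ 2 = ‖l‖ ^ 2 - 2 * c * l.re + c ^ 2 := by
    rw [Complex.sq_norm, Complex.sq_norm, Complex.normSq_apply, Complex.normSq_apply]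
    simp only [Complex.sub_re, Complex.ofReal_re, Complex.sub_im, Complex.ofReal_im]
    ring
  rw [h3]
  have h4 : 2 * c * l.re ≤ 2 * c * (‖l‖ * t) := mul_le_mul_of_nonneg_left h2 (by linarith)
  have h5 : 0 ≤ t * (‖l‖ - c) ^ 2 := by positivity
  have h6 : 0 ≤ (1 - t) * (‖l‖ - c) ^ 2 := mul_nonneg (by linarith) (sq_nonneg _)
  nlinarith

end basic

end Pool.Agent.RSec
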