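import Pool.Agent.RSec.Cube
import Pool.Agent.RSec.Defs

/-!
Martingale blocks: functions on the cube `Fin N × Bool → Bool` with values in `Y`.
-/

set_option autoImplicit false
set_option linter.unusedSectionVars false

open Finset

namespace Pool.Agent.RSec

open Cb

universe u

variable {Y : Type u} [NormedAddCommGroup Y] [NormedSpace ℂ Y]
variable {N : ℕ}

/-- the cube: two digits for each step `j < N` -/
abbrev Om (N : ℕ) : Type := Fin N × Bool → Bool

/-- the digits of the steps `≥ k` -/
def dge (N k : ℕ) : Finset (Fin N × Bool) := univ.filter fun p => k ≤ p.1.val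

theorem mem_dge {k : ℕ} {p : Fin N × Bool} : p ∈ dge N k ↔ k ≤ p.1.val := by simp [dge]

theorem dge_mono {k l : ℕ} (h : k ≤ l) : dge N l ⊆ dge N k := by
  intro p hp
  rw [mem_dge] at hp ⊢
  omega

theorem dge_union {k l : ℕ} : dge N k ∪ dge N l = dge N (min k l) := by
  ext p
  rw [mem_union, mem_dge, mem_dge, mem_dge]
  omega

theorem dge_empty {k : ℕ} (h : N ≤ k) : dge N k = ∅ := by
  ext p
  rw [mem_dge]
  have := p.1.isLt
  constructor
  · intro h'; omega
  · intro h'; simp at h'

/-- averaging over the steps `≥ k` -/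
noncomputable def Eb (k : ℕ) (g : Om N → Y) : Om N → Y := Av (dge N k) g

/-- the nilpotent operator of step `j` -/
noncomputable def Ub (S : Fin N → (Y →L[ℂ] Y)) (j : Fin N) (g : Om N → Y) : Om N → Y :=
  fun w => rad (j, false) w • S j (Av (dge N j) (fun w => rad (j, true) w • g w) w)

theorem Eb_Eb (k l : ℕ) (g : Om N → Y) : Eb k (Eb l g) = Eb (min k l) g := by
  unfold Eb
  rw [Av_Av, dge_union]

theorem Eb_of_le {k : ℕ} (h : N ≤ k) (g : Om N → Y) : Eb k g = g := by
  unfold Eb
  rw [dge_empty h, Av_empty]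

theorem Inv_S {D : Finset (Fin N × Bool)} {h : Om N → Y} (hh : Inv D h) (S : Y →L[ℂ] Y) :
    Inv D (fun w => S (h w)) := fun x y hxy => by
  show S (h x) = S (h y)
  rw [hh x y hxy]

theorem Inv_single {k : ℕ} {p : Fin N × Bool} (hp : p ∈ dge N k) {h : Om N → Y}
    (hh : Inv (dge N k) h) : Inv {p} h :=
  hh.mono (by simpa using hp)

theorem Eb_Ub (S : Fin N → (Y →L[ℂ] Y)) (j : Fin N) (k : ℕ) (g : Om N → Y) :
    Eb k (Ub S j g) = if j.val + 1 ≤ k then Ub S j g else fun _ => 0 := by
  have hI : Inv (dge N j) (fun w => S j (Av (dge N j) (fun w => rad (j, true) w • g w) w)) :=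
    Inv_S (Inv_Av _ _) (S j)
  split_ifs with h
  · apply Av_of_Inv
    apply Inv.smul
    · apply Inv_rad
      rw [mem_dge]
      simp only
      omega
    · exact hI.mono (dge_mono (by omega))
  · unfold Eb Ub
    apply Av_rad_smul
    · rw [mem_dge]
      simp only
      omega
    · apply Inv_single _ hI
      rw [mem_dge]

theorem Ub_Eb (S : Fin N → (Y →L[ℂ] Y)) (j : Fin N) (k : ℕ) (g : Om N → Y) :
    Ub S j (Eb k g) = if j.val + 1 ≤ k then Ub S j g else fun _ => 0 := by
  split_ifs with h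
  · unfold Ub Eb
    have h1 : (fun w : Om N => rad (j, true) w • Av (dge N k) g w) =
        Av (dge N k) (fun w => rad (j, true) w • g w) := by
      rw [Av_smul_of_Inv]
      apply Inv_rad
      rw [mem_dge]
      simp only
      omega
    rw [h1, Av_Av, dge_union, min_eq_left (by omega)]
  · unfold Ub Eb
    have h1 : Av (dge N j) (fun w : Om N => rad (j, true) w • Av (dge N k) g w) =
        fun _ => 0 := by
      apply Av_rad_smul
      · rw [mem_dge]
      · apply Inv_single _ (Inv_Av _ _)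
        rw [mem_dge]
        simp only
        omega
    rw [h1]
    funext w
    rw [map_zero, smul_zero]

theorem Ub_Ub (S : Fin N → (Y →L[ℂ] Y)) (j : Fin N) (g : Om N → Y) :
    Ub S j (Ub S j g) = fun _ => 0 := by
  have hI : Inv (dge N j) (fun w => S j (Av (dge N j) (fun w => rad (j, true) w • g w) w)) :=
    Inv_S (Inv_Av _ _) (S j)
  have h1 : Av (dge N j) (fun w : Om N => rad (j, true) w • Ub S j g w) = fun _ => 0 := by
    apply Av_rad_smul
    · rw [mem_dge]
    · unfold Ub
      apply Inv.smul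
      · apply Inv_rad
        simp
      · apply Inv_single _ hI
        rw [mem_dge]
  unfold Ub at h1 ⊢
  rw [h1]
  funext w
  rw [map_zero, smul_zero]

theorem sum_Eb_le (k : ℕ) (g : Om N → Y) : ∑ w, ‖Eb k g w‖ ^ 2 ≤ ∑ w, ‖g w‖ ^ 2 :=
  sum_norm_Av_sq_le _ _

theorem norm_rad_smul (e : Fin N × Bool) (w : Om N) (y : Y) : ‖rad e w • y‖ = ‖y‖ := by
  rw [norm_smul, Real.norm_eq_abs, abs_rad, one_mul]

theorem sum_Ub_le (S : Fin N → (Y →L[ℂ] Y)) (hS : ∀ j, ‖S j‖ ≤ 1) (j : Fin N) (g : Om N → Y) :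
    ∑ w, ‖Ub S j g w‖ ^ 2 ≤ ∑ w, ‖g w‖ ^ 2 := by
  calc ∑ w, ‖Ub S j g w‖ ^ 2 ≤
        ∑ w, ‖Av (dge N j) (fun w => rad (j, true) w • g w) w‖ ^ 2 := by
        apply sum_le_sum
        intro w _
        unfold Ub
        rw [norm_rad_smul]
        apply pow_le_pow_left₀ (norm_nonneg _)
        refine ((S j).le_opNorm _).trans ?_
        calc ‖S j‖ * _ ≤ 1 * _ := mul_le_mul_of_nonneg_right (hS j) (norm_nonneg _)
          _ = _ := one_mul _
    _ ≤ ∑ w, ‖rad (j, true) w • g w‖ ^ 2 := sum_norm_Av_sq_le _ _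
    _ = ∑ w, ‖g w‖ ^ 2 := by
        apply sum_congr rfl
        intro w _
        rw [norm_rad_smul]

theorem Eb_add (k : ℕ) (f g : Om N → Y) : Eb k (f + g) = Eb k f + Eb k g := Av_add _ f g

theorem Eb_smul (k : ℕ) (c : ℂ) (g : Om N → Y) : Eb k (c • g) = c • Eb k g := by
  unfold Eb
  have := Av_map (LinearMap.restrictScalars ℝ (LinearMap.lsmul ℂ Y c)) (dge N k) g
  exact this

theorem Ub_add (S : Fin N → (Y →L[ℂ] Y)) (j : Fin N) (f g : Om N → Y) :
    Ub S j (f + g) = Ub S j f + Ub S j g := by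
  unfold Ub
  funext w
  have h1 : (fun w : Om N => rad (j, true) w • (f + g) w) =
      fun w => rad (j, true) w • f w + rad (j, true) w • g w := by
    funext w
    rw [Pi.add_apply, smul_add]
  rw [h1, Av_add, map_add, smul_add]
  rfl

theorem Ub_smul (S : Fin N → (Y →L[ℂ] Y)) (j : Fin N) (c : ℂ) (g : Om N → Y) :
    Ub S j (c • g) = c • Ub S j g := by
  unfold Ub
  funext w
  have h1 : (fun w : Om N => rad (j, true) w • (c • g) w) =
      fun w => c • (rad (j, true) w • g w) := by
    funext w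
    rw [Pi.smul_apply, smul_comm]
  have h2 : Av (dge N j) (fun w : Om N => c • (rad (j, true) w • g w)) =
      fun w => c • Av (dge N j) (fun w : Om N => rad (j, true) w • g w) w :=
    Av_map (LinearMap.restrictScalars ℝ (LinearMap.lsmul ℂ Y c)) (dge N j) _
  rw [h1, h2, map_smul, smul_comm]
  rfl

/-- the value of `Ub` on a Rademacher function -/
theorem Ub_rad (S : Fin N → (Y →L[ℂ] Y)) (j : Fin N) (y : Y) :
    Ub S j (fun w => rad (j, true) w • y) = fun w => rad (j, false) w • S j y := by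
  unfold Ub
  have h1 : (fun w : Om N => rad (j, true) w • rad (j, true) w • y) = fun _ => y := by
    funext w
    rw [smul_smul, rad_sq, one_smul]
  rw [h1, Av_const]

theorem Eb_rad (j : Fin N) (b : Bool) (k : ℕ) (y : Y) :
    Eb k (fun w : Om N => rad (j, b) w • y) =
      if j.val + 1 ≤ k then (fun w => rad (j, b) w • y) else fun _ => 0 := by
  split_ifs with h
  · apply Av_of_Inv
    apply Inv.smul
    · apply Inv_rad
      rw [mem_dge]
      simp only
      omega
    · exact Inv_const _ _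
  · apply Av_rad_smul
    · rw [mem_dge]
      simp only
      omega
    · exact Inv_const _ _

end Pool.Agent.RSec
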