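import Mathlib

/-!
Base library: means and partial averages on the finite cube `𝒟 → Bool` (written by helper71).
-/

set_option linter.unusedSectionVars false

namespace Pool.Agent.RSec.Cb

open Finset

variable {𝒟 : Type} [Fintype 𝒟] [DecidableEq 𝒟]
variable {V : Type*} [AddCommGroup V] [Module ℝ V]

/-- mean over the cube -/
noncomputable def E (f : (𝒟 → Bool) → V) : V :=
  ((Fintype.card (𝒟 → Bool) : ℝ)⁻¹) • ∑ x, f x

/-- replace the digits in `D` of `x` by those of `y` -/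
def mix (D : Finset 𝒟) (y x : 𝒟 → Bool) : 𝒟 → Bool := fun e => if e ∈ D then y e else x e

/-- average over the digits in `D` -/
noncomputable def Av (D : Finset 𝒟) (f : (𝒟 → Bool) → V) : (𝒟 → Bool) → V :=
  fun x => E (fun y => f (mix D y x))

/-- Rademacher sign of the digit `e` -/
noncomputable def rad (e : 𝒟) (x : 𝒟 → Bool) : ℝ := if x e then 1 else -1

/-- `f` does not depend on the digits in `D` -/
def Inv (D : Finset 𝒟) (f : (𝒟 → Bool) → V) : Prop :=
  ∀ x y, (∀ e, e ∉ D → x e = y e) → f x = f y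

lemma card_pos' : (0 : ℝ) < (Fintype.card (𝒟 → Bool) : ℝ) := by
  exact_mod_cast Fintype.card_pos

lemma card_ne' : (Fintype.card (𝒟 → Bool) : ℝ) ≠ 0 := card_pos'.ne'

/-! ### the mean -/

lemma E_add (f g : (𝒟 → Bool) → V) : E (fun x => f x + g x) = E f + E g := by
  simp [E, Finset.sum_add_distrib, smul_add]

lemma E_sub (f g : (𝒟 → Bool) → V) : E (fun x => f x - g x) = E f - E g := by
  simp [E, Finset.sum_sub_distrib, smul_sub]

lemma E_neg (f : (𝒟 → Bool) → V) : E (fun x => - f x) = - E f := by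
  simp [E]

lemma E_smul (c : ℝ) (f : (𝒟 → Bool) → V) : E (fun x => c • f x) = c • E f := by
  simp only [E]
  rw [← Finset.smul_sum, smul_comm]

lemma E_mul_left (c : ℝ) (f : (𝒟 → Bool) → ℝ) : E (fun x => c * f x) = c * E f := by
  simpa using E_smul c f

lemma E_mul_right (c : ℝ) (f : (𝒟 → Bool) → ℝ) : E (fun x => f x * c) = E f * c := by
  simp_rw [mul_comm _ c]; exact E_mul_left c f

lemma E_const (c : V) : E (fun _ : 𝒟 → Bool => c) = c := by
  have h : (Fintype.card (𝒟 → Bool) : ℝ) ≠ 0 := card_ne'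
  simp only [E, Finset.sum_const, Finset.card_univ]
  rw [← Nat.cast_smul_eq_nsmul ℝ, smul_smul, inv_mul_cancel₀ h, one_smul]

lemma E_zero : E (fun _ : 𝒟 → Bool => (0 : V)) = 0 := E_const 0

lemma E_sum {ι : Type} (s : Finset ι) (f : ι → (𝒟 → Bool) → V) :
    E (fun x => ∑ i ∈ s, f i x) = ∑ i ∈ s, E (f i) := by
  simp only [E]
  rw [Finset.sum_comm, Finset.smul_sum]

lemma E_mono {f g : (𝒟 → Bool) → ℝ} (h : ∀ x, f x ≤ g x) : E f ≤ E g := by
  simp only [E, smul_eq_mul]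
  exact mul_le_mul_of_nonneg_left (Finset.sum_le_sum fun x _ => h x) (inv_nonneg.2 card_pos'.le)

lemma E_nonneg {f : (𝒟 → Bool) → ℝ} (h : ∀ x, 0 ≤ f x) : 0 ≤ E f := by
  have := E_mono (f := fun _ => (0 : ℝ)) (g := f) h
  rwa [E_zero] at this

lemma E_comm {𝒟' : Type} [Fintype 𝒟'] [DecidableEq 𝒟'] (f : (𝒟 → Bool) → (𝒟' → Bool) → V) :
    E (fun x => E (fun y => f x y)) = E (fun y => E (fun x => f x y)) := by
  simp only [E]
  rw [← Finset.smul_sum, ← Finset.smul_sum, Finset.sum_comm, smul_comm]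

lemma abs_E_le (f : (𝒟 → Bool) → ℝ) : |E f| ≤ E (fun x => |f x|) := by
  rw [abs_le]
  constructor
  · rw [← E_neg]; exact E_mono fun x => neg_abs_le _
  · exact E_mono fun x => le_abs_self _

lemma E_sq_le (f g : (𝒟 → Bool) → ℝ) :
    (E (fun x => f x * g x)) ^ 2 ≤ E (fun x => f x ^ 2) * E (fun x => g x ^ 2) := by
  simp only [E, smul_eq_mul]
  have h := Finset.sum_mul_sq_le_sq_mul_sq (Finset.univ : Finset (𝒟 → Bool)) f g
  have hc : (0 : ℝ) ≤ ((Fintype.card (𝒟 → Bool) : ℝ)⁻¹) ^ 2 := by positivity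
  calc ((Fintype.card (𝒟 → Bool) : ℝ)⁻¹ * ∑ x, f x * g x) ^ 2
      = ((Fintype.card (𝒟 → Bool) : ℝ)⁻¹) ^ 2 * (∑ x, f x * g x) ^ 2 := by ring
    _ ≤ ((Fintype.card (𝒟 → Bool) : ℝ)⁻¹) ^ 2 * ((∑ x, f x ^ 2) * ∑ x, g x ^ 2) :=
        mul_le_mul_of_nonneg_left h hc
    _ = _ := by ring

/-- Jensen for the square -/
lemma sq_E_le (f : (𝒟 → Bool) → ℝ) : (E f) ^ 2 ≤ E (fun x => f x ^ 2) := by
  have := E_sq_le f (fun _ => 1)
  simpa [E_const] using this

/-- Cauchy-Schwarz in product form -/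
lemma E_mul_le_sqrt (f g : (𝒟 → Bool) → ℝ) :
    E (fun x => f x * g x) ≤ Real.sqrt (E (fun x => f x ^ 2)) * Real.sqrt (E (fun x => g x ^ 2)) := by
  rw [← Real.sqrt_mul (E_nonneg fun x => sq_nonneg _)]
  exact Real.le_sqrt_of_sq_le (E_sq_le f g)

lemma E_eq_zero_iff {f : (𝒟 → Bool) → ℝ} (h : ∀ x, 0 ≤ f x) : E f = 0 ↔ ∀ x, f x = 0 := by
  simp only [E, smul_eq_mul, mul_eq_zero, inv_eq_zero, card_ne', false_or]
  rw [Finset.sum_eq_zero_iff_of_nonneg fun x _ => h x]
  simp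

/-! ### mixing -/

lemma mix_mix (D D' : Finset 𝒟) (y' y x : 𝒟 → Bool) :
    mix D' y' (mix D y x) = mix (D ∪ D') (mix D' y' y) x := by
  funext e
  by_cases h : e ∈ D <;> by_cases h' : e ∈ D' <;> simp [mix, h, h']

lemma mix_empty (y x : 𝒟 → Bool) : mix ∅ y x = x := by funext e; simp [mix]

lemma mix_univ (y x : 𝒟 → Bool) : mix univ y x = y := by funext e; simp [mix]

lemma mix_self (D : Finset 𝒟) (x : 𝒟 → Bool) : mix D x x = x := by
  funext e; simp [mix]

/-- exchanging the digits in `D` of a pair -/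
def swapEquiv (D : Finset 𝒟) : ((𝒟 → Bool) × (𝒟 → Bool)) ≃ ((𝒟 → Bool) × (𝒟 → Bool)) where
  toFun p := (mix D p.1 p.2, mix D p.2 p.1)
  invFun p := (mix D p.1 p.2, mix D p.2 p.1)
  left_inv p := by
    ext e <;> by_cases h : e ∈ D <;> simp [mix, h]
  right_inv p := by
    ext e <;> by_cases h : e ∈ D <;> simp [mix, h]

lemma E_E_mix (D : Finset 𝒟) (F : (𝒟 → Bool) → V) :
    E (fun y' => E (fun y => F (mix D y' y))) = E F := by
  have key : ∑ y', ∑ y, F (mix D y' y) = ∑ y', ∑ _y : 𝒟 → Bool, F y' := by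
    rw [← Fintype.sum_prod_type' (fun y' y => F (mix D y' y)),
      ← Fintype.sum_prod_type' (fun (y' : 𝒟 → Bool) (_ : 𝒟 → Bool) => F y')]
    exact Fintype.sum_equiv (swapEquiv D) _ _ (fun p => rfl)
  have h : (Fintype.card (𝒟 → Bool) : ℝ) ≠ 0 := card_ne'
  have e1 : E (fun y' => E (fun y => F (mix D y' y)))
      = ((Fintype.card (𝒟 → Bool) : ℝ)⁻¹) • ((Fintype.card (𝒟 → Bool) : ℝ)⁻¹) •
        ∑ y', ∑ y, F (mix D y' y) := by
    simp only [E]; rw [← Finset.smul_sum]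
  rw [e1, key]
  simp only [Finset.sum_const, Finset.card_univ]
  rw [← Finset.smul_sum, ← Nat.cast_smul_eq_nsmul ℝ, smul_smul, smul_smul, E]
  congr 1
  field_simp

/-! ### averages -/

lemma Av_add (D : Finset 𝒟) (f g : (𝒟 → Bool) → V) :
    Av D (fun x => f x + g x) = fun x => Av D f x + Av D g x := by
  funext x; exact E_add _ _

lemma Av_sub (D : Finset 𝒟) (f g : (𝒟 → Bool) → V) :
    Av D (fun x => f x - g x) = fun x => Av D f x - Av D g x := by
  funext x; exact E_sub _ _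

lemma Av_neg (D : Finset 𝒟) (f : (𝒟 → Bool) → V) :
    Av D (fun x => - f x) = fun x => - Av D f x := by
  funext x; exact E_neg _

lemma Av_smul (D : Finset 𝒟) (c : ℝ) (f : (𝒟 → Bool) → V) :
    Av D (fun x => c • f x) = fun x => c • Av D f x := by
  funext x; exact E_smul _ _

lemma Av_mul_left (D : Finset 𝒟) (c : ℝ) (f : (𝒟 → Bool) → ℝ) :
    Av D (fun x => c * f x) = fun x => c * Av D f x := by
  funext x; exact E_mul_left _ _

lemma Av_const (D : Finset 𝒟) (c : V) :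
    Av D (fun _ => c) = fun _ : 𝒟 → Bool => c := by
  funext x; exact E_const _

lemma Av_zero (D : Finset 𝒟) :
    Av D (fun _ => (0 : V)) = fun _ : 𝒟 → Bool => (0 : V) := Av_const D 0

lemma Av_sum {ι : Type} (D : Finset 𝒟) (s : Finset ι) (f : ι → (𝒟 → Bool) → V) :
    Av D (fun x => ∑ i ∈ s, f i x) = fun x => ∑ i ∈ s, Av D (f i) x := by
  funext x; exact E_sum _ _

lemma Av_mono (D : Finset 𝒟) {f g : (𝒟 → Bool) → ℝ} (h : ∀ x, f x ≤ g x) (x : 𝒟 → Bool) :
    Av D f x ≤ Av D g x := E_mono fun _ => h _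

lemma Av_nonneg (D : Finset 𝒟) {f : (𝒟 → Bool) → ℝ} (h : ∀ x, 0 ≤ f x) (x : 𝒟 → Bool) :
    0 ≤ Av D f x := E_nonneg fun _ => h _

lemma abs_Av_le (D : Finset 𝒟) (f : (𝒟 → Bool) → ℝ) (x : 𝒟 → Bool) :
    |Av D f x| ≤ Av D (fun x => |f x|) x := abs_E_le _

lemma sq_Av_le (D : Finset 𝒟) (f : (𝒟 → Bool) → ℝ) (x : 𝒟 → Bool) :
    (Av D f x) ^ 2 ≤ Av D (fun x => f x ^ 2) x := sq_E_le _

lemma Av_empty (f : (𝒟 → Bool) → V) : Av ∅ f = f := by
  funext x
  simp only [Av, mix_empty]; exact E_const _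

lemma Av_Av (D D' : Finset 𝒟) (f : (𝒟 → Bool) → V) : Av D (Av D' f) = Av (D ∪ D') f := by
  funext x
  simp only [Av]
  calc E (fun y => E (fun y' => f (mix D' y' (mix D y x))))
      = E (fun y => E (fun y' => f (mix (D ∪ D') (mix D' y' y) x))) := by
        simp only [mix_mix]
    _ = E (fun y' => E (fun y => f (mix (D ∪ D') (mix D' y' y) x))) := E_comm _
    _ = E (fun y => f (mix (D ∪ D') y x)) := E_E_mix D' (fun z => f (mix (D ∪ D') z x))

lemma Av_univ (f : (𝒟 → Bool) → V) (x : 𝒟 → Bool) : Av univ f x = E f := by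
  simp only [Av, mix_univ]

lemma E_Av (D : Finset 𝒟) (f : (𝒟 → Bool) → V) : E (Av D f) = E f := by
  have x : 𝒟 → Bool := fun _ => true
  rw [← Av_univ (Av D f) x, Av_Av]
  have : (univ : Finset 𝒟) ∪ D = univ := by ext e; simp
  rw [this, Av_univ]

lemma Inv_Av (D : Finset 𝒟) (f : (𝒟 → Bool) → V) : Inv D (Av D f) := by
  intro x y h
  simp only [Av]
  congr 1; funext z; congr 1; funext e
  by_cases he : e ∈ D
  · simp [mix, he]
  · simp [mix, he, h e he]

lemma Inv.mono {D D' : Finset 𝒟} {f : (𝒟 → Bool) → V} (h : Inv D f) (hD : D' ⊆ D) : Inv D' f :=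
  fun x y hxy => h x y fun e he => hxy e fun h' => he (hD h')

lemma Inv.comp {W : Type} {D : Finset 𝒟} {f : (𝒟 → Bool) → V} (h : Inv D f) (g : V → W) :
    ∀ x y, (∀ e, e ∉ D → x e = y e) → g (f x) = g (f y) := fun x y hxy => by rw [h x y hxy]

lemma Inv.mix {D : Finset 𝒟} {f : (𝒟 → Bool) → V} (h : Inv D f) (x y : 𝒟 → Bool) :
    f (mix D y x) = f x := h _ _ fun e he => by simp [Cb.mix, he]

lemma Inv.mix_of_subset {D D' : Finset 𝒟} {f : (𝒟 → Bool) → V} (h : Inv D f) (hD : D' ⊆ D)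
    (x y : 𝒟 → Bool) : f (Cb.mix D' y x) = f x := (h.mono hD).mix x y

lemma Av_of_Inv {D : Finset 𝒟} {f : (𝒟 → Bool) → V} (h : Inv D f) : Av D f = f := by
  funext x
  simp only [Av, h.mix]
  exact E_const _

lemma Inv_iff {D : Finset 𝒟} {f : (𝒟 → Bool) → V} : Inv D f ↔ Av D f = f :=
  ⟨Av_of_Inv, fun h => h ▸ Inv_Av D f⟩

lemma Inv.add {D : Finset 𝒟} {f g : (𝒟 → Bool) → V} (hf : Inv D f) (hg : Inv D g) :
    Inv D (fun x => f x + g x) := fun x y h => by simp only [hf x y h, hg x y h]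

lemma Inv.sub {D : Finset 𝒟} {f g : (𝒟 → Bool) → V} (hf : Inv D f) (hg : Inv D g) :
    Inv D (fun x => f x - g x) := fun x y h => by simp only [hf x y h, hg x y h]

lemma Inv.mul {D : Finset 𝒟} {f g : (𝒟 → Bool) → ℝ} (hf : Inv D f) (hg : Inv D g) :
    Inv D (fun x => f x * g x) := fun x y h => by simp only [hf x y h, hg x y h]

lemma Inv.smul {D : Finset 𝒟} {f : (𝒟 → Bool) → ℝ} {g : (𝒟 → Bool) → V} (hf : Inv D f)
    (hg : Inv D g) : Inv D (fun x => f x • g x) := fun x y h => by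
  simp only [hf x y h, hg x y h]

lemma Inv_const (D : Finset 𝒟) (c : V) : Inv D (fun _ : 𝒟 → Bool => c) := fun _ _ _ => rfl

lemma Inv.sum {ι : Type} {D : Finset 𝒟} {s : Finset ι} {f : ι → (𝒟 → Bool) → V}
    (h : ∀ i ∈ s, Inv D (f i)) : Inv D (fun x => ∑ i ∈ s, f i x) := fun x y hxy =>
  Finset.sum_congr rfl fun i hi => h i hi x y hxy

lemma Inv.prod {ι : Type} {D : Finset 𝒟} {s : Finset ι} {f : ι → (𝒟 → Bool) → ℝ}
    (h : ∀ i ∈ s, Inv D (f i)) : Inv D (fun x => ∏ i ∈ s, f i x) := fun x y hxy =>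
  Finset.prod_congr rfl fun i hi => h i hi x y hxy

lemma Av_smul_of_Inv {D : Finset 𝒟} {g : (𝒟 → Bool) → ℝ} (hg : Inv D g)
    (f : (𝒟 → Bool) → V) : Av D (fun x => g x • f x) = fun x => g x • Av D f x := by
  funext x
  simp only [Av, hg.mix]
  exact E_smul _ _

lemma Av_mul_of_Inv {D : Finset 𝒟} {g : (𝒟 → Bool) → ℝ} (hg : Inv D g)
    (f : (𝒟 → Bool) → ℝ) : Av D (fun x => g x * f x) = fun x => g x * Av D f x := by
  simpa using Av_smul_of_Inv hg f

lemma Av_mul_of_Inv' {D : Finset 𝒟} {g : (𝒟 → Bool) → ℝ} (hg : Inv D g)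
    (f : (𝒟 → Bool) → ℝ) : Av D (fun x => f x * g x) = fun x => Av D f x * g x := by
  simp_rw [mul_comm _ (g _)]; exact Av_mul_of_Inv hg f

/-- self-adjointness -/
lemma E_mul_Av (D : Finset 𝒟) (f g : (𝒟 → Bool) → ℝ) :
    E (fun x => g x * Av D f x) = E (fun x => Av D g x * f x) := by
  have h1 : E (fun x => g x * Av D f x) = E (fun x => Av D g x * Av D f x) := by
    rw [← E_Av D (fun x => g x * Av D f x), Av_mul_of_Inv' (Inv_Av D f)]
  have h2 : E (fun x => Av D g x * f x) = E (fun x => Av D g x * Av D f x) := by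
    rw [← E_Av D (fun x => Av D g x * f x), Av_mul_of_Inv (Inv_Av D g)]
  rw [h1, h2]

lemma Av_comm (D D' : Finset 𝒟) (f : (𝒟 → Bool) → V) : Av D (Av D' f) = Av D' (Av D f) := by
  rw [Av_Av, Av_Av, Finset.union_comm]

lemma Inv_Av_of_Inv {D D' : Finset 𝒟} {f : (𝒟 → Bool) → V} (h : Inv D f) : Inv D (Av D' f) := by
  rw [Inv_iff, Av_comm, Av_of_Inv h]

lemma Inv.union {D D' : Finset 𝒟} {f : (𝒟 → Bool) → V} (h : Inv D f) (h' : Inv D' f) :
    Inv (D ∪ D') f := by
  rw [Inv_iff, ← Av_Av, Av_of_Inv h', Av_of_Inv h]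

lemma Inv_Av_union {D D' : Finset 𝒟} {f : (𝒟 → Bool) → V} (h : Inv D' f) :
    Inv (D ∪ D') (Av D f) := (Inv_Av D f).union (Inv_Av_of_Inv h)

/-! ### signs -/

lemma rad_sq (e : 𝒟) (x : 𝒟 → Bool) : rad e x * rad e x = 1 := by
  unfold rad; split_ifs <;> norm_num

lemma rad_sq' (e : 𝒟) (x : 𝒟 → Bool) : rad e x ^ 2 = 1 := by
  rw [pow_two, rad_sq]

lemma abs_rad (e : 𝒟) (x : 𝒟 → Bool) : |rad e x| = 1 := by
  unfold rad; split_ifs <;> norm_num

lemma Inv_rad {D : Finset 𝒟} {e : 𝒟} (h : e ∉ D) : Inv D (rad e) := by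
  intro x y hxy; simp [rad, hxy e h]

lemma E_rad_mul {e : 𝒟} {f : (𝒟 → Bool) → ℝ} (hf : Inv {e} f) :
    E (fun x => rad e x * f x) = 0 := by
  let fl : (𝒟 → Bool) ≃ (𝒟 → Bool) :=
    { toFun := fun x => Function.update x e (!(x e))
      invFun := fun x => Function.update x e (!(x e))
      left_inv := by intro x; funext e'; by_cases h : e' = e <;> simp [h]
      right_inv := by intro x; funext e'; by_cases h : e' = e <;> simp [h] }
  have h : ∑ x, rad e x * f x = ∑ x, -(rad e x * f x) := by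
    apply Fintype.sum_equiv fl
    intro x
    have h1 : f (fl x) = f x := hf _ _ fun e' he' => by
      have : e' ≠ e := by simpa using he'
      simp [fl, Function.update_of_ne this]
    have h2 : rad e (fl x) = - rad e x := by
      simp only [rad, fl, Equiv.coe_fn_mk, Function.update_self]
      cases x e <;> simp
    rw [h1, h2]; ring
  have h0 : ∑ x, rad e x * f x = 0 := by
    rw [Finset.sum_neg_distrib] at h; linarith
  simp [E, h0]

lemma Av_rad_mul {D : Finset 𝒟} {e : 𝒟} (he : e ∈ D) {f : (𝒟 → Bool) → ℝ} (hf : Inv {e} f) :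
    Av D (fun x => rad e x * f x) = fun _ => 0 := by
  funext x
  have : Av D (fun x => rad e x * f x) x = E (fun y => rad e y * f (mix D y x)) := by
    simp only [Av]; congr 1; funext y; simp [rad, mix, he]
  rw [this]
  apply E_rad_mul
  intro y z hyz
  apply hf
  intro e' he'
  have : y e' = z e' := hyz e' he'
  simp only [mix, this]


/-! ### vector valued functions -/

section normed
variable {Y : Type*} [NormedAddCommGroup Y] [NormedSpace ℝ Y]

lemma E_rad_smul {e : 𝒟} {f : (𝒟 → Bool) → V} (hf : Inv {e} f) :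
    E (fun x => rad e x • f x) = 0 := by
  let fl : (𝒟 → Bool) ≃ (𝒟 → Bool) :=
    { toFun := fun x => Function.update x e (!(x e))
      invFun := fun x => Function.update x e (!(x e))
      left_inv := by intro x; funext e'; by_cases h : e' = e <;> simp [h]
      right_inv := by intro x; funext e'; by_cases h : e' = e <;> simp [h] }
  have h : ∑ x, rad e x • f x = ∑ x, -(rad e x • f x) := by
    apply Fintype.sum_equiv fl
    intro x
    have h1 : f (fl x) = f x := hf _ _ fun e' he' => by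
      have : e' ≠ e := by simpa using he'
      simp [fl, Function.update_of_ne this]
    have h2 : rad e (fl x) = - rad e x := by
      simp only [rad, fl, Equiv.coe_fn_mk, Function.update_self]
      cases x e <;> simp
    rw [h1, h2, neg_smul, neg_neg]
  have h0 : ∑ x, rad e x • f x = 0 := by
    rw [Finset.sum_neg_distrib] at h
    have h2 : (2 : ℝ) • (∑ x, rad e x • f x) = 0 := by
      rw [two_smul]
      nth_rewrite 1 [h]
      exact neg_add_cancel _
    exact (smul_eq_zero.mp h2).resolve_left (by norm_num)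
  simp [E, h0]

lemma Av_rad_smul {D : Finset 𝒟} {e : 𝒟} (he : e ∈ D) {f : (𝒟 → Bool) → V} (hf : Inv {e} f) :
    Av D (fun x => rad e x • f x) = fun _ => 0 := by
  funext x
  have : Av D (fun x => rad e x • f x) x = E (fun y => rad e y • f (mix D y x)) := by
    simp only [Av]; congr 1; funext y; simp [rad, mix, he]
  rw [this]
  apply E_rad_smul
  intro y z hyz
  apply hf
  intro e' he'
  have : y e' = z e' := hyz e' he'
  simp only [mix, this]

lemma norm_E_le (f : (𝒟 → Bool) → Y) : ‖E f‖ ≤ E (fun x => ‖f x‖) := by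
  simp only [E, smul_eq_mul]
  rw [norm_smul, norm_inv, Real.norm_of_nonneg card_pos'.le]
  exact mul_le_mul_of_nonneg_left (norm_sum_le _ _) (inv_nonneg.2 card_pos'.le)

lemma E_norm_Av_sq_le (D : Finset 𝒟) (f : (𝒟 → Bool) → Y) :
    E (fun x => ‖Av D f x‖ ^ 2) ≤ E (fun x => ‖f x‖ ^ 2) := by
  rw [← E_Av D (fun x => ‖f x‖ ^ 2)]
  apply E_mono
  intro x
  have h1 : ‖Av D f x‖ ≤ Av D (fun x => ‖f x‖) x := norm_E_le _
  exact (pow_le_pow_left₀ (norm_nonneg _) h1 2).trans (sq_Av_le D _ x)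

lemma sum_eq_card_E (f : (𝒟 → Bool) → ℝ) :
    ∑ x, f x = (Fintype.card (𝒟 → Bool) : ℝ) * E f := by
  simp only [E, smul_eq_mul]
  rw [← mul_assoc, mul_inv_cancel₀ card_ne', one_mul]

lemma sum_norm_Av_sq_le (D : Finset 𝒟) (f : (𝒟 → Bool) → Y) :
    ∑ x, ‖Av D f x‖ ^ 2 ≤ ∑ x, ‖f x‖ ^ 2 := by
  rw [sum_eq_card_E, sum_eq_card_E]
  exact mul_le_mul_of_nonneg_left (E_norm_Av_sq_le D f) card_pos'.le

end normed

lemma E_map {W : Type*} [AddCommGroup W] [Module ℝ W] (S : V →ₗ[ℝ] W) (f : (𝒟 → Bool) → V) :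
    E (fun x => S (f x)) = S (E f) := by
  simp only [E]
  rw [map_smul, map_sum]

lemma Av_map {W : Type*} [AddCommGroup W] [Module ℝ W] (S : V →ₗ[ℝ] W) (D : Finset 𝒟)
    (f : (𝒟 → Bool) → V) : Av D (fun x => S (f x)) = fun x => S (Av D f x) := by
  funext x
  exact E_map S _

end Pool.Agent.RSec.Cb

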