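import Pool.Agent.RSec.Hilb

/-!
`ℓ²(ℕ; Y)` as a type of its own (to keep statements short).
-/

set_option autoImplicit false

namespace Pool.Agent.RSec

universe u

/-- the space `ℓ²(ℕ; Y)` of square summable sequences in `Y` (Mathlib's `lp`) -/
def EllTwo (Y : Type u) [NormedAddCommGroup Y] : Type u := lp (fun _ : ℕ => Y) 2

noncomputable instance EllTwo.group (Y : Type u) [NormedAddCommGroup Y] :
    NormedAddCommGroup (EllTwo Y) := lp.normedAddCommGroup

noncomputable instance EllTwo.space (Y : Type u) [NormedAddCommGroup Y] [NormedSpace ℂ Y] :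
    NormedSpace ℂ (EllTwo Y) := inferInstanceAs (NormedSpace ℂ (lp (fun _ : ℕ => Y) 2))

/-- `ℓ²(ℕ; Y)` is isomorphic to a complemented subspace of `X` -/
def Complemented (X Y : Type u) [NormedAddCommGroup X] [NormedSpace ℂ X]
    [NormedAddCommGroup Y] [NormedSpace ℂ Y] : Prop :=
  ∃ (J : EllTwo Y →L[ℂ] X) (P : X →L[ℂ] EllTwo Y), ∀ z, P (J z) = z

theorem isoHilbert_EllTwo (X Y : Type u) [NormedAddCommGroup X] [NormedSpace ℂ X]
    [CompleteSpace X] [NormedAddCommGroup Y] [NormedSpace ℂ Y] [CompleteSpace Y]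
    (h : Complemented X Y) (hH : PropertyH X) : IsoHilbert (EllTwo Y) := by
  obtain ⟨J, P, hPJ⟩ := h
  exact isoHilbert_L2 (isoHilbert_of_complemented (Y := Y) J P hPJ hH)

end Pool.Agent.RSec
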