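import Pool.Agent.RSec.Types

/-!
Gaussian averages: type 2 and cotype 2 compare `∑ ‖y_j‖²` for families with the same covariance.
-/

set_option autoImplicit false
set_option linter.unusedSectionVars false

open Finset MeasureTheory ProbabilityTheory

namespace Pool.Agent.RSec

universe u

variable {Y : Type u} [NormedAddCommGroup Y] [NormedSpace ℂ Y]

/-- the linear map `g ↦ ∑ g_j y_j` -/
noncomputable def gmap {F : Type u} [NormedAddCommGroup F] [NormedSpace ℝ F] {n : ℕ}
    (y : Fin n → F) : EuclideanSpace ℝ (Fin n) →L[ℝ] F :=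
  ∑ j, (EuclideanSpace.proj j : EuclideanSpace ℝ (Fin n) →L[ℝ] ℝ).smulRight (y j)

theorem gmap_apply {F : Type u} [NormedAddCommGroup F] [NormedSpace ℝ F] {n : ℕ}
    (y : Fin n → F) (g : EuclideanSpace ℝ (Fin n)) : gmap y g = ∑ j, g j • y j := by
  unfold gmap
  rw [_root_.sum_apply]
  rfl

/-- sign changes -/
noncomputable def flip {n : ℕ} (e : Fin n → Bool) :
    EuclideanSpace ℝ (Fin n) ≃ₗᵢ[ℝ] EuclideanSpace ℝ (Fin n) :=
  LinearIsometryEquiv.piLpCongrRight 2
    (fun j => if e j then LinearIsometryEquiv.refl ℝ ℝ else LinearIsometryEquiv.neg ℝ)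

theorem flip_apply {n : ℕ} (e : Fin n → Bool) (g : EuclideanSpace ℝ (Fin n)) (j : Fin n) :
    flip e g j = sg (e j) * g j := by
  unfold flip
  rw [LinearIsometryEquiv.piLpCongrRight_apply]
  simp only [sg]
  split_ifs <;> simp

variable {n : ℕ}

theorem integrable_sq_norm :
    Integrable (fun g : EuclideanSpace ℝ (Fin n) => ‖g‖ ^ 2)
      (stdGaussian (EuclideanSpace ℝ (Fin n))) := by
  have h := (IsGaussian.memLp_two_id (μ := stdGaussian (EuclideanSpace ℝ (Fin n))))
  exact h.integrable_norm_pow (by norm_num)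

theorem integrable_sq_gmap {F : Type u} [NormedAddCommGroup F] [NormedSpace ℝ F]
    (y : Fin n → F) :
    Integrable (fun g : EuclideanSpace ℝ (Fin n) => ‖gmap y g‖ ^ 2)
      (stdGaussian (EuclideanSpace ℝ (Fin n))) := by
  refine (integrable_sq_norm.const_mul (‖gmap y‖ ^ 2)).mono' ?_ ?_
  · exact ((gmap y).continuous.norm.pow 2).aestronglyMeasurable
  · refine Filter.Eventually.of_forall (fun g => ?_)
    rw [Real.norm_eq_abs, abs_of_nonneg (sq_nonneg _), ← mul_pow]
    exact pow_le_pow_left₀ (norm_nonneg _) ((gmap y).le_opNorm g) 2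

theorem integral_coord_sq (j : Fin n) :
    ∫ g : EuclideanSpace ℝ (Fin n), g j ^ 2 ∂(stdGaussian (EuclideanSpace ℝ (Fin n))) = 1 := by
  set L : StrongDual ℝ (EuclideanSpace ℝ (Fin n)) := EuclideanSpace.proj j with hL
  have h1 := variance_dual_stdGaussian L
  have h2 := integral_strongDual_stdGaussian L
  rw [variance_of_integral_eq_zero L.continuous.aemeasurable h2] at h1
  have h3 : ‖L‖ ^ 2 = 1 := by
    rw [(EuclideanSpace.basisFun (Fin n) ℝ).norm_dual L]
    rw [Finset.sum_eq_single j]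
    · simp [hL]
    · intro i _ hi
      simp [hL, hi]
    · intro h; exact absurd (mem_univ j) h
  rw [h3] at h1
  exact h1

/-- symmetrisation -/
theorem integral_flip (y : Fin n → Y) :
    ∫ g : EuclideanSpace ℝ (Fin n), ‖gmap y g‖ ^ 2 ∂(stdGaussian (EuclideanSpace ℝ (Fin n))) =
      ∫ g : EuclideanSpace ℝ (Fin n), radSq (fun j => g j • y j)
        ∂(stdGaussian (EuclideanSpace ℝ (Fin n))) := by
  set γ := stdGaussian (EuclideanSpace ℝ (Fin n)) with hγ
  have h1 : ∀ e : Fin n → Bool, ∫ g, ‖gmap y (flip e g)‖ ^ 2 ∂γ = ∫ g, ‖gmap y g‖ ^ 2 ∂γ := by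
    intro e
    have h2 := stdGaussian_map (flip e)
    have h3 := integral_map (μ := γ) (φ := flip e) (f := fun g => ‖gmap y g‖ ^ 2)
      (flip e).continuous.aemeasurable
      ((gmap y).continuous.norm.pow 2).aestronglyMeasurable
    rw [h2] at h3
    exact h3.symm
  have h4 : ∀ g : EuclideanSpace ℝ (Fin n), radSq (fun j => g j • y j) =
      (∑ e : Fin n → Bool, ‖gmap y (flip e g)‖ ^ 2) / 2 ^ n := by
    intro g
    unfold radSq
    congr 1
    apply sum_congr rfl
    intro e _
    rw [gmap_apply]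
    congr 2
    apply sum_congr rfl
    intro j _
    rw [flip_apply, smul_smul]
  simp_rw [h4]
  rw [integral_div, integral_finsetSum]
  · rw [sum_congr rfl (fun e _ => h1 e), sum_const, card_univ, Fintype.card_fun,
      Fintype.card_fin, Fintype.card_bool]
    simp
  · intro e _
    have h5 := integrable_sq_gmap y
    have h6 : MeasurePreserving (flip e) γ γ :=
      ⟨(flip e).continuous.measurable, stdGaussian_map (flip e)⟩
    exact h6.integrable_comp_of_integrable h5

theorem integrable_coord_sq (j : Fin n) :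
    Integrable (fun g : EuclideanSpace ℝ (Fin n) => g j ^ 2)
      (stdGaussian (EuclideanSpace ℝ (Fin n))) := by
  by_contra h
  have h1 := integral_coord_sq j
  rw [integral_undef h] at h1
  norm_num at h1

theorem integral_sum_coord (y : Fin n → Y) :
    ∫ g : EuclideanSpace ℝ (Fin n), ∑ j, ‖g j • y j‖ ^ 2
      ∂(stdGaussian (EuclideanSpace ℝ (Fin n))) = ∑ j, ‖y j‖ ^ 2 := by
  have h1 : ∀ g : EuclideanSpace ℝ (Fin n), ∑ j, ‖g j • y j‖ ^ 2 =
      ∑ j, g j ^ 2 * ‖y j‖ ^ 2 := by
    intro g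
    apply sum_congr rfl
    intro j _
    rw [norm_smul, mul_pow, Real.norm_eq_abs, sq_abs]
  simp_rw [h1]
  rw [integral_finsetSum]
  · apply sum_congr rfl
    intro j _
    rw [integral_mul_const, integral_coord_sq, one_mul]
  · intro j _
    exact (integrable_coord_sq j).mul_const _

theorem integrable_sum_coord (y : Fin n → Y) :
    Integrable (fun g : EuclideanSpace ℝ (Fin n) => ∑ j, ‖g j • y j‖ ^ 2)
      (stdGaussian (EuclideanSpace ℝ (Fin n))) := by
  have h1 : (fun g : EuclideanSpace ℝ (Fin n) => ∑ j, ‖g j • y j‖ ^ 2) =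
      fun g => ∑ j, g j ^ 2 * ‖y j‖ ^ 2 := by
    funext g
    apply sum_congr rfl
    intro j _
    rw [norm_smul, mul_pow, Real.norm_eq_abs, sq_abs]
  rw [h1]
  exact integrable_finsetSum _ (fun j _ => (integrable_coord_sq j).mul_const _)

theorem integrable_radSq (y : Fin n → Y) :
    Integrable (fun g : EuclideanSpace ℝ (Fin n) => radSq (fun j => g j • y j))
      (stdGaussian (EuclideanSpace ℝ (Fin n))) := by
  have h4 : (fun g : EuclideanSpace ℝ (Fin n) => radSq (fun j => g j • y j)) =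
      fun g => (∑ e : Fin n → Bool, ‖gmap y (flip e g)‖ ^ 2) / 2 ^ n := by
    funext g
    unfold radSq
    congr 1
    apply sum_congr rfl
    intro e _
    rw [gmap_apply]
    congr 2
    apply sum_congr rfl
    intro j _
    rw [flip_apply, smul_smul]
  rw [h4]
  apply Integrable.div_const
  apply integrable_finsetSum
  intro e _
  have h5 := integrable_sq_gmap y
  have h6 : MeasurePreserving (flip e) (stdGaussian (EuclideanSpace ℝ (Fin n)))
      (stdGaussian (EuclideanSpace ℝ (Fin n))) :=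
    ⟨(flip e).continuous.measurable, stdGaussian_map (flip e)⟩
  exact h6.integrable_comp_of_integrable h5

/-- Gaussian type 2 and cotype 2 -/
theorem gauss_type_cotype {C : ℝ}
    (h : ∀ (N : ℕ) (z : Fin N → Y), radSq z ≤ C * ∑ j, ‖z j‖ ^ 2 ∧
      ∑ j, ‖z j‖ ^ 2 ≤ C * radSq z) (y : Fin n → Y) :
    ∫ g : EuclideanSpace ℝ (Fin n), ‖gmap y g‖ ^ 2 ∂(stdGaussian (EuclideanSpace ℝ (Fin n))) ≤
        C * ∑ j, ‖y j‖ ^ 2 ∧
      ∑ j, ‖y j‖ ^ 2 ≤ C * ∫ g : EuclideanSpace ℝ (Fin n), ‖gmap y g‖ ^ 2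
        ∂(stdGaussian (EuclideanSpace ℝ (Fin n))) := by
  rw [integral_flip]
  constructor
  · rw [← integral_sum_coord y, ← integral_const_mul]
    apply integral_mono (integrable_radSq y) ((integrable_sum_coord y).const_mul C)
    intro g
    exact (h n _).1
  · rw [← integral_sum_coord y, ← integral_const_mul]
    apply integral_mono (integrable_sum_coord y) ((integrable_radSq y).const_mul C)
    intro g
    exact (h n _).2

/-- the law of a Gaussian sum depends only on the covariance -/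
theorem law_eq {F : Type u} [NormedAddCommGroup F] [NormedSpace ℝ F] [FiniteDimensional ℝ F]
    {n m : ℕ} (y : Fin n → F) (x : Fin m → F)
    (h : ∀ L : StrongDual ℝ F, ∑ j, L (y j) ^ 2 = ∑ i, L (x i) ^ 2) :
    ∫ g : EuclideanSpace ℝ (Fin n), ‖gmap y g‖ ^ 2 ∂(stdGaussian (EuclideanSpace ℝ (Fin n))) =
      ∫ g : EuclideanSpace ℝ (Fin m), ‖gmap x g‖ ^ 2
        ∂(stdGaussian (EuclideanSpace ℝ (Fin m))) := by
  borelize F
  have : CompleteSpace F := FiniteDimensional.complete ℝ F
  have key : ∀ {k : ℕ} (v : Fin k → F) (L : StrongDual ℝ F),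
      charFunDual ((stdGaussian (EuclideanSpace ℝ (Fin k))).map (gmap v)) L =
        Complex.exp (-((∑ j, L (v j) ^ 2 : ℝ) : ℂ) / 2) := by
    intro k v L
    rw [charFunDual_map, charFunDual_stdGaussian]
    congr 2
    rw [← Complex.ofReal_pow, (EuclideanSpace.basisFun (Fin k) ℝ).norm_dual]
    congr 2
    apply sum_congr rfl
    intro j _
    congr 1
    rw [ContinuousLinearMap.comp_apply, gmap_apply]
    congr 1
    rw [sum_eq_single j]
    · simp
    · intro i _ hi
      simp [hi]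
    · intro h; exact absurd (mem_univ j) h
  have hmap : (stdGaussian (EuclideanSpace ℝ (Fin n))).map (gmap y) =
      (stdGaussian (EuclideanSpace ℝ (Fin m))).map (gmap x) := by
    have i1 : IsFiniteMeasure ((stdGaussian (EuclideanSpace ℝ (Fin n))).map (gmap y)) :=
      Measure.isFiniteMeasure_map _ _
    have i2 : IsFiniteMeasure ((stdGaussian (EuclideanSpace ℝ (Fin m))).map (gmap x)) :=
      Measure.isFiniteMeasure_map _ _
    apply Measure.ext_of_charFunDual
    funext L
    rw [key, key, h L]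
  have h1 := integral_map (μ := stdGaussian (EuclideanSpace ℝ (Fin n))) (φ := gmap y)
    (f := fun v : F => ‖v‖ ^ 2) (gmap y).continuous.aemeasurable
    (continuous_norm.pow 2).aestronglyMeasurable
  have h2 := integral_map (μ := stdGaussian (EuclideanSpace ℝ (Fin m))) (φ := gmap x)
    (f := fun v : F => ‖v‖ ^ 2) (gmap x).continuous.aemeasurable
    (continuous_norm.pow 2).aestronglyMeasurable
  rw [← h1, ← h2, hmap]

/-- **Comparison of families with the same covariance.** -/
theorem compare {C : ℝ} (hC : 0 ≤ C)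
    (h : ∀ (N : ℕ) (z : Fin N → Y), radSq z ≤ C * ∑ j, ‖z j‖ ^ 2 ∧
      ∑ j, ‖z j‖ ^ 2 ≤ C * radSq z) {n m : ℕ} (y : Fin n → Y) (x : Fin m → Y)
    (hxy : ∀ L : StrongDual ℝ Y, ∑ j, L (y j) ^ 2 = ∑ i, L (x i) ^ 2) :
    ∑ i, ‖x i‖ ^ 2 ≤ C ^ 2 * ∑ j, ‖y j‖ ^ 2 := by
  set F : Submodule ℝ Y := Submodule.span ℝ (Set.range y ∪ Set.range x) with hF
  have hfin : FiniteDimensional ℝ F :=
    FiniteDimensional.span_of_finite ℝ ((Set.finite_range y).union (Set.finite_range x))
  have hy : ∀ j, y j ∈ F := fun j => Submodule.subset_span (Or.inl ⟨j, rfl⟩)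
  have hx : ∀ i, x i ∈ F := fun i => Submodule.subset_span (Or.inr ⟨i, rfl⟩)
  set y' : Fin n → F := fun j => ⟨y j, hy j⟩ with hy'
  set x' : Fin m → F := fun i => ⟨x i, hx i⟩ with hx'
  have hlaw := law_eq y' x' (by
    intro L
    obtain ⟨L', hL', _⟩ := exists_extension_norm_eq F L
    have h1 := hxy L'
    have h2 : ∀ j, L' (y j) = L (y' j) := fun j => hL' (y' j)
    have h3 : ∀ i, L' (x i) = L (x' i) := fun i => hL' (x' i)
    simp_rw [h2, h3] at h1
    exact h1)
  have hn : ∀ {k : ℕ} (v : Fin k → Y) (v' : Fin k → F), (∀ j, (v' j : Y) = v j) →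
      ∀ g, ‖gmap v' g‖ = ‖gmap v g‖ := by
    intro k v v' hv g
    rw [gmap_apply, gmap_apply]
    have : ((∑ j, g j • v' j : F) : Y) = ∑ j, g j • v j := by
      rw [AddSubmonoidClass.coe_finsetSum]
      apply sum_congr rfl
      intro j _
      rw [Submodule.coe_smul, hv]
    rw [← this]
    rfl
  simp_rw [hn y y' (fun _ => rfl), hn x x' (fun _ => rfl)] at hlaw
  have h1 := (gauss_type_cotype h y).1
  have h2 := (gauss_type_cotype h x).2
  calc ∑ i, ‖x i‖ ^ 2 ≤ C * _ := h2
    _ = C * _ := by rw [← hlaw]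
    _ ≤ C * (C * ∑ j, ‖y j‖ ^ 2) := mul_le_mul_of_nonneg_left h1 hC
    _ = C ^ 2 * ∑ j, ‖y j‖ ^ 2 := by ring

end Pool.Agent.RSec
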