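import Pool.Agent.RSec.Abstract

/-!
The sectorial operator of a Schauder decomposition with nilpotent blocks, and the consequence of
R-sectoriality.
-/

set_option autoImplicit false

open Filter Topology Set

namespace Pool.Agent.RSec

universe u

variable {X : Type u} [NormedAddCommGroup X] [NormedSpace ℂ X]

section rad

theorem radSq_nonneg {n : ℕ} (x : Fin n → X) : 0 ≤ radSq x := by
  unfold radSq
  positivity

theorem radSq_add_le {n : ℕ} (x y : Fin n → X) :
    radSq (fun k => x k + y k) ≤ 2 * radSq x + 2 * radSq y := by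
  unfold radSq
  rw [← mul_div_assoc, ← mul_div_assoc, ← add_div]
  apply div_le_div_of_nonneg_right _ (by positivity)
  rw [Finset.mul_sum, Finset.mul_sum, ← Finset.sum_add_distrib]
  apply Finset.sum_le_sum
  intro e _
  have h1 : ∑ k, sg (e k) • (x k + y k) = ∑ k, sg (e k) • x k + ∑ k, sg (e k) • y k := by
    rw [← Finset.sum_add_distrib]
    apply Finset.sum_congr rfl
    intro k _
    rw [smul_add]
  rw [h1]
  have h2 := norm_add_le (∑ k, sg (e k) • x k) (∑ k, sg (e k) • y k)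
  have h3 := norm_nonneg (∑ k, sg (e k) • x k + ∑ k, sg (e k) • y k)
  nlinarith [sq_nonneg (‖∑ k, sg (e k) • x k‖ - ‖∑ k, sg (e k) • y k‖)]

theorem radSq_smul {n : ℕ} (c : ℂ) (x : Fin n → X) :
    radSq (fun k => c • x k) = ‖c‖ ^ 2 * radSq x := by
  unfold radSq
  rw [← mul_div_assoc, Finset.mul_sum]
  congr 1
  apply Finset.sum_congr rfl
  intro e _
  have h1 : ∑ k, sg (e k) • (c • x k) = c • ∑ k, sg (e k) • x k := by
    rw [Finset.smul_sum]
    apply Finset.sum_congr rfl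
    intro k _
    rw [smul_comm]
  rw [h1, norm_smul, mul_pow]

theorem radSq_map_le {Y : Type u} [NormedAddCommGroup Y] [NormedSpace ℂ Y] {n : ℕ}
    (P : X →L[ℂ] Y) (x : Fin n → X) :
    radSq (fun k => P (x k)) ≤ ‖P‖ ^ 2 * radSq x := by
  unfold radSq
  rw [← mul_div_assoc, Finset.mul_sum]
  apply div_le_div_of_nonneg_right _ (by positivity)
  apply Finset.sum_le_sum
  intro e _
  have h1 : ∑ k, sg (e k) • P (x k) = P (∑ k, sg (e k) • x k) := by
    rw [map_sum]
    apply Finset.sum_congr rfl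
    intro k _
    exact (P.map_smul_of_tower (sg (e k)) (x k)).symm
  rw [h1, ← mul_pow]
  exact pow_le_pow_left₀ (norm_nonneg _) (P.le_opNorm _) 2

theorem RBounded.sq {T : Set (X →L[ℂ] X)} (h : RBounded T) :
    ∃ C : ℝ, 0 ≤ C ∧ ∀ (n : ℕ) (t : Fin n → (X →L[ℂ] X)), (∀ k, t k ∈ T) → ∀ x : Fin n → X,
      radSq (fun k => t k (x k)) ≤ C * radSq x := by
  obtain ⟨C, hC⟩ := h
  refine ⟨C ^ 2, sq_nonneg _, ?_⟩
  intro n t ht x
  have h1 := hC n t ht x
  unfold radNorm at h1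
  have h2 : 0 ≤ Real.sqrt (radSq fun k => t k (x k)) := Real.sqrt_nonneg _
  calc radSq (fun k => t k (x k)) = Real.sqrt (radSq fun k => t k (x k)) ^ 2 :=
        (Real.sq_sqrt (radSq_nonneg _)).symm
    _ ≤ (C * Real.sqrt (radSq x)) ^ 2 := pow_le_pow_left₀ h2 h1 2
    _ = C ^ 2 * radSq x := by rw [mul_pow, Real.sq_sqrt (radSq_nonneg _)]

end rad

namespace Sch

variable {K : ℝ} (S : Sch X K)

section op
variable [CompleteSpace X]

theorem B_Pc {m : ℕ} {x : X} (hx : S.Pc m x) : S.Pc m (S.B x) := by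
  rw [S.B_apply hx, sub_eq_add_neg, ← neg_smul]
  exact (hx.smul _).add ((S.Pc_U m x).smul _)

theorem B_comm (k : ℕ) (x : X) : S.E k (S.B x) = S.B (S.E k x) := by
  have h : (S.E k).comp S.B = S.B.comp (S.E k) := by
    apply S.ext_of_Pc
    intro m x hx
    simp only [ContinuousLinearMap.comp_apply]
    rw [S.B_Pc hx k, hx k]
    split_ifs
    · rfl
    · rw [map_zero]
  exact DFunLike.congr_fun h x

omit [CompleteSpace X] in
theorem one_sub_U {m : ℕ} {x : X} (h : x - S.U m x = 0) : x = 0 := by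
  have h1 : x = S.U m x := sub_eq_zero.mp h
  rw [h1, h1, S.UU]

theorem B_inj : Function.Injective S.B := by
  rw [injective_iff_map_eq_zero]
  intro x hx
  have hpc : ∀ m y, S.Pc m y → S.B y = 0 → y = 0 := by
    intro m y hy h0
    rw [S.B_apply hy, ← smul_sub] at h0
    have h1 : ((2:ℂ) ^ m)⁻¹ ≠ 0 := inv_ne_zero (pow_ne_zero m two_ne_zero)
    have h2 := (smul_eq_zero.mp h0).resolve_left h1
    exact S.one_sub_U h2
  have h1 : ∀ k, S.B (S.E k x) = 0 := by
    intro k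
    rw [← S.B_comm, hx, map_zero]
  have h2 : ∀ k, S.E k x = 0 := by
    intro k
    induction k with
    | zero => exact hpc 0 _ (S.Pc_zero x) (h1 0)
    | succ k ih =>
      have h3 := hpc (k + 1) _ (S.Pc_diff k x) (by rw [map_sub, h1, h1, sub_zero])
      rw [ih, sub_zero] at h3
      exact h3
  have h3 := S.lim x
  simp_rw [h2] at h3
  exact (tendsto_nhds_unique h3 tendsto_const_nhds)

theorem B_surj_Pc {m : ℕ} {x : X} (hx : S.Pc m x) :
    S.B (((2:ℂ) ^ m) • (x + S.U m x)) = x := by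
  have h1 : ((2:ℂ) ^ m) ≠ 0 := pow_ne_zero m two_ne_zero
  rw [map_smul, S.B_apply (hx.add (S.Pc_U m x)), map_add, S.UU, add_zero, smul_sub, smul_smul,
    smul_smul, mul_inv_cancel₀ h1, one_smul, one_smul, add_sub_cancel_right]

theorem B_dense : Dense (LinearMap.range (S.B : X →ₗ[ℂ] X) : Set X) := by
  intro x
  have h1 : ∀ n, S.E n x ∈ LinearMap.range (S.B : X →ₗ[ℂ] X) := by
    intro n
    induction n with
    | zero => exact ⟨_, S.B_surj_Pc (S.Pc_zero x)⟩
    | succ n ih =>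
      have h2 : S.E (n + 1) x - S.E n x ∈ LinearMap.range (S.B : X →ₗ[ℂ] X) :=
        ⟨_, S.B_surj_Pc (S.Pc_diff n x)⟩
      have h3 := add_mem h2 ih
      rwa [sub_add_cancel] at h3
  exact mem_closure_of_tendsto (S.lim x) (Eventually.of_forall h1)

/-- the unbounded operator -/
noncomputable def A : X →ₗ.[ℂ] X where
  domain := LinearMap.range (S.B : X →ₗ[ℂ] X)
  toFun := (LinearEquiv.ofInjective (S.B : X →ₗ[ℂ] X) S.B_inj).symm.toLinearMap

theorem A_B (x : X) (h : S.B x ∈ S.A.domain) : S.A ⟨S.B x, h⟩ = x := by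
  have h1 : (⟨S.B x, h⟩ : S.A.domain) = LinearEquiv.ofInjective (S.B : X →ₗ[ℂ] X) S.B_inj x := by
    apply Subtype.ext
    rfl
  rw [h1]
  exact (LinearEquiv.ofInjective (S.B : X →ₗ[ℂ] X) S.B_inj).symm_apply_apply x

theorem B_mem (x : X) : S.B x ∈ S.A.domain := ⟨x, rfl⟩

theorem mem_graph (p : X × X) : p ∈ S.A.graph ↔ S.B p.2 = p.1 := by
  rw [LinearPMap.mem_graph_iff]
  constructor
  · rintro ⟨⟨y, hy⟩, h1, h2⟩
    obtain ⟨z, hz⟩ := hy
    have hz' : S.B z = y := hz
    subst hz'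
    rw [S.A_B] at h2
    simp only at h1
    rw [← h2, h1]
  · intro h
    refine ⟨⟨S.B p.2, S.B_mem _⟩, h, S.A_B _ _⟩

theorem A_closed : S.A.IsClosed := by
  have h : (S.A.graph : Set (X × X)) = {p | S.B p.2 = p.1} := by
    ext p
    exact S.mem_graph p
  unfold LinearPMap.IsClosed
  rw [h]
  exact isClosed_eq (S.B.continuous.comp continuous_snd) continuous_fst

/-- first resolvent identity -/
theorem res1 {κ : ℝ} (hκ : 0 < κ) {l : ℂ} (hl0 : l ≠ 0)
    (hl : ∀ c : ℝ, 0 ≤ c → κ * (‖l‖ + c) ≤ ‖l - (c : ℂ)‖) (x : X) :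
    l • S.B (S.Res l x) - S.Res l x = S.B x := by
  have h : l • (S.B.comp (S.Res l)) - S.Res l = S.B := by
    apply S.ext_of_Pc
    intro m x hx
    have h3 := (ra_rg_bound hκ hl0 hl m).2.2
    have h2 : ((2:ℂ) ^ m) ≠ 0 := pow_ne_zero m two_ne_zero
    simp only [_root_.sub_apply, _root_.smul_apply, ContinuousLinearMap.comp_apply]
    rw [S.Res_apply hκ hl0 hl hx, map_add, map_smul, map_smul, S.B_apply hx,
      S.B_apply (S.Pc_U m x), S.UU]
    generalize S.U m x = u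
    match_scalars
    · field_simp
    · field_simp
      ring
  exact DFunLike.congr_fun h x

/-- second resolvent identity -/
theorem res2 {κ : ℝ} (hκ : 0 < κ) {l : ℂ} (hl0 : l ≠ 0)
    (hl : ∀ c : ℝ, 0 ≤ c → κ * (‖l‖ + c) ≤ ‖l - (c : ℂ)‖) (x : X) :
    l • S.Res l (S.B x) - S.Res l x = S.B x := by
  have h : l • ((S.Res l).comp S.B) - S.Res l = S.B := by
    apply S.ext_of_Pc
    intro m x hx
    have h3 := (ra_rg_bound hκ hl0 hl m).2.2
    have h2 : ((2:ℂ) ^ m) ≠ 0 := pow_ne_zero m two_ne_zero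
    simp only [_root_.sub_apply, _root_.smul_apply, ContinuousLinearMap.comp_apply]
    rw [S.Res_apply hκ hl0 hl hx, S.B_apply hx, map_sub, map_smul, map_smul,
      S.Res_apply hκ hl0 hl hx, S.Res_apply hκ hl0 hl (S.Pc_U m x), S.UU]
    generalize S.U m x = u
    match_scalars
    · field_simp
    · field_simp
      ring
  exact DFunLike.congr_fun h x

theorem isResolvent {κ : ℝ} (hκ : 0 < κ) {l : ℂ} (hl0 : l ≠ 0)
    (hl : ∀ c : ℝ, 0 ≤ c → κ * (‖l‖ + c) ≤ ‖l - (c : ℂ)‖) :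
    IsResolvent S.A l (S.Res l) := by
  constructor
  · intro x
    have h1 : S.Res l x = S.B (l • S.Res l x - x) := by
      rw [map_sub, map_smul, ← S.res1 hκ hl0 hl x]
      abel
    have hmem : S.Res l x ∈ S.A.domain := by
      rw [h1]
      exact S.B_mem _
    refine ⟨hmem, ?_⟩
    have h2 : S.A ⟨S.Res l x, hmem⟩ = l • S.Res l x - x := by
      have h3 : (⟨S.Res l x, hmem⟩ : S.A.domain) = ⟨S.B (l • S.Res l x - x), S.B_mem _⟩ :=
        Subtype.ext h1
      rw [h3, S.A_B]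
    rw [h2]
    abel
  · rintro ⟨y, hy⟩
    obtain ⟨z, hz⟩ := hy
    have hz' : S.B z = y := hz
    subst hz'
    rw [S.A_B]
    simp only [map_sub, map_smul]
    exact S.res2 hκ hl0 hl z

/-- `A` is a negative generator of a bounded analytic semigroup (sectorial of every angle) -/
theorem isNegGen : IsNegGen S.A := by
  refine ⟨S.A_closed, S.B_dense, Real.pi / 4, by positivity, by linarith [Real.pi_pos], ?_, ?_⟩
  · intro l hl
    obtain ⟨κ, hκ, h⟩ := dist_half_line (s := Real.pi / 4) (by positivity)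
      (by linarith [Real.pi_pos])
    have hl0 := (re_le_of_notMem (s := Real.pi / 4) (by positivity) hl).1
    exact ⟨S.Res l, S.isResolvent hκ hl0 (h l hl)⟩
  · intro s' h1 h2
    have hs' : 0 < s' := by
      have : 0 < Real.pi / 4 := by positivity
      linarith
    obtain ⟨κ, hκ, h⟩ := dist_half_line hs' h2
    refine ⟨3 * (κ ^ 2)⁻¹ * K, ?_⟩
    intro l hl R hR
    have hl0 := (re_le_of_notMem hs' hl).1
    rw [hR.unique (S.isResolvent hκ hl0 (h l hl))]
    exact S.norm_Res_le hκ hl0 (h l hl)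

/-- **Consequence of property (H)** -/
theorem rbound_of_H (hH : PropertyH X) :
    ∃ C : ℝ, 0 ≤ C ∧ ∀ (n : ℕ) (m : Fin n → ℕ) (x : Fin n → X), (∀ k, S.Pc (m k) (x k)) →
      radSq (fun k => S.U (m k) (x k)) ≤ C * radSq x := by
  obtain ⟨s, hs, hs', hR⟩ := hH S.A S.isNegGen
  obtain ⟨C, hC, hb⟩ := hR.sq
  obtain ⟨κ, hκ, hdist⟩ := dist_half_line hs hs'
  refine ⟨8 + 32 * C, by linarith, ?_⟩
  intro n m x hx
  have hnot : ∀ j : ℕ, (-((2:ℂ) ^ j)) ∉ closure (sector s) := by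
    intro j
    have := neg_notMem hs hs' (c := 2 ^ j) (by positivity)
    push_cast at this
    exact this
  have h0 : ∀ j : ℕ, (-((2:ℂ) ^ j)) ≠ 0 := fun j => neg_ne_zero.mpr (pow_ne_zero j two_ne_zero)
  have h1 := hb n (fun k => (-((2:ℂ) ^ m k)) • S.Res (-((2:ℂ) ^ m k)))
    (fun k => ⟨_, hnot (m k), _, S.isResolvent hκ (h0 _) (hdist _ (hnot (m k))), rfl⟩) x
  have h2 : ∀ k, S.U (m k) (x k) = (2:ℂ) • x k +
      (-4:ℂ) • ((-((2:ℂ) ^ m k)) • S.Res (-((2:ℂ) ^ m k))) (x k) := by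
    intro k
    rw [_root_.smul_apply, S.Res_apply hκ (h0 _) (hdist _ (hnot (m k))) (hx k)]
    have h3 : ((2:ℂ) ^ m k) ≠ 0 := pow_ne_zero _ two_ne_zero
    have h4 : -((2:ℂ) ^ m k) - 2 ^ m k = -2 * 2 ^ m k := by ring
    rw [h4]
    generalize S.U (m k) (x k) = u
    match_scalars
    · field_simp
      ring
    · field_simp
      ring
  simp_rw [h2]
  refine (radSq_add_le _ _).trans ?_
  rw [radSq_smul, radSq_smul]
  have h5 : ‖(2:ℂ)‖ = 2 := by norm_num
  have h6 : ‖(-4:ℂ)‖ = 4 := by norm_num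
  rw [h5, h6]
  nlinarith [radSq_nonneg x]

end op

end Sch

end Pool.Agent.RSec
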