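import Pool.Agent.RSec.Block
import Pool.Agent.RSec.Sect

/-!
Block operators on `ℓ²(ℕ; Y)`.
-/

set_option autoImplicit false
set_option linter.unusedSectionVars false

open Finset Filter Topology

namespace Pool.Agent.RSec

open Cb

universe u

variable {Y : Type u} [NormedAddCommGroup Y] [NormedSpace ℂ Y]

/-- index set: the disjoint union of the cubes -/
abbrev Idx (N : ℕ → ℕ) : Type := Σ n, Om (N n)

instance (N : ℕ → ℕ) : Infinite (Idx N) :=
  Infinite.of_injective (fun n : ℕ => (⟨n, fun _ => false⟩ : Idx N)) (fun a b h => by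
    simpa using congrArg Sigma.fst h)

/-- an enumeration of the index set -/
noncomputable def enum (N : ℕ → ℕ) : ℕ ≃ Idx N := nonempty_equiv_of_countable.some

/-- `ℓ²(ℕ; Y)` -/
abbrev L2 (Y : Type u) [NormedAddCommGroup Y] : Type u := lp (fun _ : ℕ => Y) 2

variable (N : ℕ → ℕ)

/-- the `n`-th block of a sequence -/
noncomputable def blk (f : ℕ → Y) (n : ℕ) : Om (N n) → Y := fun w => f ((enum N).symm ⟨n, w⟩)

/-- the sequence with given blocks -/
noncomputable def glue (g : ∀ n, Om (N n) → Y) : ℕ → Y := fun i => g (enum N i).1 (enum N i).2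

theorem blk_glue (g : ∀ n, Om (N n) → Y) (n : ℕ) : blk N (glue N g) n = g n := by
  funext w
  unfold blk glue
  rw [Equiv.apply_symm_apply]

theorem ext_blk {f g : ℕ → Y} (h : ∀ n, blk N f n = blk N g n) : f = g := by
  funext i
  have h1 := congrFun (h (enum N i).1) (enum N i).2
  unfold blk at h1
  simpa using h1

theorem hasSum_sq (f : L2 Y) : HasSum (fun i => ‖f i‖ ^ 2) (‖f‖ ^ 2) := by
  have h := lp.hasSum_norm (p := 2) (by norm_num) f
  simpa using h

theorem memlp_of_summable {f : ℕ → Y} (h : Summable fun i => ‖f i‖ ^ 2) : Memℓp f 2 := by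
  apply memℓp_gen
  simpa using h

theorem hasSum_blk (f : L2 Y) : HasSum (fun n => ∑ w, ‖blk N f n w‖ ^ 2) (‖f‖ ^ 2) := by
  have h1 := hasSum_sq f
  have h2 : HasSum (fun p : Idx N => ‖f ((enum N).symm p)‖ ^ 2) (‖f‖ ^ 2) :=
    ((enum N).symm.hasSum_iff (f := fun i => ‖f i‖ ^ 2)).mpr h1
  exact h2.sigma (fun n => hasSum_fintype _)

theorem summable_of_blk {f : ℕ → Y} (h : Summable fun n => ∑ w, ‖blk N f n w‖ ^ 2) :
    Summable fun i => ‖f i‖ ^ 2 := by
  have h2 : Summable (fun p : Idx N => ‖f ((enum N).symm p)‖ ^ 2) := by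
    rw [summable_sigma_of_nonneg (fun _ => sq_nonneg _)]
    refine ⟨fun n => (hasSum_fintype _).summable, ?_⟩
    refine h.congr (fun n => ?_)
    rw [tsum_fintype]
    rfl
  exact ((enum N).symm.summable_iff (f := fun i => ‖f i‖ ^ 2)).mp h2

/-- data of a block operator -/
structure BOp (Y : Type u) [NormedAddCommGroup Y] [NormedSpace ℂ Y] (N : ℕ → ℕ) where
  T : ∀ n, (Om (N n) → Y) → (Om (N n) → Y)
  add : ∀ n f g, T n (f + g) = T n f + T n g
  smul : ∀ n (c : ℂ) f, T n (c • f) = c • T n f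
  bd : ∀ n g, ∑ w, ‖T n g w‖ ^ 2 ≤ ∑ w, ‖g w‖ ^ 2

variable {N}

theorem BOp.summable (T : BOp Y N) (f : L2 Y) :
    Summable fun n => ∑ w, ‖T.T n (blk N f n) w‖ ^ 2 :=
  Summable.of_nonneg_of_le (fun _ => sum_nonneg fun _ _ => sq_nonneg _)
    (fun n => T.bd n _) (hasSum_blk N f).summable

theorem BOp.mem (T : BOp Y N) (f : L2 Y) : Memℓp (glue N fun n => T.T n (blk N f n)) 2 := by
  apply memlp_of_summable
  apply summable_of_blk N
  simp_rw [blk_glue]
  exact T.summable f

/-- the block operator as a bounded operator -/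
noncomputable def BOp.op (T : BOp Y N) : L2 Y →L[ℂ] L2 Y :=
  LinearMap.mkContinuous
    { toFun := fun f => ⟨glue N fun n => T.T n (blk N f n), T.mem f⟩
      map_add' := by
        intro f g
        apply Subtype.ext
        apply ext_blk N
        intro n
        have h1 : blk N ((f + g : L2 Y) : ℕ → Y) n = blk N f n + blk N g n := rfl
        have h2 : ∀ a b : ℕ → Y, blk N (a + b) n = blk N a n + blk N b n := fun _ _ => rfl
        show blk N (glue N fun n => T.T n (blk N ((f + g : L2 Y) : ℕ → Y) n)) n =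
          blk N ((glue N fun n => T.T n (blk N f n)) + (glue N fun n => T.T n (blk N g n))) n
        rw [h2, blk_glue, blk_glue, blk_glue, h1, T.add]
      map_smul' := by
        intro c f
        apply Subtype.ext
        apply ext_blk N
        intro n
        have h1 : blk N ((c • f : L2 Y) : ℕ → Y) n = c • blk N f n := rfl
        have h2 : ∀ a : ℕ → Y, blk N (c • a) n = c • blk N a n := fun _ => rfl
        show blk N (glue N fun n => T.T n (blk N ((c • f : L2 Y) : ℕ → Y) n)) n =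
          blk N (c • (glue N fun n => T.T n (blk N f n))) n
        rw [h2, blk_glue, blk_glue, h1, T.smul] }
    1 (by
      intro f
      rw [one_mul]
      apply le_of_sq_le_sq _ (norm_nonneg _)
      have h1 := hasSum_blk N f
      have h2 := hasSum_blk N (⟨glue N fun n => T.T n (blk N f n), T.mem f⟩ : L2 Y)
      refine hasSum_le (fun n => ?_) h2 h1
      have h3 : blk N ((⟨glue N fun n => T.T n (blk N f n), T.mem f⟩ : L2 Y) : ℕ → Y) n =
          T.T n (blk N f n) := blk_glue N (fun n => T.T n (blk N f n)) n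
      rw [h3]
      exact T.bd n _)

theorem BOp.norm_op_le (T : BOp Y N) : ‖T.op‖ ≤ 1 :=
  LinearMap.mkContinuous_norm_le _ zero_le_one _

theorem BOp.blk_op (T : BOp Y N) (f : L2 Y) (n : ℕ) :
    blk N (T.op f : L2 Y) n = T.T n (blk N f n) :=
  blk_glue N (fun n => T.T n (blk N f n)) n

/-- the nilpotent operator in the piece `m` of a block -/
noncomputable def Um {N : ℕ} (S : Fin N → (Y →L[ℂ] Y)) (m : ℕ) (g : Om N → Y) : Om N → Y :=
  if h : 1 ≤ m ∧ m ≤ N then Ub S ⟨m - 1, by omega⟩ g else fun _ => 0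

theorem Um_add {N : ℕ} (S : Fin N → (Y →L[ℂ] Y)) (m : ℕ) (f g : Om N → Y) :
    Um S m (f + g) = Um S m f + Um S m g := by
  unfold Um
  split_ifs
  · exact Ub_add _ _ _ _
  · funext w; simp

theorem Um_smul {N : ℕ} (S : Fin N → (Y →L[ℂ] Y)) (m : ℕ) (c : ℂ) (g : Om N → Y) :
    Um S m (c • g) = c • Um S m g := by
  unfold Um
  split_ifs
  · exact Ub_smul _ _ _ _
  · funext w; simp

theorem sum_Um_le {N : ℕ} (S : Fin N → (Y →L[ℂ] Y)) (hS : ∀ j, ‖S j‖ ≤ 1) (m : ℕ)
    (g : Om N → Y) : ∑ w, ‖Um S m g w‖ ^ 2 ≤ ∑ w, ‖g w‖ ^ 2 := by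
  unfold Um
  split_ifs
  · exact sum_Ub_le S hS _ g
  · apply sum_le_sum
    intro w _
    rw [norm_zero, zero_pow two_ne_zero]
    exact sq_nonneg _

theorem Eb_zero {N : ℕ} (k : ℕ) : Eb k (fun _ : Om N => (0 : Y)) = fun _ => 0 := Av_zero _

theorem Um_zero {N : ℕ} (S : Fin N → (Y →L[ℂ] Y)) (m : ℕ) :
    Um S m (fun _ : Om N => (0 : Y)) = fun _ => 0 := by
  have h := Um_smul S m 0 (fun _ : Om N => (0 : Y))
  rw [zero_smul, zero_smul] at h
  exact h

theorem Eb_Um {N : ℕ} (S : Fin N → (Y →L[ℂ] Y)) (k m : ℕ) (g : Om N → Y) :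
    Eb k (Um S m g) = if m ≤ k then Um S m g else fun _ => 0 := by
  unfold Um
  split_ifs with h h' h'
  · rw [Eb_Ub, if_pos]
    simp only
    omega
  · rw [Eb_Ub, if_neg]
    simp only
    omega
  · exact Eb_zero k
  · exact Eb_zero k

theorem Um_Eb {N : ℕ} (S : Fin N → (Y →L[ℂ] Y)) (k m : ℕ) (g : Om N → Y) :
    Um S m (Eb k g) = if m ≤ k then Um S m g else fun _ => 0 := by
  unfold Um
  split_ifs with h h' h'
  · rw [Ub_Eb, if_pos]
    simp only
    omega
  · rw [Ub_Eb, if_neg]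
    simp only
    omega
  · rfl
  · rfl

theorem Um_Um {N : ℕ} (S : Fin N → (Y →L[ℂ] Y)) (m : ℕ) (g : Om N → Y) :
    Um S m (Um S m g) = fun _ => 0 := by
  by_cases h : 1 ≤ m ∧ m ≤ N
  · unfold Um
    rw [dif_pos h, dif_pos h]
    exact Ub_Ub _ _ _
  · unfold Um
    rw [dif_neg h]

/-- the projections as block operators -/
noncomputable def BE (Y : Type u) [NormedAddCommGroup Y] [NormedSpace ℂ Y] (N : ℕ → ℕ) (k : ℕ) :
    BOp Y N where
  T := fun _ g => Eb k g
  add := fun _ f g => Eb_add k f g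
  smul := fun _ c f => Eb_smul k c f
  bd := fun _ g => sum_Eb_le k g

/-- the nilpotent operators as block operators -/
noncomputable def BU (S : ∀ n, Fin (N n) → (Y →L[ℂ] Y)) (hS : ∀ n j, ‖S n j‖ ≤ 1) (m : ℕ) :
    BOp Y N where
  T := fun n g => Um (S n) m g
  add := fun n f g => Um_add (S n) m f g
  smul := fun n c f => Um_smul (S n) m c f
  bd := fun n g => sum_Um_le (S n) (hS n) m g

theorem ext_L2 {f g : L2 Y} (h : ∀ n, blk N f n = blk N g n) : f = g :=
  Subtype.ext (ext_blk N h)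

theorem blk_zero (n : ℕ) : blk N (0 : L2 Y) n = fun _ => 0 := rfl

theorem E_lim [CompleteSpace Y] (x : L2 Y) :
    Tendsto (fun k => (BE Y N k).op x) atTop (𝓝 x) := by
  have h1 := lp.hasSum_single (p := 2) (by norm_num) x
  rw [Metric.tendsto_atTop]
  intro ε hε
  rw [HasSum, Metric.tendsto_nhds] at h1
  obtain ⟨s, hs⟩ := (h1 (ε / 2) (half_pos hε)).exists
  set F : L2 Y := ∑ i ∈ s, lp.single 2 i (x i) with hF
  have h2 : ∀ (i : ℕ) (y : Y) (k : ℕ), N (enum N i).1 ≤ k →
      (BE Y N k).op (lp.single 2 i y) = lp.single 2 i y := by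
    intro i y k hk
    apply ext_L2
    intro n
    rw [BOp.blk_op]
    show Eb k (blk N (lp.single 2 i y : L2 Y) n) = blk N (lp.single 2 i y : L2 Y) n
    by_cases hn : n = (enum N i).1
    · subst hn
      exact Eb_of_le hk _
    · have h3 : blk N (lp.single 2 i y : L2 Y) n = fun _ => 0 := by
        funext w
        unfold blk
        rw [lp.single_apply_ne]
        intro h4
        apply hn
        rw [← h4, Equiv.apply_symm_apply]
      rw [h3]
      exact Eb_zero k
  refine ⟨∑ i ∈ s, N (enum N i).1, ?_⟩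
  intro k hk
  have h3 : (BE Y N k).op F = F := by
    rw [hF, map_sum]
    apply sum_congr rfl
    intro i hi
    apply h2
    exact (single_le_sum (f := fun i => N (enum N i).1) (fun _ _ => Nat.zero_le _) hi).trans hk
  have h4 : (BE Y N k).op x - x = (BE Y N k).op (x - F) + (F - x) := by
    rw [map_sub, h3]
    abel
  rw [dist_eq_norm, h4]
  have h5 : ‖F - x‖ < ε / 2 := by rw [← dist_eq_norm]; exact hs
  have h6 : ‖(BE Y N k).op (x - F)‖ ≤ ‖F - x‖ := by
    refine ((BE Y N k).op.le_opNorm _).trans ?_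
    rw [norm_sub_rev F x]
    calc _ ≤ 1 * ‖x - F‖ := mul_le_mul_of_nonneg_right (BOp.norm_op_le _) (norm_nonneg _)
      _ = _ := one_mul _
  calc _ ≤ ‖(BE Y N k).op (x - F)‖ + ‖F - x‖ := norm_add_le _ _
    _ < ε := by linarith

/-- the Schauder decomposition of `ℓ²(ℕ; Y)` -/
noncomputable def sch [CompleteSpace Y] (S : ∀ n, Fin (N n) → (Y →L[ℂ] Y))
    (hS : ∀ n j, ‖S n j‖ ≤ 1) : Sch (L2 Y) 1 where
  E := fun k => (BE Y N k).op
  U := fun m => (BU S hS m).op
  hE := by
    intro j k x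
    apply ext_L2 (N := N)
    intro n
    rw [BOp.blk_op, BOp.blk_op, BOp.blk_op]
    exact Eb_Eb _ _ _
  nE := fun k => BOp.norm_op_le _
  nU := fun m => BOp.norm_op_le _
  lim := E_lim
  EU := by
    intro k m x
    apply ext_L2 (N := N)
    intro n
    rw [BOp.blk_op, BOp.blk_op]
    refine (Eb_Um (S n) k m _).trans ?_
    split_ifs
    · rw [BOp.blk_op]; rfl
    · rfl
  UE := by
    intro k m x
    apply ext_L2 (N := N)
    intro n
    rw [BOp.blk_op, BOp.blk_op]
    refine (Um_Eb (S n) k m _).trans ?_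
    split_ifs
    · rw [BOp.blk_op]; rfl
    · rfl
  UU := by
    intro m x
    apply ext_L2 (N := N)
    intro n
    rw [BOp.blk_op, BOp.blk_op]
    exact Um_Um (S n) m _

end Pool.Agent.RSec
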