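import Pool.Agent.RSec.Gauss

/-!
Kwapień's theorem: type 2 and cotype 2 give an equivalent inner product.
-/

set_option autoImplicit false
set_option linter.unusedSectionVars false

open Finset

namespace Pool.Agent.RSec

universe u

variable {Y : Type u} [NormedAddCommGroup Y] [NormedSpace ℂ Y]

/-- functions on the (real) dual -/
abbrev DF (Y : Type u) [NormedAddCommGroup Y] [NormedSpace ℂ Y] : Type u := StrongDual ℝ Y → ℝ

/-- the square of the evaluation at `y` -/
noncomputable def qf (y : Y) : DF Y := fun L => L y ^ 2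

/-- sum of squares of a list -/
noncomputable def Ql (l : List Y) : DF Y := (l.map qf).sum

/-- sum of squared norms -/
noncomputable def nl (l : List Y) : ℝ := (l.map fun y => ‖y‖ ^ 2).sum

theorem Ql_append (l l' : List Y) : Ql (l ++ l') = Ql l + Ql l' := by
  unfold Ql; rw [List.map_append, List.sum_append]

theorem nl_append (l l' : List Y) : nl (l ++ l') = nl l + nl l' := by
  unfold nl; rw [List.map_append, List.sum_append]

theorem Ql_scale (l : List Y) {c : ℝ} (hc : 0 ≤ c) :
    Ql (l.map fun y => Real.sqrt c • y) = c • Ql l := by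
  unfold Ql
  rw [List.map_map, List.smul_sum, List.map_map]
  congr 1
  apply List.map_congr_left
  intro y _
  funext L
  simp only [Function.comp_apply, qf, Pi.smul_apply, smul_eq_mul]
  rw [map_smul, smul_eq_mul, mul_pow, Real.sq_sqrt hc]

theorem nl_scale (l : List Y) {c : ℝ} (hc : 0 ≤ c) :
    nl (l.map fun y => Real.sqrt c • y) = c * nl l := by
  unfold nl
  rw [List.map_map, ← smul_eq_mul, List.smul_sum, List.map_map]
  congr 1
  apply List.map_congr_left
  intro y _
  simp only [Function.comp_apply, smul_eq_mul]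
  rw [norm_smul, mul_pow, Real.norm_eq_abs, sq_abs, Real.sq_sqrt hc]

/-- the span of the squares -/
noncomputable def Wq (Y : Type u) [NormedAddCommGroup Y] [NormedSpace ℂ Y] : Submodule ℝ (DF Y) :=
  Submodule.span ℝ (Set.range qf)

theorem exists_rep {u : DF Y} (hu : u ∈ Wq Y) : ∃ l l' : List Y, u = Ql l - Ql l' := by
  unfold Wq at hu
  induction hu using Submodule.span_induction with
  | mem u hu =>
    obtain ⟨y, rfl⟩ := hu
    exact ⟨[y], [], by simp [Ql]⟩
  | zero => exact ⟨[], [], by simp [Ql]⟩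
  | add u v _ _ hu hv =>
    obtain ⟨l, l', rfl⟩ := hu
    obtain ⟨k, k', rfl⟩ := hv
    exact ⟨l ++ k, l' ++ k', by rw [Ql_append, Ql_append]; abel⟩
  | smul c u _ hu =>
    obtain ⟨l, l', rfl⟩ := hu
    rcases le_total 0 c with hc | hc
    · exact ⟨_, _, by rw [smul_sub, ← Ql_scale l hc, ← Ql_scale l' hc]⟩
    · refine ⟨l'.map fun y => Real.sqrt (-c) • y, l.map fun y => Real.sqrt (-c) • y, ?_⟩
      rw [Ql_scale _ (by linarith), Ql_scale _ (by linarith), smul_sub, neg_smul, neg_smul]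
      abel

/-- the comparison inequality for lists -/
def Cmp (Y : Type u) [NormedAddCommGroup Y] [NormedSpace ℂ Y] (K : ℝ) : Prop :=
  ∀ l l' : List Y, Ql l = Ql l' → nl l ≤ K * nl l'

theorem cmp_of {C : ℝ} (hC : 0 ≤ C)
    (h : ∀ (N : ℕ) (z : Fin N → Y), radSq z ≤ C * ∑ j, ‖z j‖ ^ 2 ∧
      ∑ j, ‖z j‖ ^ 2 ≤ C * radSq z) : Cmp Y (C ^ 2) := by
  intro l l' hl
  have h1 := compare hC h (fun j : Fin l'.length => l'[j]) (fun j : Fin l.length => l[j]) (by
    intro L
    have h2 := congrFun hl L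
    unfold Ql at h2
    rw [← Fin.sum_univ_fun_getElem l qf, ← Fin.sum_univ_fun_getElem l' qf,
      Finset.sum_apply, Finset.sum_apply] at h2
    exact h2.symm)
  unfold nl
  rw [← Fin.sum_univ_fun_getElem l (fun y => ‖y‖ ^ 2),
    ← Fin.sum_univ_fun_getElem l' (fun y => ‖y‖ ^ 2)]
  exact h1

/-- the cone -/
noncomputable def cone (Y : Type u) [NormedAddCommGroup Y] [NormedSpace ℂ Y] (K : ℝ) :
    PointedCone ℝ (Wq Y × ℝ) where
  carrier := {p | ∃ l l' : List Y, (p.1 : DF Y) = Ql l - Ql l' ∧ K * nl l - nl l' ≤ p.2}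
  add_mem' := by
    rintro p p' ⟨l, l', h1, h2⟩ ⟨k, k', h3, h4⟩
    refine ⟨l ++ k, l' ++ k', ?_, ?_⟩
    · rw [Prod.fst_add, Submodule.coe_add, h1, h3, Ql_append, Ql_append]; abel
    · rw [Prod.snd_add, nl_append, nl_append]; linarith
  zero_mem' := ⟨[], [], by simp [Ql], by simp [nl]⟩
  smul_mem' := by
    rintro c p ⟨l, l', h1, h2⟩
    refine ⟨l.map fun y => Real.sqrt (c : ℝ) • y, l'.map fun y => Real.sqrt (c : ℝ) • y, ?_, ?_⟩
    · rw [Ql_scale _ c.2, Ql_scale _ c.2, ← smul_sub, ← h1]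
      rfl
    · rw [nl_scale _ c.2, nl_scale _ c.2]
      have h3 : (c • p).2 = (c : ℝ) * p.2 := rfl
      rw [h3]
      have h4 := mul_le_mul_of_nonneg_left h2 c.2
      calc K * ((c : ℝ) * nl l) - (c : ℝ) * nl l' = (c : ℝ) * (K * nl l - nl l') := by ring
        _ ≤ _ := h4

theorem exists_form {K : ℝ} (hK : Cmp Y K) :
    ∃ φ : Wq Y →ₗ[ℝ] ℝ, ∀ (u : Wq Y) (l l' : List Y), (u : DF Y) = Ql l - Ql l' →
      φ u ≤ K * nl l - nl l' := by
  set f : (Wq Y × ℝ) →ₗ.[ℝ] ℝ :=
    { domain := Submodule.prod ⊥ ⊤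
      toFun := (LinearMap.snd ℝ (Wq Y) ℝ).comp (Submodule.subtype _) } with hf
  obtain ⟨g, hg1, hg2⟩ := riesz_extension (cone Y K) f (by
    rintro ⟨⟨u, t⟩, hu⟩ ⟨l, l', h1, h2⟩
    rw [hf] at hu
    simp only [Submodule.mem_prod, Submodule.mem_bot, Submodule.mem_top, and_true] at hu
    subst hu
    have h3 : Ql l' = Ql l := by
      simp only [Submodule.coe_zero] at h1
      exact (sub_eq_zero.mp h1.symm).symm
    have h4 := hK l' l h3
    show 0 ≤ t
    simp only at h2
    linarith) (by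
    rintro ⟨u, t⟩
    obtain ⟨l, l', h1⟩ := exists_rep u.2
    refine ⟨⟨(0, K * nl l - nl l' - t), ⟨Submodule.zero_mem _, trivial⟩⟩, l, l', ?_, ?_⟩
    · simp only [Prod.mk_add_mk, zero_add]
      exact h1
    · simp only [Prod.mk_add_mk]
      linarith)
  refine ⟨-(g.comp (LinearMap.inl ℝ (Wq Y) ℝ)), ?_⟩
  intro u l l' h
  have h1 := hg2 (u, K * nl l - nl l') ⟨l, l', h, le_rfl⟩
  have h2 : g (0, K * nl l - nl l') = K * nl l - nl l' :=
    hg1 ⟨(0, K * nl l - nl l'), ⟨Submodule.zero_mem _, trivial⟩⟩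
  have h3 : g (u, K * nl l - nl l') = g (u, 0) + g (0, K * nl l - nl l') := by
    rw [← map_add]
    congr 1
    simp
  rw [h3, h2] at h1
  show -(g (u, 0)) ≤ _
  linarith

/-- products of evaluations -/
noncomputable def mf (x y : Y) : Wq Y :=
  ⟨fun L => L x * L y, by
    have h : (fun L : StrongDual ℝ Y => L x * L y) =
        (1 / 4 : ℝ) • (qf (x + y) - qf (x - y)) := by
      funext L
      simp only [Pi.smul_apply, Pi.sub_apply, qf, map_add, map_sub, smul_eq_mul]
      ring
    rw [h]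
    exact Submodule.smul_mem _ _ (Submodule.sub_mem _ (Submodule.subset_span ⟨_, rfl⟩)
      (Submodule.subset_span ⟨_, rfl⟩))⟩

theorem mf_add (x x' y : Y) : mf (x + x') y = mf x y + mf x' y := by
  apply Subtype.ext
  funext L
  show L (x + x') * L y = L x * L y + L x' * L y
  rw [map_add]
  ring

theorem mf_smul (c : ℝ) (x y : Y) : mf (c • x) y = c • mf x y := by
  apply Subtype.ext
  funext L
  show L (c • x) * L y = c * (L x * L y)
  rw [map_smul, smul_eq_mul]
  ring

theorem mf_comm (x y : Y) : mf x y = mf y x := by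
  apply Subtype.ext
  funext L
  exact mul_comm _ _

/-- an equivalent real inner product -/
theorem exists_real_inner {K : ℝ} (hK : Cmp Y K) :
    ∃ b : Y → Y → ℝ, (∀ x x' y, b (x + x') y = b x y + b x' y) ∧
      (∀ (c : ℝ) x y, b (c • x) y = c * b x y) ∧ (∀ x y, b x y = b y x) ∧
      (∀ x, ‖x‖ ^ 2 ≤ b x x) ∧ ∀ x, b x x ≤ K * ‖x‖ ^ 2 := by
  obtain ⟨φ, hφ⟩ := exists_form hK
  refine ⟨fun x y => φ (mf x y), ?_, ?_, ?_, ?_, ?_⟩
  · intro x x' y
    beta_reduce
    rw [mf_add, map_add]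
  · intro c x y
    beta_reduce
    rw [mf_smul, map_smul, smul_eq_mul]
  · intro x y
    beta_reduce
    rw [mf_comm]
  · intro x
    have h1 : ((-(mf x x) : Wq Y) : DF Y) = Ql [] - Ql [x] := by
      funext L
      show -(L x * L x) = _
      simp only [Ql, List.map_nil, List.sum_nil, List.map_cons, List.sum_cons, add_zero, zero_sub,
        Pi.neg_apply, qf]
      ring
    have h2 := hφ (-(mf x x)) [] [x] h1
    rw [map_neg] at h2
    simp only [nl, List.map_nil, List.sum_nil, mul_zero, List.map_cons, List.sum_cons, add_zero,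
      zero_sub] at h2
    linarith
  · intro x
    have h1 : ((mf x x : Wq Y) : DF Y) = Ql [x] - Ql [] := by
      funext L
      show L x * L x = _
      simp only [Ql, List.map_nil, List.sum_nil, List.map_cons, List.sum_cons, add_zero, sub_zero,
        qf]
      ring
    have h2 := hφ (mf x x) [x] [] h1
    simpa [nl] using h2

end Pool.Agent.RSec
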