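import Pool.Agent.RSec.HB

/-!
The complex inner product and the final theorems.
-/

set_option autoImplicit false
set_option linter.unusedSectionVars false

open Finset

namespace Pool.Agent.RSec

universe u

variable {Y : Type u} [NormedAddCommGroup Y] [NormedSpace ℂ Y]

/-- a copy of the vector space `Y` -/
def Syn (Y : Type u) : Type u := Y

instance : AddCommGroup (Syn Y) := inferInstanceAs (AddCommGroup Y)

noncomputable instance : Module ℂ (Syn Y) := inferInstanceAs (Module ℂ Y)

/-- the identity -/
noncomputable def toSyn (Y : Type u) [NormedAddCommGroup Y] [NormedSpace ℂ Y] :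
    Y ≃ₗ[ℂ] Syn Y := LinearEquiv.refl ℂ Y

theorem isoHilbert_of_real_inner [CompleteSpace Y] {K : ℝ} (b : Y → Y → ℝ)
    (hadd : ∀ x x' y, b (x + x') y = b x y + b x' y)
    (hsmul : ∀ (c : ℝ) x y, b (c • x) y = c * b x y) (hcomm : ∀ x y, b x y = b y x)
    (hlow : ∀ x, ‖x‖ ^ 2 ≤ b x x) (hup : ∀ x, b x x ≤ K * ‖x‖ ^ 2) : IsoHilbert Y := by
  set c : Y → Y → ℝ := fun x y => b x y + b (Complex.I • x) (Complex.I • y) with hc
  have cadd : ∀ x x' y, c (x + x') y = c x y + c x' y := by
    intro x x' y
    simp only [hc, smul_add, hadd]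
    ring
  have csmul : ∀ (t : ℝ) x y, c (t • x) y = t * c x y := by
    intro t x y
    have h1 : Complex.I • (t • x) = t • (Complex.I • x) := smul_comm _ _ _
    simp only [hc, h1, hsmul]
    ring
  have ccomm : ∀ x y, c x y = c y x := by
    intro x y
    simp only [hc]
    rw [hcomm x y, hcomm (Complex.I • x)]
  have hII : ∀ x : Y, Complex.I • Complex.I • x = (-1 : ℝ) • x := by
    intro x
    rw [smul_smul, Complex.I_mul_I, neg_smul, neg_smul, one_smul, one_smul]
  have cneg : ∀ x y, c ((-1 : ℝ) • x) y = - c x y := by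
    intro x y; rw [csmul]; ring
  have cneg' : ∀ x y, c x ((-1 : ℝ) • y) = - c x y := by
    intro x y; rw [ccomm, cneg, ccomm]
  have cI : ∀ x y, c (Complex.I • x) (Complex.I • y) = c x y := by
    intro x y
    have h1 : b (Complex.I • Complex.I • x) (Complex.I • Complex.I • y) = b x y := by
      rw [hII, hII, hsmul, hcomm, hsmul, hcomm]
      ring
    simp only [hc]
    rw [h1]
    ring
  have cI' : ∀ x y, c (Complex.I • x) y = - c x (Complex.I • y) := by
    intro x y
    rw [← cI (Complex.I • x) y, hII, cneg]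
  have clow : ∀ x, ‖x‖ ^ 2 ≤ c x x := by
    intro x
    have h1 := hlow x
    have h2 := hlow (Complex.I • x)
    have h3 : 0 ≤ ‖Complex.I • x‖ ^ 2 := sq_nonneg _
    simp only [hc]
    linarith
  have cup : ∀ x, c x x ≤ 2 * K * ‖x‖ ^ 2 := by
    intro x
    have h1 := hup x
    have h2 := hup (Complex.I • x)
    rw [norm_smul, Complex.norm_I, one_mul] at h2
    simp only [hc]
    linarith
  have czero : ∀ x, c x (Complex.I • x) = 0 := by
    intro x
    have h1 := cI' x x
    rw [ccomm] at h1
    linarith
  let core : InnerProductSpace.Core ℂ (Syn Y) :=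
    { inner := fun x y => (⟨c ((toSyn Y).symm x) ((toSyn Y).symm y),
        - c ((toSyn Y).symm x) (Complex.I • (toSyn Y).symm y)⟩ : ℂ)
      conj_inner_symm := by
        intro x y
        apply Complex.ext
        · exact ccomm _ _
        · show - - c ((toSyn Y).symm y) (Complex.I • (toSyn Y).symm x) =
            - c ((toSyn Y).symm x) (Complex.I • (toSyn Y).symm y)
          rw [neg_neg, ccomm, cI']
      re_inner_nonneg := by
        intro x
        exact (sq_nonneg _).trans (clow _)
      add_left := by
        intro x y z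
        apply Complex.ext
        · show c ((toSyn Y).symm (x + y)) _ = _
          rw [map_add, cadd]
          rfl
        · show - c ((toSyn Y).symm (x + y)) _ = _
          rw [map_add, cadd, neg_add]
          rfl
      smul_left := by
        intro x y r
        have hr : ∀ v w : Y, c (r • v) w = r.re * c v w + r.im * c (Complex.I • v) w := by
          intro v w
          have h1 : r • v = r.re • v + r.im • (Complex.I • v) := by
            conv_lhs => rw [← Complex.re_add_im r]
            rw [add_smul, mul_smul]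
            rfl
          rw [h1, cadd, csmul, csmul]
        apply Complex.ext
        · show c ((toSyn Y).symm (r • x)) _ = _
          rw [map_smul, hr, cI']
          simp only [Complex.mul_re, Complex.conj_re, Complex.conj_im]
          ring
        · show - c ((toSyn Y).symm (r • x)) _ = _
          rw [map_smul, hr, cI]
          simp only [Complex.mul_im, Complex.conj_re, Complex.conj_im]
          ring
      definite := by
        intro x hx
        have h1 : c ((toSyn Y).symm x) ((toSyn Y).symm x) = 0 := congrArg Complex.re hx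
        have h2 := clow ((toSyn Y).symm x)
        rw [h1] at h2
        have h3 : ‖(toSyn Y).symm x‖ = 0 := by
          have := norm_nonneg ((toSyn Y).symm x)
          nlinarith
        have h4 := norm_eq_zero.mp h3
        exact (LinearEquiv.map_eq_zero_iff _).mp h4 }
  let i1 : NormedAddCommGroup (Syn Y) := core.toNormedAddCommGroup
  let i2 : InnerProductSpace ℂ (Syn Y) := InnerProductSpace.ofCore core.toCore
  have hnorm : ∀ x : Y, ‖toSyn Y x‖ ^ 2 = c x x := by
    intro x
    rw [← inner_self_eq_norm_sq (𝕜 := ℂ)]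
    rfl
  have hK : 0 ≤ Real.sqrt (2 * |K|) := Real.sqrt_nonneg _
  let e : Y ≃L[ℂ] Syn Y := LinearEquiv.toContinuousLinearEquivOfBounds (toSyn Y)
    (Real.sqrt (2 * |K|)) 1 (by
      intro x
      apply le_of_sq_le_sq _ (by positivity)
      rw [hnorm, mul_pow, Real.sq_sqrt (by positivity)]
      refine (cup x).trans ?_
      apply mul_le_mul_of_nonneg_right _ (sq_nonneg _)
      have := le_abs_self K
      linarith) (by
      intro x
      rw [one_mul]
      apply le_of_sq_le_sq _ (norm_nonneg _)
      have h1 := hnorm ((toSyn Y).symm x)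
      rw [LinearEquiv.apply_symm_apply] at h1
      rw [h1]
      exact clow _)
  have hcomp : CompleteSpace (Syn Y) :=
    (completeSpace_congr (e := e.toEquiv) e.isUniformEmbedding).mp inferInstance
  exact ⟨Syn Y, i1, i2, hcomp, ⟨e⟩⟩

/-- Kwapień's theorem in the form needed here -/
theorem isoHilbert_of_unif [CompleteSpace Y] {C : ℝ} (hC : 0 ≤ C)
    (h : ∀ (N : ℕ) (S : Fin N → (Y →L[ℂ] Y)), (∀ j, ‖S j‖ ≤ 1) → ∀ y : Fin N → Y,
      radSq (fun j => S j (y j)) ≤ C * radSq y) : IsoHilbert Y := by
  obtain ⟨b, h1, h2, h3, h4, h5⟩ := exists_real_inner (cmp_of hC (type_cotype h))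
  exact isoHilbert_of_real_inner b h1 h2 h3 h4 h5

/-- **Main theorem**: complemented copies of `ℓ²(Y)` -/
theorem isoHilbert_of_complemented {X Y : Type u} [NormedAddCommGroup X] [NormedSpace ℂ X]
    [CompleteSpace X] [NormedAddCommGroup Y] [NormedSpace ℂ Y] [CompleteSpace Y]
    (J : L2 Y →L[ℂ] X) (P : X →L[ℂ] L2 Y) (hPJ : ∀ z, P (J z) = z) (hH : PropertyH X) :
    IsoHilbert Y := by
  obtain ⟨C, hC, h⟩ := unif_of_H J P hPJ hH
  exact isoHilbert_of_unif hC h

section congr
variable {Z : Type u} [NormedAddCommGroup Z] [NormedSpace ℂ Z]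

theorem lmap_summable (T : Y →L[ℂ] Z) (f : L2 Y) :
    Summable fun i => ‖T (f i)‖ ^ 2 := by
  refine Summable.of_nonneg_of_le (fun _ => sq_nonneg _) (fun i => ?_)
    ((hasSum_sq f).summable.mul_left (‖T‖ ^ 2))
  rw [← mul_pow]
  exact pow_le_pow_left₀ (norm_nonneg _) (T.le_opNorm _) 2

/-- coordinatewise application of an operator -/
noncomputable def lmap (T : Y →L[ℂ] Z) : L2 Y →L[ℂ] L2 Z :=
  LinearMap.mkContinuous
    { toFun := fun f => ⟨fun i => T (f i), memlp_of_summable (lmap_summable T f)⟩
      map_add' := by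
        intro f g
        apply Subtype.ext
        funext i
        exact map_add T (f i) (g i)
      map_smul' := by
        intro c f
        apply Subtype.ext
        funext i
        exact map_smul T c (f i) }
    ‖T‖ (by
      intro f
      apply le_of_sq_le_sq _ (by positivity)
      rw [mul_pow]
      refine hasSum_le (fun i => ?_)
        (hasSum_sq (⟨fun i => T (f i), memlp_of_summable (lmap_summable T f)⟩ : L2 Z))
        ((hasSum_sq f).mul_left (‖T‖ ^ 2))
      rw [← mul_pow]
      exact pow_le_pow_left₀ (norm_nonneg _) (T.le_opNorm _) 2)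

theorem lmap_apply (T : Y →L[ℂ] Z) (f : L2 Y) (i : ℕ) : lmap T f i = T (f i) := rfl

theorem isoHilbert_L2 (h : IsoHilbert Y) : IsoHilbert (L2 Y) := by
  obtain ⟨H, i1, i2, i3, ⟨e⟩⟩ := h
  refine ⟨L2 H, inferInstance, inferInstance, inferInstance, ⟨?_⟩⟩
  refine ContinuousLinearEquiv.equivOfInverse (lmap (e : Y →L[ℂ] H)) (lmap (e.symm : H →L[ℂ] Y))
    ?_ ?_
  · intro f
    apply Subtype.ext
    funext i
    exact e.symm_apply_apply (f i)
  · intro f
    apply Subtype.ext
    funext i
    exact e.apply_symm_apply (f i)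

theorem IsoHilbert.of_equiv (h : IsoHilbert Z) (e : Y ≃L[ℂ] Z) : IsoHilbert Y := by
  obtain ⟨H, i1, i2, i3, ⟨e'⟩⟩ := h
  exact ⟨H, i1, i2, i3, ⟨e.trans e'⟩⟩

end congr

/-- **Main theorem**, second form: spaces isomorphic to `ℓ²(Y)` -/
theorem isoHilbert_of_equiv_L2 {X Y : Type u} [NormedAddCommGroup X] [NormedSpace ℂ X]
    [CompleteSpace X] [NormedAddCommGroup Y] [NormedSpace ℂ Y] [CompleteSpace Y]
    (e : X ≃L[ℂ] L2 Y) (hH : PropertyH X) : IsoHilbert X :=
  (isoHilbert_L2 (isoHilbert_of_complemented (e.symm : L2 Y →L[ℂ] X) (e : X →L[ℂ] L2 Y)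
    (fun z => e.apply_symm_apply z) hH)).of_equiv e

end Pool.Agent.RSec
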