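import Pool.Agent.RSec.Glue

/-!
Property (H) for a space containing a complemented copy of `ℓ²(ℕ; Y)`: the unit ball of `L(Y)` is
R-bounded.
-/

set_option autoImplicit false
set_option linter.unusedSectionVars false

open Finset Filter Topology

namespace Pool.Agent.RSec

open Cb

universe u

variable {Y : Type u} [NormedAddCommGroup Y] [NormedSpace ℂ Y]
variable {X : Type u} [NormedAddCommGroup X] [NormedSpace ℂ X]

/-- transfer of a Schauder decomposition to a space with a complemented copy -/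
noncomputable def Sch.transfer {Z : Type u} [NormedAddCommGroup Z] [NormedSpace ℂ Z] {K : ℝ}
    (hK : K ≤ 1) (S : Sch Z K) (J : Z →L[ℂ] X) (P : X →L[ℂ] Z) (hPJ : ∀ z, P (J z) = z) :
    Sch X (2 * (‖J‖ * ‖P‖) + 1) where
  E := fun k => J.comp ((S.E k).comp P) + (ContinuousLinearMap.id ℂ X - J.comp P)
  U := fun m => J.comp ((S.U m).comp P)
  hE := by
    intro j k x
    simp only [_root_.add_apply, _root_.sub_apply, ContinuousLinearMap.comp_apply,
      ContinuousLinearMap.id_apply, map_add, map_sub, hPJ, S.hE]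
    abel
  nE := by
    intro k
    have h1 : ‖J.comp ((S.E k).comp P)‖ ≤ ‖J‖ * ‖P‖ := by
      refine (ContinuousLinearMap.opNorm_comp_le _ _).trans ?_
      apply mul_le_mul_of_nonneg_left _ (norm_nonneg _)
      refine (ContinuousLinearMap.opNorm_comp_le _ _).trans ?_
      calc ‖S.E k‖ * ‖P‖ ≤ 1 * ‖P‖ :=
            mul_le_mul_of_nonneg_right ((S.nE k).trans hK) (norm_nonneg _)
        _ = ‖P‖ := one_mul _
    have h2 : ‖ContinuousLinearMap.id ℂ X - J.comp P‖ ≤ 1 + ‖J‖ * ‖P‖ := by
      refine (norm_sub_le _ _).trans (add_le_add ?_ (ContinuousLinearMap.opNorm_comp_le _ _))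
      exact ContinuousLinearMap.norm_id_le
    refine (norm_add_le _ _).trans ?_
    linarith
  nU := by
    intro k
    have h1 : ‖J.comp ((S.U k).comp P)‖ ≤ ‖J‖ * ‖P‖ := by
      refine (ContinuousLinearMap.opNorm_comp_le _ _).trans ?_
      apply mul_le_mul_of_nonneg_left _ (norm_nonneg _)
      refine (ContinuousLinearMap.opNorm_comp_le _ _).trans ?_
      calc ‖S.U k‖ * ‖P‖ ≤ 1 * ‖P‖ :=
            mul_le_mul_of_nonneg_right ((S.nU k).trans hK) (norm_nonneg _)
        _ = ‖P‖ := one_mul _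
    have h2 : 0 ≤ ‖J‖ * ‖P‖ := by positivity
    linarith
  lim := by
    intro x
    have h1 : Tendsto (fun k => J (S.E k (P x)) + (x - J (P x))) atTop
        (𝓝 (J (P x) + (x - J (P x)))) :=
      ((J.continuous.tendsto _).comp (S.lim (P x))).add_const _
    rw [add_sub_cancel] at h1
    exact h1
  EU := by
    intro k m x
    simp only [_root_.add_apply, _root_.sub_apply, ContinuousLinearMap.comp_apply,
      ContinuousLinearMap.id_apply, hPJ, S.EU]
    split_ifs
    · abel
    · simp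
  UE := by
    intro k m x
    simp only [_root_.add_apply, _root_.sub_apply, ContinuousLinearMap.comp_apply,
      ContinuousLinearMap.id_apply, map_add, map_sub, hPJ, S.UE]
    split_ifs
    · simp
    · simp
  UU := by
    intro m x
    simp only [ContinuousLinearMap.comp_apply, hPJ, S.UU, map_zero]

theorem Sch.rbound_transfer [CompleteSpace X] {Z : Type u} [NormedAddCommGroup Z]
    [NormedSpace ℂ Z] {K : ℝ}
    (hK : K ≤ 1) (S : Sch Z K) (J : Z →L[ℂ] X) (P : X →L[ℂ] Z) (hPJ : ∀ z, P (J z) = z)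
    (hH : PropertyH X) :
    ∃ C : ℝ, 0 ≤ C ∧ ∀ (n : ℕ) (m : Fin n → ℕ) (x : Fin n → Z), (∀ k, S.Pc (m k) (x k)) →
      radSq (fun k => S.U (m k) (x k)) ≤ C * radSq x := by
  obtain ⟨C, hC, h⟩ := (S.transfer hK J P hPJ).rbound_of_H hH
  refine ⟨‖P‖ ^ 2 * (C * ‖J‖ ^ 2), by positivity, ?_⟩
  intro n m x hx
  have h1 := h n m (fun k => J (x k)) (fun k => by
    intro l
    show J (S.E l (P (J (x k)))) + (J (x k) - J (P (J (x k)))) = _
    rw [hPJ, sub_self, add_zero, hx k l]
    split_ifs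
    · rfl
    · exact map_zero J)
  have h2 : (fun k => S.U (m k) (x k)) =
      fun k => P ((S.transfer hK J P hPJ).U (m k) (J (x k))) := by
    funext k
    show _ = P (J (S.U (m k) (P (J (x k)))))
    rw [hPJ, hPJ]
  rw [h2]
  refine (radSq_map_le P _).trans ?_
  rw [mul_assoc]
  apply mul_le_mul_of_nonneg_left _ (sq_nonneg _)
  refine h1.trans ?_
  rw [mul_assoc]
  exact mul_le_mul_of_nonneg_left (radSq_map_le J x) hC

variable {N : ℕ → ℕ}

/-- embedding of a block -/
noncomputable def emb (n : ℕ) (g : Om (N n) → Y) : L2 Y :=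
  ⟨glue N (Pi.single n g), by
    apply memlp_of_summable
    apply summable_of_blk N
    simp_rw [blk_glue]
    apply summable_of_ne_finset_zero (s := {n})
    intro b hb
    rw [mem_singleton] at hb
    apply sum_eq_zero
    intro w _
    rw [Pi.single_eq_of_ne hb]
    simp⟩

theorem blk_emb (n : ℕ) (g : Om (N n) → Y) : blk N (emb n g : L2 Y) n = g := by
  have h : blk N (emb n g : L2 Y) n = (Pi.single n g : ∀ n, Om (N n) → Y) n :=
    blk_glue N (Pi.single n g) n
  rw [h, Pi.single_eq_same]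

theorem blk_emb_ne {n n' : ℕ} (h : n' ≠ n) (g : Om (N n) → Y) :
    blk N (emb n g : L2 Y) n' = fun _ => 0 := by
  have h1 : blk N (emb n g : L2 Y) n' = (Pi.single n g : ∀ n, Om (N n) → Y) n' :=
    blk_glue N (Pi.single n g) n'
  rw [h1, Pi.single_eq_of_ne h]
  rfl

theorem norm_emb (n : ℕ) (g : Om (N n) → Y) : ‖(emb n g : L2 Y)‖ ^ 2 = ∑ w, ‖g w‖ ^ 2 := by
  have h1 := hasSum_blk N (emb n g)
  have h2 : HasSum (fun n' => ∑ w, ‖blk N (emb n g : L2 Y) n' w‖ ^ 2)
      (∑ w, ‖blk N (emb n g : L2 Y) n w‖ ^ 2) := by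
    apply hasSum_single
    intro n' hn'
    rw [blk_emb_ne hn']
    simp
  rw [blk_emb] at h2
  exact h1.unique h2

theorem emb_sum {ι : Type} (s : Finset ι) (n : ℕ) (g : ι → Om (N n) → Y) (c : ι → ℝ) :
    ∑ i ∈ s, c i • (emb n (g i) : L2 Y) = emb n (fun w => ∑ i ∈ s, c i • g i w) := by
  apply ext_L2 (N := N)
  intro n'
  have h1 : blk N ((∑ i ∈ s, c i • (emb n (g i) : L2 Y) : L2 Y) : ℕ → Y) n' =
      ∑ i ∈ s, c i • blk N (emb n (g i) : L2 Y) n' := by
    funext w
    unfold blk
    rw [lp.coeFn_sum, Finset.sum_apply, Finset.sum_apply]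
    rfl
  rw [h1]
  by_cases h : n' = n
  · subst h
    rw [blk_emb]
    funext w
    rw [Finset.sum_apply]
    apply sum_congr rfl
    intro i _
    rw [blk_emb]
    rfl
  · rw [blk_emb_ne h]
    funext w
    rw [Finset.sum_apply]
    apply sum_eq_zero
    intro i _
    rw [blk_emb_ne h]
    simp

theorem rad_eq_sg {N : ℕ} (e : Fin N × Bool) (w : Om N) : rad e w = sg (w e) := rfl

theorem sg_mul (a b : Bool) : sg a * sg b = sg (a == b) := by
  cases a <;> cases b <;> simp [sg]

theorem beq_beq (a b : Bool) : ((a == b) == b) = a := by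
  cases a <;> cases b <;> rfl

/-- Rademacher sums on a block -/
theorem radSq_emb (n : ℕ) (b : Bool) (y : Fin (N n) → Y) :
    radSq (fun j => (emb n (fun w => rad (j, b) w • y j) : L2 Y)) =
      (Fintype.card (Om (N n)) : ℝ) * radSq y := by
  have h1 : ∀ e : Fin (N n) → Bool,
      ‖∑ j, sg (e j) • (emb n (fun w => rad (j, b) w • y j) : L2 Y)‖ ^ 2 =
        ∑ w : Om (N n), ‖∑ j, sg (e j == w (j, b)) • y j‖ ^ 2 := by
    intro e
    rw [emb_sum, norm_emb]
    apply sum_congr rfl
    intro w _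
    congr 2
    apply sum_congr rfl
    intro j _
    rw [smul_smul, rad_eq_sg, sg_mul]
  have h0 : radSq (fun j => (emb n (fun w => rad (j, b) w • y j) : L2 Y)) =
      (∑ e : Fin (N n) → Bool, ∑ w : Om (N n), ‖∑ j, sg (e j == w (j, b)) • y j‖ ^ 2) /
        2 ^ N n := by
    unfold radSq
    refine congrArg (fun t : ℝ => t / 2 ^ N n) (sum_congr rfl fun e _ => ?_)
    exact h1 e
  have h2 : ∀ w : Om (N n), ∑ e : Fin (N n) → Bool, ‖∑ j, sg (e j == w (j, b)) • y j‖ ^ 2 =
      ∑ e : Fin (N n) → Bool, ‖∑ j, sg (e j) • y j‖ ^ 2 := by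
    intro w
    let fl : (Fin (N n) → Bool) ≃ (Fin (N n) → Bool) :=
      { toFun := fun e j => e j == w (j, b)
        invFun := fun e j => e j == w (j, b)
        left_inv := fun e => funext fun j => beq_beq (e j) (w (j, b))
        right_inv := fun e => funext fun j => beq_beq (e j) (w (j, b)) }
    exact Fintype.sum_equiv fl _ _ (fun e => rfl)
  rw [h0, sum_comm, sum_congr rfl (fun w _ => h2 w), sum_const, card_univ, nsmul_eq_mul,
    mul_div_assoc]
  rfl

/-- **The unit ball of `L(Y)` is R-bounded.** -/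
theorem unif_of_H [CompleteSpace X] [CompleteSpace Y] (J : L2 Y →L[ℂ] X) (P : X →L[ℂ] L2 Y)
    (hPJ : ∀ z, P (J z) = z) (hH : PropertyH X) :
    ∃ C : ℝ, 0 ≤ C ∧ ∀ (N : ℕ) (S : Fin N → (Y →L[ℂ] Y)), (∀ j, ‖S j‖ ≤ 1) → ∀ y : Fin N → Y,
      radSq (fun j => S j (y j)) ≤ C * radSq y := by
  by_contra hcon
  push Not at hcon
  have h1 : ∀ n : ℕ, ∃ (N : ℕ) (S : Fin N → (Y →L[ℂ] Y)), (∀ j, ‖S j‖ ≤ 1) ∧
      ∃ y : Fin N → Y, (n : ℝ) * radSq y < radSq (fun j => S j (y j)) :=
    fun n => hcon n (Nat.cast_nonneg n)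
  choose N S hS y hy using h1
  obtain ⟨C, hC, h⟩ := (sch (N := N) S hS).rbound_transfer le_rfl J P hPJ hH
  obtain ⟨n, hn⟩ := exists_nat_ge C
  have h2 := h (N n) (fun j => j.val + 1)
    (fun j => (emb n (fun w => rad (j, true) w • y n j) : L2 Y)) (fun j => by
      intro k
      apply ext_L2 (N := N)
      intro n'
      show blk N ((BE Y N k).op (emb n (fun w => rad (j, true) w • y n j)) : L2 Y) n' = _
      rw [BOp.blk_op]
      show Eb k (blk N (emb n (fun w => rad (j, true) w • y n j) : L2 Y) n') = _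
      by_cases hn' : n' = n
      · subst hn'
        rw [blk_emb, Eb_rad]
        split_ifs
        · rw [blk_emb]
        · rfl
      · rw [blk_emb_ne hn', Eb_zero]
        split_ifs
        · rw [blk_emb_ne hn']
        · rfl)
  have h3 : ∀ j : Fin (N n), (sch (N := N) S hS).U (j.val + 1)
      (emb n (fun w => rad (j, true) w • y n j) : L2 Y) =
      emb n (fun w => rad (j, false) w • S n j (y n j)) := by
    intro j
    apply ext_L2 (N := N)
    intro n'
    show blk N ((BU S hS (j.val + 1)).op (emb n (fun w => rad (j, true) w • y n j)) : L2 Y) n' = _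
    rw [BOp.blk_op]
    show Um (S n') (j.val + 1) (blk N (emb n (fun w => rad (j, true) w • y n j) : L2 Y) n') = _
    by_cases hn' : n' = n
    · subst hn'
      rw [blk_emb, blk_emb]
      unfold Um
      rw [dif_pos ⟨by omega, by have := j.isLt; omega⟩]
      exact Ub_rad (S n') j (y n' j)
    · rw [blk_emb_ne hn', blk_emb_ne hn', Um_zero]
  simp_rw [h3] at h2
  rw [radSq_emb, radSq_emb] at h2
  have h4 : (0:ℝ) < (Fintype.card (Om (N n)) : ℝ) := by exact_mod_cast Fintype.card_pos
  have h5 : radSq (fun j => S n j (y n j)) ≤ C * radSq (y n) := by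
    have h6 : (Fintype.card (Om (N n)) : ℝ) * radSq (fun j => S n j (y n j)) ≤
        (Fintype.card (Om (N n)) : ℝ) * (C * radSq (y n)) := by
      refine h2.trans (le_of_eq ?_)
      ring
    exact le_of_mul_le_mul_left h6 h4
  have h7 := hy n
  have h8 : C * radSq (y n) ≤ n * radSq (y n) :=
    mul_le_mul_of_nonneg_right hn (radSq_nonneg _)
  linarith

end Pool.Agent.RSec
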