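import Pool.Agent.RSec.Sect

/-!
The calculus of R-bounded sets: triangle inequality, contraction principle, finite unions,
absolutely convergent series.
-/

set_option autoImplicit false

open Filter Topology Set

namespace Pool.Agent.RSec

universe u

variable {X : Type u} [NormedAddCommGroup X] [NormedSpace ℂ X]

/-- the vector of all signed sums -/
noncomputable def radVec {n : ℕ} (x : Fin n → X) : PiLp 2 (fun _ : Fin n → Bool => X) :=
  WithLp.toLp 2 (fun e => ∑ k, sg (e k) • x k)

theorem norm_radVec {n : ℕ} (x : Fin n → X) : ‖radVec x‖ = Real.sqrt (2 ^ n) * radNorm x := by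
  rw [PiLp.norm_eq_of_L2]
  unfold radNorm radSq
  rw [← Real.sqrt_mul (by positivity)]
  congr 1
  rw [mul_div_cancel₀]
  · rfl
  · positivity

theorem radNorm_nonneg {n : ℕ} (x : Fin n → X) : 0 ≤ radNorm x := Real.sqrt_nonneg _

theorem radVec_add {n : ℕ} (x y : Fin n → X) :
    radVec (fun k => x k + y k) = radVec x + radVec y := by
  ext e
  simp only [radVec, PiLp.add_apply, smul_add, Finset.sum_add_distrib]

theorem radNorm_add_le {n : ℕ} (x y : Fin n → X) :
    radNorm (fun k => x k + y k) ≤ radNorm x + radNorm y := by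
  have h := norm_add_le (radVec x) (radVec y)
  rw [← radVec_add, norm_radVec, norm_radVec, norm_radVec, ← mul_add] at h
  exact le_of_mul_le_mul_left h (Real.sqrt_pos.mpr (by positivity))

theorem radNorm_zero {n : ℕ} : radNorm (fun _ : Fin n => (0 : X)) = 0 := by
  unfold radNorm radSq
  simp

theorem radNorm_sum_le {n : ℕ} {ι : Type} (s : Finset ι) (x : ι → Fin n → X) :
    radNorm (fun k => ∑ i ∈ s, x i k) ≤ ∑ i ∈ s, radNorm (x i) := by
  classical
  induction s using Finset.induction_on with
  | empty => simp [radNorm_zero]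
  | insert i s hi ih =>
    rw [Finset.sum_insert hi]
    have h1 : (fun k => ∑ j ∈ insert i s, x j k) = fun k => x i k + ∑ j ∈ s, x j k := by
      funext k
      rw [Finset.sum_insert hi]
    rw [h1]
    exact (radNorm_add_le _ _).trans (by gcongr)

theorem radNorm_smul {n : ℕ} (c : ℂ) (x : Fin n → X) :
    radNorm (fun k => c • x k) = ‖c‖ * radNorm x := by
  unfold radNorm
  rw [radSq_smul, Real.sqrt_mul (sq_nonneg _), Real.sqrt_sq (norm_nonneg _)]

theorem radNorm_map_le {n : ℕ} (P : X →L[ℂ] X) (x : Fin n → X) :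
    radNorm (fun k => P (x k)) ≤ ‖P‖ * radNorm x := by
  unfold radNorm
  rw [← Real.sqrt_sq (norm_nonneg P), ← Real.sqrt_mul (sq_nonneg _)]
  exact Real.sqrt_le_sqrt (radSq_map_le P x)

theorem sg_not (b : Bool) : sg (!b) = - sg b := by cases b <;> simp [sg]

theorem radNorm_flip {n : ℕ} (x : Fin n → X) (k : Fin n) :
    radNorm (Function.update x k (-x k)) = radNorm x := by
  classical
  unfold radNorm radSq
  congr 2
  let φ : (Fin n → Bool) ≃ (Fin n → Bool) :=
    { toFun := fun e => Function.update e k (!e k)
      invFun := fun e => Function.update e k (!e k)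
      left_inv := by intro e; funext j; by_cases h : j = k <;> simp [Function.update, h]
      right_inv := by intro e; funext j; by_cases h : j = k <;> simp [Function.update, h] }
  rw [← Equiv.sum_comp φ]
  apply Finset.sum_congr rfl
  intro e _
  congr 2
  apply Finset.sum_congr rfl
  intro j _
  by_cases h : j = k
  · subst h
    simp [φ, sg_not]
  · simp [φ, h]

theorem radNorm_update_le {n : ℕ} (x : Fin n → X) (k : Fin n) {a : ℝ} (ha : |a| ≤ 1) :
    radNorm (Function.update x k (a • x k)) ≤ radNorm x := by
  classical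
  obtain ⟨h1, h2⟩ := abs_le.mp ha
  have e1 : Function.update x k (a • x k)
      = fun j => (((1 + a) / 2 : ℝ) : ℂ) • x j +
          (((1 - a) / 2 : ℝ) : ℂ) • Function.update x k (-x k) j := by
    funext j
    by_cases h : j = k
    · subst h
      simp only [Function.update_self]
      rw [smul_neg, ← sub_eq_add_neg, ← sub_smul]
      have : (((1 + a) / 2 : ℝ) : ℂ) - (((1 - a) / 2 : ℝ) : ℂ) = (a : ℂ) := by
        push_cast
        ring
      rw [this]
      rfl
    · simp only [ne_eq, h, not_false_eq_true, Function.update_of_ne]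
      rw [← add_smul]
      have : (((1 + a) / 2 : ℝ) : ℂ) + (((1 - a) / 2 : ℝ) : ℂ) = 1 := by
        push_cast
        ring
      rw [this, one_smul]
  rw [e1]
  refine (radNorm_add_le _ _).trans ?_
  rw [radNorm_smul, radNorm_smul, radNorm_flip, Complex.norm_real, Complex.norm_real,
    Real.norm_eq_abs, Real.norm_eq_abs, abs_of_nonneg (by linarith), abs_of_nonneg (by linarith)]
  have := radNorm_nonneg x
  nlinarith

theorem radNorm_real_le {n : ℕ} (x : Fin n → X) {a : Fin n → ℝ} (ha : ∀ k, |a k| ≤ 1) :
    radNorm (fun k => a k • x k) ≤ radNorm x := by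
  classical
  have h : ∀ s : Finset (Fin n), radNorm (fun k => if k ∈ s then a k • x k else x k)
      ≤ radNorm x := by
    intro s
    induction s using Finset.induction_on with
    | empty => simp
    | insert i s hi ih =>
      have e1 : (fun k => if k ∈ insert i s then a k • x k else x k)
          = Function.update (fun k => if k ∈ s then a k • x k else x k) i
            (a i • (fun k => if k ∈ s then a k • x k else x k) i) := by
        funext k
        by_cases h : k = i
        · subst h
          simp [hi]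
        · simp [h]
      rw [e1]
      exact (radNorm_update_le _ i (ha i)).trans ih
  have h1 := h Finset.univ
  simpa using h1

theorem radNorm_complex_le {n : ℕ} (x : Fin n → X) {c : Fin n → ℂ} {b : ℝ} (hb : 0 ≤ b)
    (hc : ∀ k, ‖c k‖ ≤ b) : radNorm (fun k => c k • x k) ≤ 2 * b * radNorm x := by
  rcases hb.eq_or_lt with h0 | hpos
  · have h1 : ∀ k, c k = 0 := fun k => norm_le_zero_iff.mp ((hc k).trans h0.symm.le)
    have h2 : (fun k => c k • x k) = fun _ => 0 := by
      funext k
      rw [h1 k, zero_smul]
    rw [h2, radNorm_zero, ← h0]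
    simp
  · have key : ∀ a : Fin n → ℝ, (∀ k, |a k| ≤ b) → radNorm (fun k => ((a k : ℝ) : ℂ) • x k)
        ≤ b * radNorm x := by
      intro a ha
      have h1 : (fun k => ((a k : ℝ) : ℂ) • x k)
          = fun k => ((b : ℝ) : ℂ) • ((a k / b) • x k) := by
        funext k
        have : (a k / b) • x k = ((a k / b : ℝ) : ℂ) • x k := rfl
        rw [this, smul_smul, ← Complex.ofReal_mul, mul_div_cancel₀ _ hpos.ne']
      rw [h1, radNorm_smul, Complex.norm_real, Real.norm_eq_abs, abs_of_pos hpos]
      apply mul_le_mul_of_nonneg_left _ hb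
      apply radNorm_real_le
      intro k
      rw [abs_div, abs_of_pos hpos, div_le_one hpos]
      exact ha k
    have h1 : (fun k => c k • x k)
        = fun k => (((c k).re : ℝ) : ℂ) • x k + Complex.I • ((((c k).im : ℝ) : ℂ) • x k) := by
      funext k
      rw [smul_smul, ← add_smul]
      congr 1
      rw [mul_comm]
      exact (Complex.re_add_im (c k)).symm
    rw [h1]
    refine (radNorm_add_le _ _).trans ?_
    rw [radNorm_smul, Complex.norm_I, one_mul]
    have e1 := key (fun k => (c k).re) (fun k => (Complex.abs_re_le_norm _).trans (hc k))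
    have e2 := key (fun k => (c k).im) (fun k => (Complex.abs_im_le_norm _).trans (hc k))
    linarith

theorem continuous_radNorm {n : ℕ} : Continuous (radNorm : (Fin n → X) → ℝ) := by
  unfold radNorm radSq
  fun_prop

/-- absolutely convergent series of operators with bounded coefficients -/
theorem RBounded.of_series {T : ℕ → X →L[ℂ] X} {b : ℕ → ℝ} (hb : ∀ k, 0 ≤ b k)
    (hs : Summable fun k => b k * ‖T k‖) {S : Set (X →L[ℂ] X)}
    (hS : ∀ U ∈ S, ∃ c : ℕ → ℂ, (∀ k, ‖c k‖ ≤ b k) ∧ HasSum (fun k => c k • T k) U) :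
    RBounded S := by
  refine ⟨2 * ∑' k, b k * ‖T k‖, ?_⟩
  intro n t ht x
  choose c hc hsum using fun j => hS (t j) (ht j)
  have h1 : Tendsto (fun N => radNorm fun j => ∑ k ∈ Finset.range N, c j k • T k (x j)) atTop
      (𝓝 (radNorm fun j => t j (x j))) := by
    have h2 : Tendsto (fun (N : ℕ) (j : Fin n) => ∑ k ∈ Finset.range N, c j k • T k (x j)) atTop
        (𝓝 fun j => t j (x j)) := by
      rw [tendsto_pi_nhds]
      intro j
      have h3 := (hsum j).tendsto_sum_nat
      have h4 : Tendsto (fun N => (∑ k ∈ Finset.range N, c j k • T k) (x j)) atTop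
          (𝓝 (t j (x j))) :=
        ((ContinuousLinearMap.apply ℂ X (x j)).continuous.tendsto _).comp h3
      refine h4.congr fun N => ?_
      simp
    exact (continuous_radNorm.tendsto _).comp h2
  apply le_of_tendsto h1
  filter_upwards with N
  calc radNorm (fun j => ∑ k ∈ Finset.range N, c j k • T k (x j))
      ≤ ∑ k ∈ Finset.range N, radNorm (fun j => c j k • T k (x j)) := radNorm_sum_le _ _
    _ ≤ ∑ k ∈ Finset.range N, 2 * (b k * ‖T k‖) * radNorm x := by
        apply Finset.sum_le_sum
        intro k _
        refine (radNorm_complex_le (fun j => T k (x j)) (hb k) (fun j => hc j k)).trans ?_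
        have h5 := radNorm_map_le (T k) x
        have h6 := mul_le_mul_of_nonneg_left h5 (hb k)
        nlinarith [h6]
    _ = (2 * ∑ k ∈ Finset.range N, b k * ‖T k‖) * radNorm x := by
        rw [← Finset.sum_mul, Finset.mul_sum]
    _ ≤ (2 * ∑' k, b k * ‖T k‖) * radNorm x := by
        apply mul_le_mul_of_nonneg_right _ (radNorm_nonneg x)
        apply mul_le_mul_of_nonneg_left _ (by norm_num)
        exact hs.sum_le_tsum _ (fun k _ => mul_nonneg (hb k) (norm_nonneg _))

theorem RBounded.mono {S S' : Set (X →L[ℂ] X)} (h : RBounded S') (hs : S ⊆ S') : RBounded S := by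
  obtain ⟨C, hC⟩ := h
  exact ⟨C, fun n t ht x => hC n t (fun k => hs (ht k)) x⟩

theorem RBounded.empty : RBounded (∅ : Set (X →L[ℂ] X)) := by
  refine ⟨0, fun n t ht x => ?_⟩
  rcases n with _ | n
  · have : radNorm (fun k : Fin 0 => t k (x k)) = 0 := by
      have h0 : (fun k : Fin 0 => t k (x k)) = fun _ => 0 := by
        funext k
        exact k.elim0
      rw [h0, radNorm_zero]
    rw [this, zero_mul]
  · exact absurd (ht 0) (Set.notMem_empty _)

theorem RBounded.nonneg_const {S : Set (X →L[ℂ] X)} (h : RBounded S) :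
    ∃ C : ℝ, 0 ≤ C ∧ ∀ (n : ℕ) (t : Fin n → (X →L[ℂ] X)), (∀ k, t k ∈ S) → ∀ x : Fin n → X,
      radNorm (fun k => t k (x k)) ≤ C * radNorm x := by
  obtain ⟨C, hC⟩ := h
  refine ⟨max C 0, le_max_right _ _, fun n t ht x => (hC n t ht x).trans ?_⟩
  exact mul_le_mul_of_nonneg_right (le_max_left _ _) (radNorm_nonneg x)

theorem RBounded.union {S S' : Set (X →L[ℂ] X)} (h : RBounded S) (h' : RBounded S') :
    RBounded (S ∪ S') := by
  classical
  rcases S.eq_empty_or_nonempty with rfl | ⟨s0, hs0⟩
  · rwa [Set.empty_union]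
  rcases S'.eq_empty_or_nonempty with rfl | ⟨s0', hs0'⟩
  · rwa [Set.union_empty]
  obtain ⟨C, hC0, hC⟩ := h.nonneg_const
  obtain ⟨C', hC0', hC'⟩ := h'.nonneg_const
  refine ⟨C + C', fun n t ht x => ?_⟩
  have e1 : (fun k => t k (x k)) = fun k =>
      (if t k ∈ S then t k else s0) ((if t k ∈ S then (1 : ℝ) else 0) • x k) +
      (if t k ∈ S then s0' else t k) ((if t k ∈ S then (0 : ℝ) else 1) • x k) := by
    funext k
    by_cases hk : t k ∈ S
    · simp [hk]
    · simp [hk]
  rw [e1]
  refine (radNorm_add_le _ _).trans ?_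
  rw [add_mul]
  apply add_le_add
  · refine (hC n _ (fun k => ?_) _).trans ?_
    · by_cases hk : t k ∈ S
      · simp [hk]
      · simp [hk, hs0]
    · apply mul_le_mul_of_nonneg_left _ hC0
      apply radNorm_real_le
      intro k
      by_cases hk : t k ∈ S <;> simp [hk]
  · refine (hC' n _ (fun k => ?_) _).trans ?_
    · by_cases hk : t k ∈ S
      · simp [hk, hs0']
      · have := (ht k).resolve_left hk
        simp [hk, this]
    · apply mul_le_mul_of_nonneg_left _ hC0'
      apply radNorm_real_le
      intro k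
      by_cases hk : t k ∈ S <;> simp [hk]

end Pool.Agent.RSec
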