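import Pool.Agent.RSec.Hilb

/-!
Sanity check of the definitions: Hilbert spaces have property (H).
-/

set_option autoImplicit false

open Finset

namespace Pool.Agent.RSec

universe u

theorem radSq_inner {H : Type u} [NormedAddCommGroup H] [InnerProductSpace ℂ H] {n : ℕ}
    (x : Fin n → H) : radSq x = ∑ k, ‖x k‖ ^ 2 := by
  unfold radSq
  have h1 : ∀ e : Fin n → Bool, ‖∑ k, sg (e k) • x k‖ ^ 2 =
      ∑ i, ∑ j, (sg (e i) * sg (e j)) * (inner ℂ (x i) (x j)).re := by
    intro e
    have h2 : ∀ k, sg (e k) • x k = ((sg (e k) : ℝ) : ℂ) • x k := fun k => rfl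
    rw [← inner_self_eq_norm_sq (𝕜 := ℂ)]
    simp_rw [h2]
    rw [sum_inner, map_sum]
    apply sum_congr rfl
    intro i _
    rw [inner_sum, map_sum]
    apply sum_congr rfl
    intro j _
    rw [inner_smul_left, inner_smul_right, Complex.conj_ofReal, ← mul_assoc,
      ← Complex.ofReal_mul]
    exact Complex.re_ofReal_mul _ _
  rw [sum_congr rfl (fun e _ => h1 e), sum_comm, sum_div]
  apply sum_congr rfl
  intro i _
  rw [sum_comm, sum_eq_single i]
  · rw [← sum_mul]
    simp_rw [sg_sq]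
    rw [sum_const, card_univ, Fintype.card_fun, Fintype.card_fin, Fintype.card_bool]
    have h3 : (inner ℂ (x i) (x i)).re = ‖x i‖ ^ 2 := inner_self_eq_norm_sq (𝕜 := ℂ) (x i)
    rw [h3]
    simp
  · intro j _ hj
    rw [← sum_mul, sum_sign hj.symm, zero_mul]
  · intro h
    exact absurd (mem_univ i) h

/-- Hilbert spaces have property (H) -/
theorem propertyH_of_inner {H : Type u} [NormedAddCommGroup H] [InnerProductSpace ℂ H] :
    PropertyH H := by
  rintro A ⟨_, _, s, hs, hs', hA1, hA2⟩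
  have hpi := Real.pi_pos
  obtain ⟨C, hC⟩ := hA2 (Real.pi / 2) hs' (by linarith)
  refine ⟨Real.pi / 2, by linarith, by linarith, |C|, ?_⟩
  intro n t ht x
  unfold radNorm
  rw [← Real.sqrt_sq (abs_nonneg C), ← Real.sqrt_mul (sq_nonneg _)]
  apply Real.sqrt_le_sqrt
  rw [radSq_inner, radSq_inner, mul_sum]
  apply sum_le_sum
  intro k _
  rw [← mul_pow]
  apply pow_le_pow_left₀ (norm_nonneg _)
  refine ((t k).le_opNorm _).trans ?_
  apply mul_le_mul_of_nonneg_right _ (norm_nonneg _)
  obtain ⟨l, hl, R, hR, hT⟩ := ht k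
  rw [hT]
  exact (hC l hl R hR).trans (le_abs_self C)

end Pool.Agent.RSec
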