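import Pool.Agent.RSec.BddRes

/-!
Banach spaces `Y` on which every bounded operator has a scalar part: every negative generator
of an analytic semigroup on `Y` is bounded and R-sectorial, and `Y` is not a Hilbert space.
-/

set_option autoImplicit false

open Filter Topology Set

namespace Pool.Agent.RSec

universe u

/-- a scalar part `a : L(Y) → ℂ` -/
structure ScalarPart (Y : Type u) [NormedAddCommGroup Y] [NormedSpace ℂ Y] where
  /-- the scalar part of an operator -/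
  a : (Y →L[ℂ] Y) →ₗ[ℂ] ℂ
  a_one : a 1 = 1
  /-- continuity for bounded strong convergence -/
  a_lim : ∀ (T : ℕ → Y →L[ℂ] Y) (S : Y →L[ℂ] Y) (C : ℝ), (∀ n, ‖T n‖ ≤ C) →
    (∀ y, Tendsto (fun n => T n y) atTop (𝓝 (S y))) → Tendsto (fun n => a (T n)) atTop (𝓝 (a S))
  /-- operators with non-zero scalar part are of Fredholm type -/
  a_sep : ∀ J : Y →L[ℂ] Y, a J ≠ 0 → ∀ (y : ℕ → Y) (C δ : ℝ), (∀ n, ‖y n‖ ≤ C) → 0 < δ →
    (∀ m n, m ≠ n → δ ≤ ‖y m - y n‖) → ¬ Tendsto (fun n => J (y n)) atTop (𝓝 0)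
  /-- the kernel is a right ideal -/
  a_mul : ∀ A S : Y →L[ℂ] Y, a A = 0 → a (A * S) = 0
  /-- bounded sequences have weakly convergent subsequences -/
  a_wk : ∀ (y : ℕ → Y) (C : ℝ), (∀ n, ‖y n‖ ≤ C) → ∃ φ : ℕ → ℕ, StrictMono φ ∧ ∃ p : Y,
    ∀ f : Y →L[ℂ] ℂ, Tendsto (fun n => f (y (φ n))) atTop (𝓝 (f p))

variable {Y : Type u} [NormedAddCommGroup Y] [NormedSpace ℂ Y]

omit [NormedSpace ℂ Y] in
/-- a sequence without convergent subsequences has a separated subsequence -/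
theorem exists_separated [CompleteSpace Y] (x : ℕ → Y)
    (h : ¬ ∃ φ : ℕ → ℕ, StrictMono φ ∧ ∃ p, Tendsto (x ∘ φ) atTop (𝓝 p)) :
    ∃ δ : ℝ, 0 < δ ∧ ∃ k : ℕ → ℕ, Function.Injective k ∧
      ∀ m n, m ≠ n → δ ≤ ‖x (k m) - x (k n)‖ := by
  classical
  by_cases htb : TotallyBounded (range x)
  · exfalso
    apply h
    have hK : IsCompact (closure (range x)) :=
      htb.closure.isCompact_of_isClosed isClosed_closure
    obtain ⟨p, _, φ, hφ, hp⟩ := hK.tendsto_subseq (fun n => subset_closure (mem_range_self n))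
    exact ⟨φ, hφ, p, hp⟩
  · rw [Metric.totallyBounded_iff] at htb
    push Not at htb
    obtain ⟨δ, hδ, ht⟩ := htb
    have hsymm : Std.Symm fun m n : ℕ => δ ≤ ‖x m - x n‖ :=
      ⟨fun m n hmn => by rw [norm_sub_rev]; exact hmn⟩
    obtain ⟨k, -, hk⟩ := exists_seq_of_forall_finset_exists' (fun _ : ℕ => True)
      (fun m n => δ ≤ ‖x m - x n‖) (by
        intro s _
        have h1 := ht (x '' (s : Set ℕ)) (s.finite_toSet.image x)
        rw [not_subset] at h1
        obtain ⟨z, ⟨n, rfl⟩, hn⟩ := h1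
        refine ⟨n, trivial, fun m hm => ?_⟩
        by_contra hlt
        push Not at hlt
        apply hn
        rw [mem_iUnion₂]
        refine ⟨x m, ⟨m, hm, rfl⟩, ?_⟩
        rw [Metric.mem_ball, dist_eq_norm, norm_sub_rev]
        exact hlt)
    refine ⟨δ, hδ, k, ?_, fun m n hmn => hk hmn⟩
    intro m n hmn
    by_contra hne
    have h2 : δ ≤ ‖x (k m) - x (k n)‖ := hk hne
    rw [hmn, sub_self, norm_zero] at h2
    linarith

/-- Hahn-Banach for closed subspaces, sequential form -/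
theorem mem_of_weak_limit {W : Submodule ℂ Y} (hW : IsClosed (W : Set Y)) {x : ℕ → Y} {p : Y}
    (hx : ∀ n, x n ∈ W) (hp : ∀ f : Y →L[ℂ] ℂ, Tendsto (fun n => f (x n)) atTop (𝓝 (f p))) :
    p ∈ W := by
  by_contra hpW
  have hconv : Convex ℝ (W : Set Y) := (W.restrictScalars ℝ).convex
  obtain ⟨f, u, hfu, hu⟩ := RCLike.geometric_hahn_banach_closed_point (𝕜 := ℂ) hconv hW hpW
  have hre : Tendsto (fun n => RCLike.re (f (x n))) atTop (𝓝 (RCLike.re (f p))) :=
    (RCLike.continuous_re.tendsto _).comp (hp f)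
  have hle : RCLike.re (f p) ≤ u := le_of_tendsto' hre (fun n => (hfu _ (hx n)).le)
  linarith

namespace ScalarPart

variable (s : ScalarPart Y)

include s

theorem conv_subseq [CompleteSpace Y] {J : Y →L[ℂ] Y} (hJ : s.a J ≠ 0) {x : ℕ → Y} {C : ℝ}
    (hx : ∀ n, ‖x n‖ ≤ C) (h0 : Tendsto (fun n => J (x n)) atTop (𝓝 0)) :
    ∃ φ : ℕ → ℕ, StrictMono φ ∧ ∃ p, Tendsto (x ∘ φ) atTop (𝓝 p) := by
  by_contra hcon
  obtain ⟨δ, hδ, k, hk, hsep⟩ := exists_separated x hcon
  exact s.a_sep J hJ (fun n => x (k n)) C δ (fun n => hx _) hδ hsep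
    (h0.comp hk.nat_tendsto_atTop)

theorem bddBelow [CompleteSpace Y] {J K : Y →L[ℂ] Y} (hJ : s.a J ≠ 0) {W : Submodule ℂ Y}
    (hW : IsClosed (W : Set Y)) (hinj : ∀ w ∈ W, K w = 0 → w = 0)
    (hKJ : ∀ x : ℕ → Y, (∀ n, x n ∈ W) → Tendsto (fun n => K (x n)) atTop (𝓝 0) →
      Tendsto (fun n => J (x n)) atTop (𝓝 0)) :
    ∃ c : ℝ, 0 < c ∧ ∀ w ∈ W, c * ‖w‖ ≤ ‖K w‖ := by
  by_contra hcon
  push Not at hcon
  choose w hwW hw using fun n : ℕ => hcon (1 / ((n : ℝ) + 1)) (by positivity)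
  have hw0 : ∀ n, 0 < ‖w n‖ := by
    intro n
    by_contra h0
    have h1 : ‖w n‖ = 0 := le_antisymm (not_lt.mp h0) (norm_nonneg _)
    have h2 := hw n
    rw [h1, mul_zero] at h2
    exact absurd h2 (not_lt.mpr (norm_nonneg _))
  set x : ℕ → Y := fun n => ((‖w n‖⁻¹ : ℝ) : ℂ) • w n with hxdef
  have hx1 : ∀ n, ‖x n‖ = 1 := by
    intro n
    rw [hxdef]
    simp only
    rw [norm_smul, Complex.norm_real, norm_inv, norm_norm, inv_mul_cancel₀ (hw0 n).ne']
  have hxW : ∀ n, x n ∈ W := fun n => W.smul_mem _ (hwW n)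
  have hKx : Tendsto (fun n => K (x n)) atTop (𝓝 0) := by
    rw [tendsto_zero_iff_norm_tendsto_zero]
    refine squeeze_zero (fun n => norm_nonneg _) (fun n => ?_) tendsto_one_div_add_atTop_nhds_zero_nat
    rw [hxdef]
    simp only
    rw [map_smul, norm_smul, Complex.norm_real, norm_inv, norm_norm,
      inv_mul_le_iff₀ (hw0 n), mul_comm]
    exact (hw n).le
  obtain ⟨φ, hφ, p, hp⟩ := s.conv_subseq hJ (fun n => (hx1 n).le) (hKJ x hxW hKx)
  have hpn : ‖p‖ = 1 := by
    have h1 : Tendsto (fun n => ‖x (φ n)‖) atTop (𝓝 ‖p‖) := (continuous_norm.tendsto _).comp hp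
    have h2 : Tendsto (fun n => ‖x (φ n)‖) atTop (𝓝 1) := by
      simp only [hx1]
      exact tendsto_const_nhds
    exact tendsto_nhds_unique h1 h2
  have hpW : p ∈ W := hW.mem_of_tendsto hp (Eventually.of_forall fun n => hxW _)
  have hKp : K p = 0 := by
    have h1 : Tendsto (fun n => K (x (φ n))) atTop (𝓝 (K p)) := (K.continuous.tendsto _).comp hp
    exact tendsto_nhds_unique h1 (hKx.comp hφ.tendsto_atTop)
  have := hinj p hpW hKp
  rw [this, norm_zero] at hpn
  norm_num at hpn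

/-- an unbounded generator is in fact bounded -/
theorem exists_bounded [CompleteSpace Y] {A : Y →ₗ.[ℂ] Y} (hd : Dense (A.domain : Set Y))
    {R : ℕ → Y →L[ℂ] Y} (hR : ∀ n : ℕ, IsResolvent A (-((n : ℂ) + 1)) (R n)) {C : ℝ}
    (hC : ∀ n : ℕ, ‖(-((n : ℂ) + 1)) • R n‖ ≤ C) :
    ∃ A' : Y →L[ℂ] Y, ∀ x, ∃ h : x ∈ A.domain, A ⟨x, h⟩ = A' x := by
  set l : ℕ → ℂ := fun n => -((n : ℂ) + 1) with hl
  have hln : ∀ n, ‖l n‖ = (n : ℝ) + 1 := by
    intro n
    rw [hl]
    simp only [norm_neg]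
    have : ((n : ℂ) + 1) = ((n + 1 : ℕ) : ℂ) := by push_cast; rfl
    rw [this, Complex.norm_natCast]
    push_cast
    rfl
  have hl0 : ∀ n, l n ≠ 0 := by
    intro n h0
    have h1 := hln n
    rw [h0, norm_zero] at h1
    have : (0 : ℝ) ≤ n := Nat.cast_nonneg n
    linarith
  have hC0 : 0 ≤ C := (norm_nonneg _).trans (hC 0)
  -- strong convergence
  have hdom : ∀ x ∈ A.domain, Tendsto (fun n => (l n • R n) x) atTop (𝓝 x) := by
    intro x hx
    rw [tendsto_iff_norm_sub_tendsto_zero]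
    have hA : Tendsto (fun n : ℕ => (1 / ((n : ℝ) + 1)) * (C * ‖A ⟨x, hx⟩‖)) atTop (𝓝 0) := by
      have := tendsto_one_div_add_atTop_nhds_zero_nat (𝕜 := ℝ)
      simpa using this.mul_const (C * ‖A ⟨x, hx⟩‖)
    refine squeeze_zero (fun n => norm_nonneg _) (fun n => ?_) hA
    have h1 := (hR n).2 ⟨x, hx⟩
    simp only at h1
    rw [map_sub, map_smul] at h1
    have h2 : (l n • R n) x - x = R n (A ⟨x, hx⟩) := by
      rw [smul_apply]
      rw [sub_eq_iff_eq_add, ← sub_eq_iff_eq_add']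
      exact h1
    rw [h2]
    have h3 : R n (A ⟨x, hx⟩) = (l n)⁻¹ • ((l n • R n) (A ⟨x, hx⟩)) := by
      rw [smul_apply, smul_smul, inv_mul_cancel₀ (hl0 n), one_smul]
    rw [h3, norm_smul, norm_inv, hln, one_div]
    apply mul_le_mul_of_nonneg_left _ (by positivity)
    exact (ContinuousLinearMap.le_opNorm _ _).trans
      (mul_le_mul_of_nonneg_right (hC n) (norm_nonneg _))
  have hall : ∀ x, Tendsto (fun n => (l n • R n) x) atTop (𝓝 x) := by
    intro x
    rw [Metric.tendsto_atTop]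
    intro ε hε
    obtain ⟨z, hz, hxz⟩ := Metric.mem_closure_iff.mp (hd x) (ε / (2 * (C + 1)) / 2)
      (by positivity)
    obtain ⟨N, hN⟩ := Metric.tendsto_atTop.mp (hdom z hz) (ε / 2) (by positivity)
    refine ⟨N, fun n hn => ?_⟩
    have h1 := hN n hn
    rw [dist_eq_norm] at h1 hxz ⊢
    have h2 : (l n • R n) x - x = (l n • R n) (x - z) + ((l n • R n) z - z) + (z - x) := by
      rw [map_sub]
      abel
    rw [h2]
    have h3 : ‖(l n • R n) (x - z)‖ ≤ C * ‖x - z‖ :=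
      (ContinuousLinearMap.le_opNorm _ _).trans
        (mul_le_mul_of_nonneg_right (hC n) (norm_nonneg _))
    have h4 : ‖z - x‖ = ‖x - z‖ := norm_sub_rev _ _
    have h5 : (C + 1) * ‖x - z‖ < ε / 4 := by
      have h6 : (C + 1) * ‖x - z‖ < (C + 1) * (ε / (2 * (C + 1)) / 2) :=
        mul_lt_mul_of_pos_left hxz (by positivity)
      have h7 : (C + 1) * (ε / (2 * (C + 1)) / 2) = ε / 4 := by
        field_simp
        ring
      linarith
    calc ‖(l n • R n) (x - z) + ((l n • R n) z - z) + (z - x)‖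
        ≤ ‖(l n • R n) (x - z)‖ + ‖(l n • R n) z - z‖ + ‖z - x‖ := norm_add₃_le
      _ < ε := by
          rw [h4]
          nlinarith [norm_nonneg (x - z)]
  have halim := s.a_lim (fun n => l n • R n) 1 C hC hall
  rw [s.a_one] at halim
  have hev : ∀ᶠ n in atTop, s.a (l n • R n) ≠ 0 := by
    have : (1 : ℂ) ≠ 0 := one_ne_zero
    exact halim.eventually_ne this
  obtain ⟨n, hn⟩ := hev.exists
  set J : Y →L[ℂ] Y := l n • R n with hJ
  have hJinj : ∀ x, J x = 0 → x = 0 := by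
    intro x hx
    have hRx : R n x = 0 := by
      rw [hJ, smul_apply] at hx
      exact (smul_eq_zero.mp hx).resolve_left (hl0 n)
    obtain ⟨h, h1⟩ := (hR n).1 x
    have h2 : A ⟨R n x, h⟩ = 0 := by
      have : (⟨R n x, h⟩ : A.domain) = 0 := Subtype.ext hRx
      rw [this]
      exact A.map_zero
    rw [h2, hRx, smul_zero, sub_zero] at h1
    exact h1.symm
  obtain ⟨c, hc, hbelow⟩ := s.bddBelow (J := J) (K := J) hn (W := ⊤) isClosed_univ
    (fun w _ hw => hJinj w hw) (fun x _ h => h)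
  have hanti : AntilipschitzWith (Real.toNNReal c⁻¹) J := by
    apply AddMonoidHomClass.antilipschitz_of_bound
    intro x
    have := hbelow x trivial
    rw [Real.coe_toNNReal _ (inv_nonneg.mpr hc.le), inv_mul_eq_div, le_div_iff₀ hc, mul_comm]
    exact this
  have hclosed : IsClosed (range J) := hanti.isClosed_range J.uniformContinuous
  have hdense : DenseRange J := by
    apply hd.mono
    intro x hx
    have h1 := (hR n).2 ⟨x, hx⟩
    refine ⟨(l n)⁻¹ • (l n • x - A ⟨x, hx⟩), ?_⟩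
    rw [hJ, smul_apply, map_smul, smul_smul, mul_inv_cancel₀ (hl0 n),
      one_smul]
    exact h1
  have hsurj : Function.Surjective J := by
    rw [← range_eq_univ, ← hclosed.closure_eq]
    exact hdense.closure_range
  have hker : LinearMap.ker (J : Y →ₗ[ℂ] Y) = ⊥ := by
    rw [LinearMap.ker_eq_bot']
    exact hJinj
  have hrange : LinearMap.range (J : Y →ₗ[ℂ] Y) = ⊤ := LinearMap.range_eq_top.mpr hsurj
  set e : Y ≃L[ℂ] Y := ContinuousLinearEquiv.ofBijective J hker hrange with he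
  have heJ : ∀ x, J (e.symm x) = x := by
    intro x
    have h1 : e (e.symm x) = x := e.apply_symm_apply x
    exact h1
  refine ⟨l n • (1 - (e.symm : Y →L[ℂ] Y)), fun x => ?_⟩
  obtain ⟨h, h1⟩ := (hR n).1 (l n • e.symm x)
  have h2 : R n (l n • e.symm x) = x := by
    have h3 := heJ x
    rw [hJ, smul_apply] at h3
    rw [map_smul]
    exact h3
  have hx : x ∈ A.domain := by
    rw [← h2]
    exact h
  refine ⟨hx, ?_⟩
  have h4 : (⟨R n (l n • e.symm x), h⟩ : A.domain) = ⟨x, hx⟩ := Subtype.ext h2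
  rw [h4, h2] at h1
  rw [smul_apply, sub_apply,
    one_apply_eq_self, smul_sub]
  have h5 : A ⟨x, hx⟩ = l n • x - l n • e.symm x := by
    rw [← h1]
    abel
  exact h5

end ScalarPart

end Pool.Agent.RSec
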