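import Pool.Agent.RSec.ScalarPart

/-!
Property (H) for spaces with a scalar part.
-/

set_option autoImplicit false

open Filter Topology Set

namespace Pool.Agent.RSec

universe u

variable {Y : Type u} [NormedAddCommGroup Y] [NormedSpace ℂ Y]

namespace ScalarPart

variable (s : ScalarPart Y)

include s

/-- a bounded negative generator has a pseudo-inverse -/
theorem exists_pseudo [CompleteSpace Y] {A : Y →L[ℂ] Y} {R : ℕ → Y →L[ℂ] Y}
    (hR : ∀ n : ℕ, BRes A (-((1 / ((n : ℝ) + 1) : ℝ) : ℂ)) (R n)) {C : ℝ}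
    (hC : ∀ n : ℕ, ‖(-((1 / ((n : ℝ) + 1) : ℝ) : ℂ)) • R n‖ ≤ C) :
    ∃ B Q : Y →L[ℂ] Y, A * B = Q ∧ A * Q = A ∧ Q * B = B := by
  set l : ℕ → ℂ := fun n => -((1 / ((n : ℝ) + 1) : ℝ) : ℂ) with hl
  have hln : ∀ n, ‖l n‖ = 1 / ((n : ℝ) + 1) := by
    intro n
    rw [hl]
    simp only [norm_neg, Complex.norm_real, Real.norm_eq_abs]
    exact abs_of_nonneg (by positivity)
  have hC0 : 0 ≤ C := (norm_nonneg _).trans (hC 0)
  set J : ℕ → Y →L[ℂ] Y := fun n => l n • R n with hJ
  have hJC : ∀ n, ‖J n‖ ≤ C := hC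
  have hJle : ∀ n y, ‖J n y‖ ≤ C * ‖y‖ := fun n y =>
    (ContinuousLinearMap.le_opNorm _ _).trans (mul_le_mul_of_nonneg_right (hC n) (norm_nonneg _))
  have hAR : ∀ n, A * R n = J n - 1 := by
    intro n
    have h1 := (hR n).1
    rw [sub_mul, smul_mul_assoc, one_mul] at h1
    have h2 : l n • R n - A * R n = 1 := h1
    rw [hJ]
    simp only
    rw [← h2]
    abel
  have hRA : ∀ n, R n * A = J n - 1 := by
    intro n
    have h1 := (hR n).2
    rw [mul_sub, mul_smul_comm, mul_one] at h1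
    have h2 : l n • R n - R n * A = 1 := h1
    rw [hJ]
    simp only
    rw [← h2]
    abel
  have hAJ : ∀ n, A * J n = l n • (J n - 1) := by
    intro n
    rw [← hAR n, hJ]
    simp only
    rw [mul_smul_comm]
  have hJA : ∀ n, J n * A = l n • (J n - 1) := by
    intro n
    rw [← hRA n, hJ]
    simp only
    rw [smul_mul_assoc]
  have hAJ0 : ∀ y, Tendsto (fun n => A (J n y)) atTop (𝓝 0) := by
    intro y
    rw [tendsto_zero_iff_norm_tendsto_zero]
    have hlim : Tendsto (fun n : ℕ => (1 / ((n : ℝ) + 1)) * ((C + 1) * ‖y‖)) atTop (𝓝 0) := by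
      have := tendsto_one_div_add_atTop_nhds_zero_nat (𝕜 := ℝ)
      simpa using this.mul_const ((C + 1) * ‖y‖)
    refine squeeze_zero (fun n => norm_nonneg _) (fun n => ?_) hlim
    have h1 : A (J n y) = l n • (J n y - y) := by
      have h2 := congrArg (fun T : Y →L[ℂ] Y => T y) (hAJ n)
      exact h2
    rw [h1, norm_smul, hln]
    apply mul_le_mul_of_nonneg_left _ (by positivity)
    have h3 := norm_sub_le (J n y) y
    have h4 := hJle n y
    linarith
  have hJA0 : ∀ z, Tendsto (fun n => J n (A z)) atTop (𝓝 0) := by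
    intro z
    refine (hAJ0 z).congr fun n => ?_
    have h1 : A * J n = J n * A := by rw [hAJ, hJA]
    exact congrArg (fun T : Y →L[ℂ] Y => T z) h1
  have hker : ∀ x, A x = 0 → ∀ n, J n x = x := by
    intro x hx n
    have h1 := congrArg (fun T : Y →L[ℂ] Y => T x) (hRA n)
    have h2 : R n (A x) = J n x - x := h1
    rw [hx, map_zero] at h2
    exact (sub_eq_zero.mp h2.symm)
  set W : Submodule ℂ Y := (LinearMap.range (A : Y →ₗ[ℂ] Y)).topologicalClosure with hW
  have hWc : IsClosed (W : Set Y) := Submodule.isClosed_topologicalClosure _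
  have hAW : ∀ y, A y ∈ W := fun y =>
    Submodule.le_topologicalClosure _ (LinearMap.mem_range_self (A : Y →ₗ[ℂ] Y) y)
  have happrox : ∀ w ∈ W, ∀ ε : ℝ, 0 < ε → ∃ z, ‖w - A z‖ < ε := by
    intro w hw ε hε
    have h1 : w ∈ closure ((LinearMap.range (A : Y →ₗ[ℂ] Y) : Submodule ℂ Y) : Set Y) := hw
    obtain ⟨b, ⟨z, hz⟩, hb⟩ := Metric.mem_closure_iff.mp h1 ε hε
    refine ⟨z, ?_⟩
    rw [dist_eq_norm] at hb
    have h2 : A z = b := hz
    rw [h2]
    exact hb
  have hJW : ∀ w ∈ W, Tendsto (fun n => J n w) atTop (𝓝 0) := by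
    intro w hw
    rw [Metric.tendsto_atTop]
    intro ε hε
    obtain ⟨z, hz⟩ := happrox w hw (ε / (2 * (C + 1))) (by positivity)
    obtain ⟨N, hN⟩ := Metric.tendsto_atTop.mp (hJA0 z) (ε / 2) (by positivity)
    refine ⟨N, fun n hn => ?_⟩
    have h1 := hN n hn
    rw [dist_zero_right] at h1 ⊢
    have h2 : J n w = J n (w - A z) + J n (A z) := by
      rw [map_sub]
      abel
    have h3 := hJle n (w - A z)
    have h5 : C * ‖w - A z‖ ≤ ε / 2 := by
      have h6 : C * ‖w - A z‖ ≤ (C + 1) * (ε / (2 * (C + 1))) := by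
        apply mul_le_mul (by linarith) hz.le (norm_nonneg _) (by positivity)
      have h7 : (C + 1) * (ε / (2 * (C + 1))) = ε / 2 := by
        field_simp
      linarith
    calc ‖J n w‖ ≤ ‖J n (w - A z)‖ + ‖J n (A z)‖ := by
          rw [h2]
          exact norm_add_le _ _
      _ < ε := by linarith
  have hdec : ∀ y, ∃ p, A p = 0 ∧ y - p ∈ W := by
    intro y
    obtain ⟨φ, hφ, p, hp⟩ := s.a_wk (fun n => J n y) (C * ‖y‖) (fun n => hJle n y)
    refine ⟨p, ?_, ?_⟩
    · apply SeparatingDual.eq_zero_of_forall_dual_eq_zero (R := ℂ)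
      intro f
      have h1 := hp (f.comp A)
      have h2 : Tendsto (fun n => (f.comp A) (J (φ n) y)) atTop (𝓝 0) := by
        have h3 := (f.continuous.tendsto _).comp ((hAJ0 y).comp hφ.tendsto_atTop)
        rw [map_zero] at h3
        exact h3
      exact tendsto_nhds_unique h1 h2
    · apply mem_of_weak_limit hWc (x := fun n => y - J (φ n) y)
      · intro n
        have h1 : A (R (φ n) y) = J (φ n) y - y :=
          congrArg (fun T : Y →L[ℂ] Y => T y) (hAR (φ n))
        have h2 : y - J (φ n) y = A (-(R (φ n) y)) := by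
          rw [map_neg, h1]
          abel
        rw [h2]
        exact hAW _
      · intro f
        have h1 := (tendsto_const_nhds (x := f y)).sub (hp f)
        simp only [map_sub]
        exact h1
  choose p hp0 hpW using hdec
  have hJp : ∀ y, Tendsto (fun n => J n y) atTop (𝓝 (p y)) := by
    intro y
    have h1 := (hJW (y - p y) (hpW y)).add (tendsto_const_nhds (x := p y))
    rw [zero_add] at h1
    refine h1.congr fun n => ?_
    rw [map_sub, hker _ (hp0 y) n]
    abel
  set P : Y →L[ℂ] Y := continuousLinearMapOfTendsto J (tendsto_pi_nhds.mpr hJp) with hP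
  have hPp : ∀ y, P y = p y := fun y => rfl
  have hAP : A * P = 0 := by
    ext y
    show A (P y) = 0
    rw [hPp]
    exact hp0 y
  have hPW : ∀ w ∈ W, P w = 0 := by
    intro w hw
    rw [hPp]
    exact tendsto_nhds_unique (hJp w) (hJW w hw)
  have hQW : ∀ y, (1 - P) y ∈ W := by
    intro y
    have h1 : (1 - P) y = y - p y := rfl
    rw [h1]
    exact hpW y
  have hinj : ∀ w ∈ W, A w = 0 → w = 0 := by
    intro w hw h0
    have h1 := hJW w hw
    have h2 : Tendsto (fun n => J n w) atTop (𝓝 w) := by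
      simp only [hker w h0]
      exact tendsto_const_nhds
    exact tendsto_nhds_unique h2 h1
  -- bounded below
  obtain ⟨c, hc, hbelow⟩ : ∃ c : ℝ, 0 < c ∧ ∀ w ∈ W, c * ‖w‖ ≤ ‖A w‖ := by
    by_cases haA : s.a A = 0
    · have haJ : ∀ n, s.a (J n) = 1 := by
        intro n
        have h1 := s.a_mul A (R n) haA
        rw [hAR, map_sub, s.a_one, sub_eq_zero] at h1
        exact h1
      have haP : s.a P = 1 := by
        have h1 := s.a_lim J P C hJC hJp
        simp only [haJ] at h1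
        exact (tendsto_nhds_unique h1 tendsto_const_nhds)
      refine s.bddBelow (J := P) (K := A) (by rw [haP]; exact one_ne_zero) hWc hinj ?_
      intro x hx _
      have h1 : (fun n => P (x n)) = fun _ => 0 := by
        funext n
        exact hPW _ (hx n)
      rw [h1]
      exact tendsto_const_nhds
    · exact s.bddBelow (J := A) (K := A) haA hWc hinj (fun x _ h => h)
  -- the restriction
  set AW : W →L[ℂ] W := (A.comp W.subtypeL).codRestrict W (fun w => hAW _) with hAWdef
  have hAWapp : ∀ w : W, ((AW w : W) : Y) = A w := fun w => rfl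
  have hWcomp : CompleteSpace W := hWc.completeSpace_coe
  have hanti : AntilipschitzWith (Real.toNNReal c⁻¹) AW := by
    apply AddMonoidHomClass.antilipschitz_of_bound
    intro w
    have := hbelow w w.2
    rw [Real.coe_toNNReal _ (inv_nonneg.mpr hc.le), inv_mul_eq_div, le_div_iff₀ hc, mul_comm]
    exact this
  have hclosed : IsClosed (range AW) := hanti.isClosed_range AW.uniformContinuous
  have hdense : DenseRange AW := by
    intro w
    rw [Metric.mem_closure_iff]
    intro ε hε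
    obtain ⟨z, hz⟩ := happrox w w.2 ε hε
    refine ⟨AW ⟨(1 - P) z, hQW z⟩, mem_range_self _, ?_⟩
    rw [Subtype.dist_eq, dist_eq_norm, hAWapp]
    have h1 : A ((1 - P) z) = A z := by
      have h2 : (1 - P) z = z - P z := rfl
      rw [h2, map_sub]
      have h3 : A (P z) = 0 := congrArg (fun T : Y →L[ℂ] Y => T z) hAP
      rw [h3, sub_zero]
    rw [h1]
    exact hz
  have hsurj : Function.Surjective AW := by
    rw [← range_eq_univ, ← hclosed.closure_eq]
    exact hdense.closure_range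
  have hkerW : LinearMap.ker (AW : W →ₗ[ℂ] W) = ⊥ := by
    rw [LinearMap.ker_eq_bot']
    intro w hw
    have h1 : AW w = 0 := hw
    have h2 : A (w : Y) = 0 := by
      rw [← hAWapp, h1]
      rfl
    exact Subtype.ext (hinj w w.2 h2)
  have hrangeW : LinearMap.range (AW : W →ₗ[ℂ] W) = ⊤ := LinearMap.range_eq_top.mpr hsurj
  set e : W ≃L[ℂ] W := ContinuousLinearEquiv.ofBijective AW hkerW hrangeW with he
  have heAW : ∀ w, AW (e.symm w) = w := fun w => e.apply_symm_apply w
  refine ⟨W.subtypeL.comp ((e.symm : W →L[ℂ] W).comp ((1 - P).codRestrict W hQW)), 1 - P,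
    ?_, ?_, ?_⟩
  · ext y
    have h1 := heAW ⟨(1 - P) y, hQW y⟩
    have h2 := congrArg (fun w : W => (w : Y)) h1
    exact h2
  · rw [mul_sub, mul_one, hAP, sub_zero]
  · ext y
    set v : W := e.symm ⟨(1 - P) y, hQW y⟩ with hv
    show (1 - P) (v : Y) = v
    have h2 : (1 - P) (v : Y) = v - P v := rfl
    rw [h2, hPW v v.2, sub_zero]

/-- spaces with a scalar part have property (H) -/
theorem propertyH [CompleteSpace Y] : PropertyH Y := by
  rintro A ⟨-, hd, σ, hσ0, hσ1, hres, hbd⟩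
  have hpi := Real.pi_pos
  have hσπ : σ < Real.pi := by linarith
  set τ : ℝ := (σ + Real.pi) / 2 with hτ
  have hστ : σ < τ := by linarith
  have hτπ : τ < Real.pi := by linarith
  have hτ0 : 0 < τ := by linarith
  obtain ⟨C, hC⟩ := hbd τ hστ hτπ
  have hneg : ∀ c : ℝ, 0 < c → ∃ R, IsResolvent A (-(c : ℂ)) R ∧ ‖(-(c : ℂ)) • R‖ ≤ C := by
    intro c hc
    obtain ⟨R, hR⟩ := hres _ (neg_notMem hσ0 hσπ hc)
    exact ⟨R, hR, hC _ (neg_notMem hτ0 hτπ hc) R hR⟩
  -- `A` is bounded
  obtain ⟨A', hA'⟩ : ∃ A' : Y →L[ℂ] Y, ∀ x, ∃ h : x ∈ A.domain, A ⟨x, h⟩ = A' x := by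
    choose R hR1 hR2 using fun n : ℕ => hneg ((n : ℝ) + 1) (by positivity)
    have hcast : ∀ n : ℕ, (-(((n : ℝ) + 1 : ℝ) : ℂ)) = -((n : ℂ) + 1) := by
      intro n
      push_cast
      rfl
    refine s.exists_bounded hd (R := R) (C := C) (fun n => ?_) (fun n => ?_)
    · rw [← hcast]
      exact hR1 n
    · rw [← hcast]
      exact hR2 n
  have hB : ∀ (l : ℂ) (R : Y →L[ℂ] Y), IsResolvent A l R → BRes A' l R := by
    intro l R hR
    constructor
    · ext x
      obtain ⟨h, h1⟩ := hR.1 x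
      obtain ⟨h', h2⟩ := hA' (R x)
      have h3 : A ⟨R x, h⟩ = A' (R x) := h2
      rw [h3] at h1
      exact h1
    · ext x
      obtain ⟨h', h2⟩ := hA' x
      have h3 := hR.2 ⟨x, h'⟩
      simp only at h3
      rw [h2] at h3
      exact h3
  -- pseudo-inverse
  obtain ⟨B, Q, hAB, hAQ, hQB⟩ : ∃ B Q : Y →L[ℂ] Y, A' * B = Q ∧ A' * Q = A' ∧ Q * B = B := by
    choose R hR1 hR2 using fun n : ℕ => hneg (1 / ((n : ℝ) + 1)) (by positivity)
    exact s.exists_pseudo (R := R) (C := C) (fun n => hB _ _ (hR1 n)) hR2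
  set F : Set ℂ := {l | l.re ≤ ‖l‖ * Real.cos τ} with hF
  have hFc : IsClosed F :=
    isClosed_le Complex.continuous_re (continuous_norm.mul continuous_const)
  have hFres : ∀ l ∈ F, l ≠ 0 → ∃ R, BRes A' l R := by
    intro l hl hl0
    have hn : l ∉ closure (sector σ) := by
      intro hcl
      have h1 := mem_closure_sector_re hσπ.le hcl
      have h2 : l.re ≤ ‖l‖ * Real.cos τ := hl
      have h3 : Real.cos τ < Real.cos σ :=
        Real.cos_lt_cos_of_nonneg_of_le_pi hσ0.le hτπ.le hστ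
      have h4 : 0 < ‖l‖ := norm_pos_iff.mpr hl0
      nlinarith
    obtain ⟨R, hR⟩ := hres l hn
    exact ⟨R, hB l R hR⟩
  have hRB := rb_of_bounded hAB hAQ hQB hFc hFres
  refine ⟨τ, hτ0, hτπ, hRB.mono ?_⟩
  rintro T ⟨l, hl, R, hR, rfl⟩
  obtain ⟨h1, h2⟩ := re_le_of_notMem hτ0 hl
  exact ⟨l, h2, h1, R, hB l R hR, rfl⟩

end ScalarPart

end Pool.Agent.RSec
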