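import Pool.Agent.RSec.Hump

/-!
From R-boundedness of the unit ball to type 2 and cotype 2.
-/

set_option autoImplicit false
set_option linter.unusedSectionVars false

open Finset Filter Topology

namespace Pool.Agent.RSec

universe u

variable {Y : Type u} [NormedAddCommGroup Y] [NormedSpace ℂ Y]

theorem sum_sign {N : ℕ} {i j : Fin N} (h : i ≠ j) :
    ∑ e : Fin N → Bool, sg (e i) * sg (e j) = 0 := by
  let fl : (Fin N → Bool) ≃ (Fin N → Bool) :=
    { toFun := fun x => Function.update x i (!(x i))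
      invFun := fun x => Function.update x i (!(x i))
      left_inv := by intro x; funext e'; by_cases h : e' = i <;> simp [h]
      right_inv := by intro x; funext e'; by_cases h : e' = i <;> simp [h] }
  have h1 : ∑ e : Fin N → Bool, sg (e i) * sg (e j) =
      ∑ e : Fin N → Bool, -(sg (e i) * sg (e j)) := by
    apply Fintype.sum_equiv fl
    intro e
    have h2 : fl e i = !(e i) := by simp [fl]
    have h3 : fl e j = e j := by simp [fl, Function.update_of_ne h.symm]
    rw [h2, h3]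
    cases e i <;> cases e j <;> simp [sg]
  rw [sum_neg_distrib] at h1
  linarith

theorem sg_sq (b : Bool) : sg b * sg b = 1 := by
  cases b <;> simp [sg]

theorem abs_sg (b : Bool) : |sg b| = 1 := by
  cases b <;> simp [sg]

theorem sum_sign_sq {N : ℕ} (a : Fin N → ℝ) :
    ∑ e : Fin N → Bool, (∑ j, sg (e j) * a j) ^ 2 = 2 ^ N * ∑ j, a j ^ 2 := by
  have h1 : ∀ e : Fin N → Bool, (∑ j, sg (e j) * a j) ^ 2 =
      ∑ i, ∑ j, (sg (e i) * sg (e j)) * (a i * a j) := by
    intro e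
    rw [pow_two, sum_mul_sum]
    apply sum_congr rfl
    intro i _
    apply sum_congr rfl
    intro j _
    ring
  simp_rw [h1]
  rw [sum_comm]
  rw [mul_sum]
  apply sum_congr rfl
  intro i _
  rw [sum_comm, sum_eq_single i]
  · rw [← sum_mul]
    simp_rw [sg_sq]
    rw [sum_const, card_univ, Fintype.card_fun, Fintype.card_fin, Fintype.card_bool]
    simp
    ring
  · intro j _ hj
    rw [← sum_mul, sum_sign hj.symm, zero_mul]
  · intro h
    exact absurd (mem_univ i) h

theorem radSq_line {N : ℕ} (a : Fin N → ℝ) {u : Y} (hu : ‖u‖ = 1) :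
    radSq (fun j => a j • u) = ∑ j, a j ^ 2 := by
  unfold radSq
  have h1 : ∀ e : Fin N → Bool, ‖∑ j, sg (e j) • a j • u‖ ^ 2 = (∑ j, sg (e j) * a j) ^ 2 := by
    intro e
    simp_rw [smul_smul]
    rw [← sum_smul, norm_smul, hu, mul_one, Real.norm_eq_abs, sq_abs]
  rw [sum_congr rfl (fun e _ => h1 e), sum_sign_sq]
  field_simp

/-- rank one contraction -/
theorem exists_contraction {y z : Y} (h : ‖z‖ ≤ ‖y‖) : ∃ S : Y →L[ℂ] Y, ‖S‖ ≤ 1 ∧ S y = z := by
  by_cases hy : y = 0
  · subst hy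
    rw [norm_zero] at h
    have hz : z = 0 := norm_le_zero_iff.mp h
    exact ⟨0, by simp, by simp [hz]⟩
  · obtain ⟨g, hg1, hg2⟩ := exists_dual_vector ℂ y (norm_ne_zero_iff.mpr hy)
    have hn : 0 < ‖y‖ := norm_pos_iff.mpr hy
    have hn' : ((‖y‖ : ℝ) : ℂ) ≠ 0 := by exact_mod_cast hn.ne'
    refine ⟨((‖y‖ : ℝ) : ℂ)⁻¹ • g.smulRight z, ?_, ?_⟩
    · rw [norm_smul, ContinuousLinearMap.norm_smulRight_apply, hg1, one_mul, norm_inv,
        Complex.norm_real, norm_norm, inv_mul_le_iff₀ hn, mul_one]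
      exact h
    · simp only [_root_.smul_apply, ContinuousLinearMap.smulRight_apply]
      have hg3 : g y = ((‖y‖ : ℝ) : ℂ) := hg2
      rw [hg3, smul_smul, inv_mul_cancel₀ hn', one_smul]

/-- type 2 and cotype 2 (Rademacher) -/
theorem type_cotype {C : ℝ}
    (h : ∀ (N : ℕ) (S : Fin N → (Y →L[ℂ] Y)), (∀ j, ‖S j‖ ≤ 1) → ∀ y : Fin N → Y,
      radSq (fun j => S j (y j)) ≤ C * radSq y) :
    ∀ (N : ℕ) (z : Fin N → Y), radSq z ≤ C * ∑ j, ‖z j‖ ^ 2 ∧
      ∑ j, ‖z j‖ ^ 2 ≤ C * radSq z := by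
  intro N z
  have hcmp : ∀ (y z : Fin N → Y), (∀ j, ‖z j‖ ≤ ‖y j‖) → radSq z ≤ C * radSq y := by
    intro y z hyz
    choose S hS1 hS2 using fun j => exists_contraction (hyz j)
    have h1 := h N S hS1 y
    simp_rw [hS2] at h1
    exact h1
  by_cases hsub : ∃ v : Y, v ≠ 0
  · obtain ⟨v, hv⟩ := hsub
    have hn : 0 < ‖v‖ := norm_pos_iff.mpr hv
    set u : Y := (‖v‖⁻¹ : ℝ) • v with hu
    have hu1 : ‖u‖ = 1 := by
      rw [hu, norm_smul, Real.norm_eq_abs, abs_of_pos (inv_pos.mpr hn), inv_mul_cancel₀ hn.ne']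
    have h2 : ∀ j, ‖(‖z j‖ • u : Y)‖ = ‖z j‖ := by
      intro j
      rw [norm_smul, hu1, mul_one, norm_norm]
    have h3 := radSq_line (fun j => ‖z j‖) hu1
    constructor
    · rw [← h3]
      exact hcmp _ _ (fun j => (h2 j).ge)
    · rw [← h3]
      exact hcmp _ _ (fun j => (h2 j).le)
  · push Not at hsub
    have h1 : ∀ j, ‖z j‖ = 0 := fun j => by rw [hsub (z j), norm_zero]
    have h2 : radSq z = 0 := by
      unfold radSq
      have : ∀ e : Fin N → Bool, ‖∑ k, sg (e k) • z k‖ ^ 2 = 0 := by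
        intro e
        rw [hsub (∑ k, sg (e k) • z k), norm_zero]
        simp
      rw [sum_congr rfl (fun e _ => this e)]
      simp
    simp [h1, h2]

end Pool.Agent.RSec
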